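import Pool.Agent.R984.PH.Stm

/-! Boundary points of a convex polygon lie on its edges, by helper971. -/

namespace R984.PH

open Set

theorem bd_v_eq (P : Polygon) {i j : ℤ} (h : (P.n : ℤ) ∣ j - i) : P.v j = P.v i := by
  obtain ⟨k, hk⟩ := h
  have hp : Function.Periodic P.v (P.n : ℤ) := P.per
  have := hp.int_mul k i
  rw [show j = i + k * (P.n : ℤ) by linarith]
  exact this

theorem bd_cramer (a b x : E2) : cr a b • x = cr x b • a + cr a x • b := by
  ext k
  fin_cases k
  · simp [cr]; ring
  · simp [cr]; ring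

theorem bd_ndvd (P : Polygon) {m : ℤ} (h1 : m ≠ 0) (h2 : |m| < 3) : ¬ ((P.n : ℤ) ∣ m) := by
  intro h
  have h3 := Int.le_of_dvd (abs_pos.2 h1) ((dvd_abs _ _).2 h)
  have h4 := P.hn
  omega

theorem bd_ab (P : Polygon) (i : ℤ) : 0 < cr (P.v (i + 1) - P.v i) (P.v (i - 1) - P.v i) := by
  apply P.left
  · apply bd_ndvd P
    · omega
    · rw [show i - 1 - i = -1 by ring]; norm_num
  · apply bd_ndvd P
    · omega
    · rw [show i - 1 - (i + 1) = -2 by ring]; norm_num

/-- a face of a convex hull -/
theorem bd_face {S : Set E2} (f : E2 →L[ℝ] ℝ) {M : ℝ} (hM : ∀ x ∈ S, f x ≤ M) {p : E2}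
    (hp : p ∈ convexHull ℝ S) (hfp : f p = M) : p ∈ convexHull ℝ {x ∈ S | f x = M} := by
  set J : Set E2 := convexHull ℝ {x ∈ S | f x = M} with hJ
  have hT : Convex ℝ {x : E2 | f x ≤ M ∧ (f x = M → x ∈ J)} := by
    intro x hx y hy a b ha hb hab
    have e : f (a • x + b • y) = a * f x + b * f y := by simp
    refine ⟨?_, ?_⟩
    · rw [e]
      calc a * f x + b * f y ≤ a * M + b * M := by
            gcongr
            · exact hx.1
            · exact hy.1
        _ = M := by rw [← add_mul, hab, one_mul]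
    · intro h
      rw [e] at h
      rcases ha.eq_or_lt with ha0 | ha0
      · subst ha0
        have hb1 : b = 1 := by linarith
        subst hb1
        simp only [zero_smul, one_smul, zero_add] at h ⊢
        exact hy.2 (by linarith)
      rcases hb.eq_or_lt with hb0 | hb0
      · subst hb0
        have ha1 : a = 1 := by linarith
        subst ha1
        simp only [zero_smul, one_smul, add_zero] at h ⊢
        exact hx.2 (by linarith)
      · have h1 : a * (M - f x) + b * (M - f y) = 0 := by
          have : a * M + b * M = M := by rw [← add_mul, hab, one_mul]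
          linarith
        have h2 : 0 ≤ a * (M - f x) := mul_nonneg ha (sub_nonneg.2 hx.1)
        have h3 : 0 ≤ b * (M - f y) := mul_nonneg hb (sub_nonneg.2 hy.1)
        have h4 : a * (M - f x) = 0 := by linarith
        have h5 : b * (M - f y) = 0 := by linarith
        have h6 : f x = M := by
          rcases mul_eq_zero.1 h4 with h | h
          · exact absurd h ha0.ne'
          · linarith
        have h7 : f y = M := by
          rcases mul_eq_zero.1 h5 with h | h
          · exact absurd h hb0.ne'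
          · linarith
        exact convex_convexHull ℝ _ (hx.2 h6) (hy.2 h7) ha hb hab
  have hS : S ⊆ {x : E2 | f x ≤ M ∧ (f x = M → x ∈ J)} := fun x hx =>
    ⟨hM x hx, fun h => subset_convexHull ℝ _ ⟨hx, h⟩⟩
  exact (convexHull_min hS hT hp).2 hfp

/-- the polygon has interior points -/
theorem bd_int (P : Polygon) : (interior P.body).Nonempty := by
  set a := P.v (0 + 1) - P.v 0 with ha
  set b := P.v (0 - 1) - P.v 0 with hb
  have hab : 0 < cr a b := bd_ab P 0
  set V : Set E2 := {x | 0 < cr (x - P.v 0) b ∧ 0 < cr a (x - P.v 0) ∧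
    cr (x - P.v 0) b + cr a (x - P.v 0) < cr a b} with hV
  have hopen : IsOpen V := by
    have c1 : Continuous fun x : E2 => cr (x - P.v 0) b := by unfold cr; fun_prop
    have c2 : Continuous fun x : E2 => cr a (x - P.v 0) := by unfold cr; fun_prop
    exact (isOpen_lt continuous_const c1).inter
      ((isOpen_lt continuous_const c2).inter (isOpen_lt (c1.add c2) continuous_const))
  have hsub : V ⊆ P.body := by
    rintro x ⟨h1, h2, h3⟩
    obtain ⟨l, m, hl, hm, hlm, hxe⟩ : ∃ l m : ℝ, 0 ≤ l ∧ 0 ≤ m ∧ l + m ≤ 1 ∧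
        x - P.v 0 = l • a + m • b := by
      refine ⟨(cr a b)⁻¹ * cr (x - P.v 0) b, (cr a b)⁻¹ * cr a (x - P.v 0), by positivity,
        by positivity, ?_, ?_⟩
      · rw [← mul_add, inv_mul_le_iff₀ hab, mul_one]
        exact h3.le
      · have h4 := bd_cramer a b (x - P.v 0)
        have h6 := congrArg (fun z => (cr a b)⁻¹ • z) h4
        simp only [smul_smul, inv_mul_cancel₀ hab.ne', one_smul, smul_add] at h6
        exact h6
    have hx : x = (1 - l - m) • P.v 0 + l • P.v (0 + 1) + m • P.v (0 - 1) := by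
      have h7 : x = P.v 0 + (l • a + m • b) := by rw [← hxe]; abel
      rw [h7, ha, hb]
      module
    have hc : Convex ℝ P.body := convex_convexHull ℝ (range P.v)
    have m0 : P.v 0 ∈ P.body := subset_convexHull ℝ _ ⟨0, rfl⟩
    have m1 : P.v (0 + 1) ∈ P.body := subset_convexHull ℝ _ ⟨0 + 1, rfl⟩
    have m2 : P.v (0 - 1) ∈ P.body := subset_convexHull ℝ _ ⟨0 - 1, rfl⟩
    rw [hx]
    have := hc.sum_mem (t := Finset.univ) (w := ![1 - l - m, l, m])
      (z := ![P.v 0, P.v (0 + 1), P.v (0 - 1)]) (by
        intro i _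
        fin_cases i
        · change 0 ≤ 1 - l - m
          linarith
        · exact hl
        · exact hm) (by
        simp only [Fin.sum_univ_three, Matrix.cons_val_zero, Matrix.cons_val_one, Matrix.cons_val]
        ring) (by
        intro i _
        fin_cases i
        · exact m0
        · exact m1
        · exact m2)
    simp only [Fin.sum_univ_three, Matrix.cons_val_zero, Matrix.cons_val_one, Matrix.cons_val]
      at this
    exact this
  have hne : V.Nonempty := by
    refine ⟨P.v 0 + (1 / 3 : ℝ) • a + (1 / 3 : ℝ) • b, ?_, ?_, ?_⟩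
    · have e : cr (P.v 0 + (1 / 3 : ℝ) • a + (1 / 3 : ℝ) • b - P.v 0) b = cr a b / 3 := by
        simp [cr]; ring
      rw [e]; positivity
    · have e : cr a (P.v 0 + (1 / 3 : ℝ) • a + (1 / 3 : ℝ) • b - P.v 0) = cr a b / 3 := by
        simp [cr]; ring
      rw [e]; positivity
    · have e1 : cr (P.v 0 + (1 / 3 : ℝ) • a + (1 / 3 : ℝ) • b - P.v 0) b = cr a b / 3 := by
        simp [cr]; ring
      have e2 : cr a (P.v 0 + (1 / 3 : ℝ) • a + (1 / 3 : ℝ) • b - P.v 0) = cr a b / 3 := by
        simp [cr]; ring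
      rw [e1, e2]; linarith
  exact hne.mono (interior_maximal hsub hopen)

/-- a point of an edge is on the boundary curve -/
theorem bd_edge (g1 : ∀ P, Geo1 P) (P : Polygon) (i : ℤ) {p : E2}
    (hp : p ∈ segment ℝ (P.v i) (P.v (i + 1))) : ∃ τ, p = P.c τ := by
  rw [segment_eq_image'] at hp
  obtain ⟨t, ht, rfl⟩ := hp
  refine ⟨P.T i + t * P.len i, ?_⟩
  rw [← (g1 P).at_iff]
  exact ⟨i, t, ht.1, ht.2, rfl, rfl⟩

theorem bd (g1 : ∀ P, Geo1 P) (P : Polygon) :
    ∀ p ∈ P.body, p ∈ interior P.body ∨ ∃ τ, p = P.c τ := by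
  intro p hp
  by_cases hint : p ∈ interior P.body
  · exact Or.inl hint
  right
  have hconv : Convex ℝ P.body := convex_convexHull ℝ _
  obtain ⟨f, hf⟩ := geometric_hahn_banach_open_point hconv.interior isOpen_interior hint
  have hne := bd_int P
  have hf0 : f ≠ 0 := by
    rintro rfl
    obtain ⟨z, hz⟩ := hne
    have := hf z hz
    simp at this
  have hle : ∀ x ∈ P.body, f x ≤ f p := by
    intro x hx
    have h1 : x ∈ closure (interior P.body) := by
      rw [hconv.closure_interior_eq_closure_of_nonempty_interior hne]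
      exact subset_closure hx
    have h2 : closure (interior P.body) ⊆ {y | f y ≤ f p} :=
      closure_minimal (fun y hy => (hf y hy).le) (isClosed_le f.continuous continuous_const)
    exact h2 h1
  have hv : ∀ i, f (P.v i) ≤ f p := fun i => hle _ (subset_convexHull ℝ _ ⟨i, rfl⟩)
  have hface : p ∈ convexHull ℝ {x ∈ range P.v | f x = f p} :=
    bd_face f (by rintro _ ⟨i, rfl⟩; exact hv i) hp rfl
  -- a corner with maximal value
  obtain ⟨i, hi⟩ : ∃ i, f (P.v i) = f p := by
    by_contra hno
    push Not at hno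
    have : {x ∈ range P.v | f x = f p} = ∅ := by
      ext x
      simp only [mem_ofPred_eq, mem_empty_iff_false, iff_false, not_and]
      rintro ⟨i, rfl⟩
      exact hno i
    rw [this, convexHull_empty] at hface
    exact hface
  set a := P.v (i + 1) - P.v i with ha
  set b := P.v (i - 1) - P.v i with hb
  have hab : 0 < cr a b := bd_ab P i
  have fa : f a ≤ 0 := by
    rw [ha, map_sub, hi]
    linarith [hv (i + 1)]
  have fb : f b ≤ 0 := by
    rw [hb, map_sub, hi]
    linarith [hv (i - 1)]
  have hnot : ¬ (f a = 0 ∧ f b = 0) := by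
    rintro ⟨h1, h2⟩
    apply hf0
    ext x
    have h3 := congrArg f (bd_cramer a b x)
    rw [map_smul, map_add, map_smul, map_smul, h1, h2, smul_zero, smul_zero, add_zero] at h3
    rcases smul_eq_zero.1 h3 with h4 | h4
    · exact absurd h4 hab.ne'
    · simpa using h4
  -- the other corners are not maximal
  have hother : ∀ j, ¬ ((P.n : ℤ) ∣ j - i) → ¬ ((P.n : ℤ) ∣ j - (i + 1)) →
      ¬ ((P.n : ℤ) ∣ j - (i - 1)) → f (P.v j) ≠ f p := by
    intro j h1 h2 h3 h4
    set w := P.v j - P.v i with hw
    have c1 : 0 < cr a w := P.left i j h1 h2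
    have c2 : 0 < cr w b := by
      have := P.left (i - 1) j h3 (by rwa [sub_add_cancel])
      rw [sub_add_cancel] at this
      have e : cr (P.v i - P.v (i - 1)) (P.v j - P.v (i - 1)) = cr w b := by
        rw [hw, hb]
        simp [cr]; ring
      rwa [e] at this
    have fw : f w = 0 := by rw [hw, map_sub, h4, hi, sub_self]
    have h5 := congrArg f (bd_cramer a b w)
    rw [map_smul, map_add, map_smul, map_smul, fw, smul_zero] at h5
    simp only [smul_eq_mul] at h5
    have h6 : cr w b * f a ≤ 0 := mul_nonpos_of_nonneg_of_nonpos c2.le fa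
    have h7 : cr a w * f b ≤ 0 := mul_nonpos_of_nonneg_of_nonpos c1.le fb
    have h8 : cr w b * f a = 0 := by linarith
    have h9 : cr a w * f b = 0 := by linarith
    exact hnot ⟨(mul_eq_zero.1 h8).resolve_left c2.ne', (mul_eq_zero.1 h9).resolve_left c1.ne'⟩
  by_cases hfb : f b = 0
  · have hfa : f a ≠ 0 := fun h => hnot ⟨h, hfb⟩
    have hJ : {x ∈ range P.v | f x = f p} ⊆ {P.v (i - 1), P.v (i - 1 + 1)} := by
      rintro _ ⟨⟨j, rfl⟩, hj⟩
      rw [sub_add_cancel]
      by_cases h1 : (P.n : ℤ) ∣ j - i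
      · right; exact bd_v_eq P h1
      by_cases h3 : (P.n : ℤ) ∣ j - (i - 1)
      · left; exact bd_v_eq P h3
      by_cases h2 : (P.n : ℤ) ∣ j - (i + 1)
      · exfalso
        rw [bd_v_eq P h2] at hj
        apply hfa
        rw [ha, map_sub, hj, hi, sub_self]
      · exact absurd hj (hother j h1 h2 h3)
    have := convexHull_mono hJ hface
    rw [convexHull_pair] at this
    exact bd_edge g1 P (i - 1) this
  · have hJ : {x ∈ range P.v | f x = f p} ⊆ {P.v i, P.v (i + 1)} := by
      rintro _ ⟨⟨j, rfl⟩, hj⟩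
      by_cases h1 : (P.n : ℤ) ∣ j - i
      · left; exact bd_v_eq P h1
      by_cases h2 : (P.n : ℤ) ∣ j - (i + 1)
      · right; exact bd_v_eq P h2
      by_cases h3 : (P.n : ℤ) ∣ j - (i - 1)
      · exfalso
        rw [bd_v_eq P h3] at hj
        apply hfb
        rw [hb, map_sub, hj, hi, sub_self]
      · exact absurd hj (hother j h1 h2 h3)
    have := convexHull_mono hJ hface
    rw [convexHull_pair] at this
    exact bd_edge g1 P i this

end R984.PH
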