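import Pool.Agent.R984.PH.Met

/-! CAL: the calibrating functions, and the chord lemma. -/

namespace R984.PH

open Set

theorem chord (g1 : ∀ P, Geo1 P) (g2 : ∀ P, Geo2 P) (P : Polygon) (r : ℝ) (hr : 0 < r) :
    ∃ ρ > 0, ∀ a b, (∀ k : ℤ, r ≤ |a - b - k * P.L|) → ρ ≤ dist (P.c a) (P.c b) := by
  have hL := (g1 P).Lpos
  have hc : Continuous P.c := by
    have : LipschitzWith 1 P.c := LipschitzWith.of_dist_le_mul (fun a b => by
      rw [NNReal.coe_one, one_mul, Real.dist_eq]; exact (g1 P).c_lip a b)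
    exact this.continuous
  set K : Set (ℝ × ℝ) := {x | x ∈ Icc (0:ℝ) P.L ×ˢ Icc (0:ℝ) P.L ∧
    ∀ k : ℤ, r ≤ |x.1 - x.2 - k * P.L|} with hK
  have hKc : IsCompact K := by
    have h1 : IsCompact (Icc (0:ℝ) P.L ×ˢ Icc (0:ℝ) P.L) := isCompact_Icc.prod isCompact_Icc
    have h2 : IsClosed {x : ℝ × ℝ | ∀ k : ℤ, r ≤ |x.1 - x.2 - k * P.L|} := by
      rw [ofPred_forall]
      exact isClosed_iInter (fun k => isClosed_le continuous_const (by fun_prop))
    exact h1.inter_right h2
  have hred : ∀ a : ℝ, ∃ k : ℤ, a - k * P.L ∈ Icc (0:ℝ) P.L := by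
    intro a
    obtain ⟨k, ⟨h1, h2⟩, -⟩ := existsUnique_sub_zsmul_mem_Ico hL a 0
    rw [zsmul_eq_mul] at h1 h2
    exact ⟨k, h1, by linarith⟩
  have key : ∀ ρ : ℝ, (∀ x ∈ K, ρ ≤ dist (P.c x.1) (P.c x.2)) →
      ∀ a b, (∀ k : ℤ, r ≤ |a - b - k * P.L|) → ρ ≤ dist (P.c a) (P.c b) := by
    intro ρ h a b hab
    obtain ⟨k, hk⟩ := hred a
    obtain ⟨m, hm⟩ := hred b
    have := h (a - k * P.L, b - m * P.L) ⟨⟨hk, hm⟩, fun j => by
      have := hab (j + k - m)
      push_cast at this
      convert this using 2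
      ring⟩
    simp only [c_per_int' (g1 P)] at this
    exact this
  rcases K.eq_empty_or_nonempty with he | hne
  · exact ⟨1, one_pos, key 1 (by rw [he]; simp)⟩
  · obtain ⟨x, hx, hmin⟩ := hKc.exists_isMinOn hne
      (f := fun x : ℝ × ℝ => dist (P.c x.1) (P.c x.2)) (by fun_prop)
    refine ⟨dist (P.c x.1) (P.c x.2), ?_, key _ (fun y hy => hmin hy)⟩
    rw [gt_iff_lt, dist_pos]
    intro heq
    obtain ⟨k, hk⟩ := (g2 P).inj _ _ heq
    have := hx.2 (-k)
    rw [hk] at this
    push_cast at this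
    rw [show x.1 - (x.1 + k * P.L) - -k * P.L = 0 by ring, abs_zero] at this
    linarith

theorem str {P : Polygon} (g1 : Geo1 P) {x r u : ℝ} (hu : |u| < r)
    (h : ∀ i, ¬ (x - r < P.T i ∧ P.T i < x) ∧ ¬ (x < P.T i ∧ P.T i < x + r)) :
    dist (P.c (x + u)) (P.c x) = |u| := by
  have hu1 := (abs_lt.1 hu).1
  have hu2 := (abs_lt.1 hu).2
  rcases le_total 0 u with h0 | h0
  · obtain ⟨e, he, hc⟩ := g1.straight x (x + u) (by linarith)
      (fun i hi => (h i).2 ⟨hi.1, by linarith [hi.2]⟩)
    rw [hc (x + u) ⟨by linarith, le_refl _⟩, dist_eq_norm]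
    rw [show P.c x + (x + u - x) • e - P.c x = u • e by module, norm_smul, he, mul_one,
      Real.norm_eq_abs]
  · obtain ⟨e, he, hc⟩ := g1.straight (x + u) x (by linarith)
      (fun i hi => (h i).1 ⟨by linarith [hi.1], hi.2⟩)
    rw [hc x ⟨by linarith, le_refl _⟩, dist_eq_norm]
    rw [show P.c (x + u) - (P.c (x + u) + (x - (x + u)) • e) = u • e by module, norm_smul, he,
      mul_one, Real.norm_eq_abs]

theorem cal (g1 : ∀ P, Geo1 P) (g2 : ∀ P, Geo2 P) : St_CAL := by
  intro P s t r ρ hr hρ hρr hT hsep hch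
  have per := c_per_int (g1 P)
  have per' := c_per_int' (g1 P)
  -- one side near
  have near : ∀ (d : ℝ) (k : ℤ), |s + d - t - k * P.L| < r →
      min ρ (min (dist (P.c (s + d)) (P.c t)) (dist (P.c (s + d)) (P.c (2 * s - t)))) =
      min ρ (min (dist (P.c (s - d)) (P.c t)) (dist (P.c (s - d)) (P.c (2 * s - t)))) := by
    intro d k hk
    set u := s + d - t - k * P.L with hu
    have e1 : dist (P.c (s + d)) (P.c t) = |u| := by
      have := str (g1 P) hk (x := t) (fun i => ⟨(hT i).1, (hT i).2.1⟩)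
      rw [← this, ← per k (t + u)]
      congr 2
      rw [hu]; ring
    have e2 : dist (P.c (s - d)) (P.c (2 * s - t)) = |u| := by
      have hk' : |-u| < r := by rwa [abs_neg]
      have := str (g1 P) hk' (x := 2 * s - t) (fun i => ⟨(hT i).2.2.1, (hT i).2.2.2⟩)
      rw [abs_neg] at this
      rw [← this, ← per' k (2 * s - t + -u)]
      congr 2
      rw [hu]; ring
    rcases hsep with hsep | ⟨m, hm⟩
    · have e3 : ρ ≤ dist (P.c (s + d)) (P.c (2 * s - t)) := by
        refine hch _ _ (fun m => ?_)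
        have h1 := hsep (k - m)
        have h2 : |2 * s - 2 * t - ((k - m : ℤ) : ℝ) * P.L| ≤
            |s + d - t - k * P.L| + |s + d - (2 * s - t) - m * P.L| := by
          have := abs_sub (s + d - t - k * P.L) (s + d - (2 * s - t) - m * P.L)
          refine le_trans (le_of_eq ?_) this
          congr 1; push_cast; ring
        linarith
      have e4 : ρ ≤ dist (P.c (s - d)) (P.c t) := by
        refine hch _ _ (fun m => ?_)
        have h1 := hsep (k + m)
        have h2 : |2 * s - 2 * t - ((k + m : ℤ) : ℝ) * P.L| ≤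
            |s + d - t - k * P.L| + |s - d - t - m * P.L| := by
          have := abs_add_le (s + d - t - k * P.L) (s - d - t - m * P.L)
          refine le_trans (le_of_eq ?_) this
          congr 1; push_cast; ring
        linarith
      rw [e1, e2]
      have a1 : min ρ (min |u| (dist (P.c (s + d)) (P.c (2 * s - t)))) = min ρ |u| := by
        rw [min_comm |u|, ← min_assoc, min_eq_left e3]
      have a2 : min ρ (min (dist (P.c (s - d)) (P.c t)) |u|) = min ρ |u| := by
        rw [← min_assoc, min_eq_left e4]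
      rw [a1, a2]
    · have e3 : P.c (2 * s - t) = P.c t := by
        rw [← per m t]
        congr 1; linarith
      rw [e3] at e2 ⊢
      rw [e1, e2]
  have hF : ∀ d : ℝ,
      min ρ (min (dist (P.c (s + d)) (P.c t)) (dist (P.c (s + d)) (P.c (2 * s - t)))) =
      min ρ (min (dist (P.c (s - d)) (P.c t)) (dist (P.c (s - d)) (P.c (2 * s - t)))) := by
    intro d
    by_cases h1 : ∃ k : ℤ, |s + d - t - k * P.L| < r
    · obtain ⟨k, hk⟩ := h1
      exact near d k hk
    by_cases h2 : ∃ k : ℤ, |s - d - t - k * P.L| < r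
    · obtain ⟨k, hk⟩ := h2
      have := near (-d) k (by rwa [← sub_eq_add_neg])
      rw [sub_neg_eq_add, ← sub_eq_add_neg] at this
      exact this.symm
    · push Not at h1 h2
      have a1 : ρ ≤ dist (P.c (s + d)) (P.c t) := hch _ _ h1
      have a2 : ρ ≤ dist (P.c (s - d)) (P.c t) := hch _ _ h2
      have a3 : ρ ≤ dist (P.c (s + d)) (P.c (2 * s - t)) := hch _ _ (fun k => by
        have := h2 (-k)
        rw [show s + d - (2 * s - t) - k * P.L = -(s - d - t - ((-k : ℤ) : ℝ) * P.L) by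
          push_cast; ring, abs_neg]
        exact this)
      have a4 : ρ ≤ dist (P.c (s - d)) (P.c (2 * s - t)) := hch _ _ (fun k => by
        have := h1 (-k)
        rw [show s - d - (2 * s - t) - k * P.L = -(s + d - t - ((-k : ℤ) : ℝ) * P.L) by
          push_cast; ring, abs_neg]
        exact this)
      rw [min_eq_left (le_min a1 a3), min_eq_left (le_min a2 a4)]
  refine ⟨hF, fun p hp q hq => ?_⟩
  refine (met g1 g2 P s).calib (fun p => min ρ (min (dist p (P.c t)) (dist p (P.c (2 * s - t)))))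
    ?_ hF p hp q hq
  intro p _ q _
  show |min ρ (min (dist p (P.c t)) (dist p (P.c (2 * s - t)))) -
      min ρ (min (dist q (P.c t)) (dist q (P.c (2 * s - t))))| ≤ dist p q
  refine (abs_min_sub_min_le_max _ _ _ _).trans (max_le (by simp [dist_nonneg]) ?_)
  exact (abs_min_sub_min_le_max _ _ _ _).trans
    (max_le (abs_dist_sub_le _ _ _) (abs_dist_sub_le _ _ _))

end R984.PH
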