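import Pool.Agent.R984.PH.Sep

/-! Core: finitely many gluings in an isometry class. -/

namespace R984.PH

open Set

/-- lower bound for `|2s - T i - T j|`, given a lower bound of the distances of special points -/
theorem sep_bound (g1 : ∀ P, Geo1 P) (g2 : ∀ P, Geo2 P) (P : Polygon) (s δ : ℝ)
    (h1 : ∀ i j : ℤ, ¬ (P.n : ℤ) ∣ j - i → δ ≤ P.gdist s (P.v i) (P.v j))
    (h2 : ∀ i : ℤ, δ ≤ P.gdist s (P.v i) (P.c s))
    (h3 : ∀ i : ℤ, δ ≤ P.gdist s (P.v i) (P.c (s + P.L / 2))) (hδ : 0 < δ) :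
    ∀ i j, δ ≤ |2 * s - P.T i - P.T j| := by
  intro i j
  have M := met g1 g2 P s
  by_cases hd : (P.n : ℤ) ∣ j - i
  · obtain ⟨m, hm⟩ := hd
    have hj : P.T j = P.T i + m * P.L := by
      rw [← T_int (g1 P)]; congr 1; linarith
    rcases Int.even_or_odd' m with ⟨k, hk | hk⟩
    · have a1 := h2 i
      have a2 : P.gdist s (P.v i) (P.c s) ≤ |P.T i - (s - k * P.L)| := by
        rw [← (g1 P).c_T i, ← c_per_int' (g1 P) k s]
        exact (M.le_dist _ ((g2 P).c_mem _) _ ((g2 P).c_mem _)).trans ((g1 P).c_lip _ _)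
      have a3 : |2 * s - P.T i - P.T j| = 2 * |P.T i - (s - k * P.L)| := by
        rw [hj, hk, ← abs_neg, ← abs_of_pos (show (0:ℝ) < 2 by norm_num), ← abs_mul,
          abs_of_pos (show (0:ℝ) < 2 by norm_num)]
        congr 1; push_cast; ring
      rw [a3]; linarith
    · have a1 := h3 i
      have a2 : P.gdist s (P.v i) (P.c (s + P.L / 2)) ≤ |P.T i - (s + P.L / 2 - (k + 1 : ℤ) * P.L)| := by
        rw [← (g1 P).c_T i, ← c_per_int' (g1 P) (k + 1) (s + P.L / 2)]
        exact (M.le_dist _ ((g2 P).c_mem _) _ ((g2 P).c_mem _)).trans ((g1 P).c_lip _ _)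
      have a3 : |2 * s - P.T i - P.T j| = 2 * |P.T i - (s + P.L / 2 - (k + 1 : ℤ) * P.L)| := by
        rw [hj, hk, ← abs_neg, ← abs_of_pos (show (0:ℝ) < 2 by norm_num), ← abs_mul,
          abs_of_pos (show (0:ℝ) < 2 by norm_num)]
        congr 1; push_cast; ring
      rw [a3]; linarith
  · have a1 := h1 i j hd
    have a2 := M.link (P.T i - s)
    rw [show s + (P.T i - s) = P.T i by ring, show s - (P.T i - s) = 2 * s - P.T i by ring,
      (g1 P).c_T] at a2
    have a3 := M.triangle (P.v i) ((g2 P).v_mem i) (P.c (2 * s - P.T i)) ((g2 P).c_mem _)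
      (P.v j) ((g2 P).v_mem j)
    have a4 : P.gdist s (P.c (2 * s - P.T i)) (P.v j) ≤ |2 * s - P.T i - P.T j| := by
      rw [← (g1 P).c_T j]
      exact (M.le_dist _ ((g2 P).c_mem _) _ ((g2 P).c_mem _)).trans ((g1 P).c_lip _ _)
    linarith

/-- uniform lower bound of the distance to a corner -/
theorem unif (g1 : ∀ P, Geo1 P) (g2 : ∀ P, Geo2 P) (P : Polygon) (δ : ℝ) (hδ : 0 < δ) :
    ∃ ρ > 0, ∀ s, (∀ i j, δ ≤ |2 * s - P.T i - P.T j|) → ∀ i, ∀ p ∈ P.body,
      min ρ (min (dist p (P.v i)) (dist p (P.c (2 * s - P.T i)))) ≤ P.gdist s p (P.v i) ∧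
      (dist p (P.v i) ≤ ρ / 2 → P.gdist s p (P.v i) = dist p (P.v i)) := by
  obtain ⟨m, hm, hlen⟩ : ∃ m > 0, ∀ i, m ≤ P.len i := by
    have hne : (Finset.range P.n).Nonempty := by
      rw [Finset.nonempty_range_iff]; have := P.hn; omega
    obtain ⟨j, hj, hmin⟩ := Finset.exists_min_image (Finset.range P.n) (fun j : ℕ => P.len j) hne
    refine ⟨P.len j, (g1 P).lenpos _, fun i => ?_⟩
    obtain ⟨i', k, hi', rfl⟩ := red P i
    have : P.len (i' + k * P.n) = P.len i' := by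
      unfold Polygon.len
      rw [v_int, show (i' : ℤ) + k * P.n + 1 = (i' + 1) + k * P.n by ring, v_int]
    rw [this]
    exact hmin i' (by simpa using hi')
  obtain ⟨r, hr, e1, e2⟩ : ∃ r > 0, r ≤ m ∧ 2 * r ≤ δ :=
    ⟨min m (δ / 2), by positivity, min_le_left _ _, by linarith [min_le_right m (δ / 2)]⟩
  obtain ⟨ρ0, hρ0, hch0⟩ := chord g1 g2 P r hr
  obtain ⟨ρ, hρ, hρr, hch⟩ : ∃ ρ > 0, ρ ≤ r ∧
      ∀ a b, (∀ k : ℤ, r ≤ |a - b - k * P.L|) → ρ ≤ dist (P.c a) (P.c b) :=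
    ⟨min ρ0 r, lt_min hρ0 hr, min_le_right _ _, fun a b hab =>
      (min_le_left _ _).trans (hch0 a b hab)⟩
  refine ⟨ρ, hρ, fun s hs i p hp => ?_⟩
  have hm' := (g1 P).T_mono
  have hgap : ∀ i j : ℤ, i < j → P.T i + m ≤ P.T j := by
    intro i j hij
    have h1 : P.T (i + 1) ≤ P.T j := hm'.monotone (by omega)
    have h2 := (g1 P).T_succ i
    have h3 := hlen i
    linarith
  have hsep : ∀ k : ℤ, 2 * r ≤ |2 * s - 2 * P.T i - k * P.L| := by
    intro k
    have := hs i (i + k * P.n)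
    rw [T_int (g1 P), show 2 * s - P.T i - (P.T i + k * P.L) = 2 * s - 2 * P.T i - k * P.L by
      ring] at this
    linarith
  have hC := (cal g1 g2 P s (P.T i) r ρ hr hρ hρr (fun j => by
    refine ⟨?_, ?_, ?_, ?_⟩
    · rintro ⟨a, b⟩
      have := hgap j i (hm'.lt_iff_lt.1 b)
      linarith
    · rintro ⟨a, b⟩
      have := hgap i j (hm'.lt_iff_lt.1 a)
      linarith
    · rintro ⟨a, b⟩
      have := hs i j
      rw [abs_of_pos (by linarith)] at this
      linarith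
    · rintro ⟨a, b⟩
      have := hs i j
      rw [abs_of_neg (by linarith)] at this
      linarith) (Or.inl hsep) hch).2 p hp (P.v i) ((g2 P).v_mem i)
  rw [(g1 P).c_T, dist_self, min_eq_left (dist_nonneg (x := P.v i)), min_eq_right hρ.le,
    sub_zero] at hC
  have h0 := (le_abs_self _).trans hC
  refine ⟨h0, fun hd => le_antisymm ((met g1 g2 P s).le_dist _ hp _ ((g2 P).v_mem i)) ?_⟩
  refine le_trans (le_min (by linarith) (le_min le_rfl ?_)) h0
  have h1 : ρ ≤ dist (P.v i) (P.c (2 * s - P.T i)) := by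
    rw [← (g1 P).c_T i]
    refine hch _ _ (fun k => ?_)
    rw [show P.T i - (2 * s - P.T i) - k * P.L =
      -(2 * s - 2 * P.T i - ((-k : ℤ) : ℝ) * P.L) by push_cast; ring, abs_neg]
    linarith [hsep (-k)]
  have h2 := dist_triangle (P.v i) p (P.c (2 * s - P.T i))
  rw [dist_comm (P.v i) p] at h2
  linarith

theorem core (g1 : ∀ P, Geo1 P) (g2 : ∀ P, Geo2 P) (nb1 : St_NB1) (nb2 : St_NB2) (rig : St_RIG)
    (net : St_NET) (P : Polygon) (s0 : ℝ) (A : Set ℝ) (hA : A.Infinite)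
    (hA0 : ∀ s ∈ A, ∀ s' ∈ A, |s - s'| < P.L / 2) (h : ℝ → E2 → E2)
    (hi : ∀ s ∈ A, IsoMap P s s0 (h s)) : False := by
  have M := met g1 g2 P
  have hL := (g1 P).Lpos
  -- generic positions
  set B := {s ∈ A | Gen P s} with hB
  have hBi : B.Infinite := by
    have h1 : {s ∈ A | ¬ Gen P s}.Finite := by
      obtain ⟨a, ha⟩ := hA.nonempty
      have h2 : {s ∈ A | ¬ Gen P s} ⊆ (fun x : ℤ × ℤ => (P.T x.1 + P.T x.2) / 2) ''
          {x : ℤ × ℤ | x.1 ∈ Set.Ico (0 : ℤ) P.n ∧ |(P.T x.1 + P.T x.2) / 2 - a| < P.L / 2} := by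
        rintro s ⟨hs, hg⟩
        unfold Gen at hg
        push Not at hg
        obtain ⟨i, j, hij⟩ := hg
        obtain ⟨i', k, hi', rfl⟩ := red P i
        have hi'' : ((i' : ℕ) : ℤ) < P.n := by exact_mod_cast hi'
        refine ⟨((i' : ℤ), j + k * P.n), ⟨⟨by positivity, hi''⟩, ?_⟩, ?_⟩
        · show |(P.T i' + P.T (j + k * P.n)) / 2 - a| < P.L / 2
          rw [T_int (g1 P)] at hij ⊢
          rw [show (P.T i' + (P.T j + k * P.L)) / 2 = s by linarith]
          exact hA0 s hs a ha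
        · show (P.T i' + P.T (j + k * P.n)) / 2 = s
          rw [T_int (g1 P)] at hij ⊢
          linarith
      refine Finite.subset (Finite.image _ ?_) h2
      obtain ⟨K, hK⟩ := exists_nat_gt ((2 * |a| + 2 * P.L + 2 * |P.T 0|) / P.L + 1)
      have hK' : 2 * |a| + 2 * P.L + 2 * |P.T 0| < (K - 1) * P.L := by
        rw [← div_lt_iff₀ hL]; linarith
      refine Finite.subset ((finite_Ico (0 : ℤ) P.n).prod
        (finite_Icc (-(K : ℤ) * P.n) (K * P.n))) ?_
      rintro ⟨x, y⟩ ⟨hx, hy⟩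
      refine ⟨hx, ?_⟩
      have hmono := (g1 P).T_mono
      have t1 : P.T 0 ≤ P.T x := hmono.monotone hx.1
      have t2 : P.T x ≤ P.T 0 + P.L := by
        have := (g1 P).T_per 0
        rw [← this]
        exact hmono.monotone (by have := hx.2; omega)
      have hy' : |(P.T x + P.T y) / 2 - a| < P.L / 2 := hy
      rw [abs_lt] at hy'
      have b1 := abs_le.1 (le_refl |a|)
      have b2 := abs_le.1 (le_refl |P.T 0|)
      have t3 := T_int (g1 P) 0 K
      have t4 := T_int (g1 P) 0 (-K)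
      push_cast at t3 t4
      rw [zero_add] at t3 t4
      constructor
      · show -(K : ℤ) * P.n ≤ y
        refine (hmono.le_iff_le).1 ?_
        rw [t4]
        nlinarith
      · show y ≤ (K : ℤ) * P.n
        refine (hmono.le_iff_le).1 ?_
        rw [t3]
        nlinarith
    intro hf
    refine hA ((hf.union h1).subset (fun s hs => ?_))
    by_cases hg : Gen P s
    · exact Or.inl ⟨hs, hg⟩
    · exact Or.inr ⟨hs, hg⟩
  have hBA : B ⊆ A := fun s hs => hs.1
  have hv : ∀ i, P.v i ∈ P.body := (g2 P).v_mem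
  have hc : ∀ τ, P.c τ ∈ P.body := (g2 P).c_mem
  -- special points go to special points
  have hsp1 : ∀ s ∈ B, ∀ i, h s (P.v i) ∈ Spec P s0 := fun s hs i =>
    spec_of_not g1 g2 P s0 _ ((hi s hs.1).maps (hv i)) (fun hb =>
      nb1 P s i (fun j => hs.2 i j) (iso_between (fun P s => met g1 g2 P s) (g2 P) (hi s hs.1)
        (hv i) hb))
  have hne1 : ∀ s ∈ B, ∀ j, s ≠ P.T j := fun s hs j hj => hs.2 j j (by rw [hj]; ring)
  have hne2 : ∀ s ∈ B, ∀ j, s + P.L / 2 ≠ P.T j := fun s hs j hj =>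
    hs.2 j (j + (-1) * P.n) (by rw [T_int (g1 P), ← hj]; push_cast; ring)
  have hsp2 : ∀ s ∈ B, h s (P.c s) ∈ Spec P s0 := fun s hs =>
    spec_of_not g1 g2 P s0 _ ((hi s hs.1).maps (hc s)) (fun hb =>
      nb2 P s s (hne1 s hs) ⟨0, by push_cast; ring⟩ (iso_between (fun P s => met g1 g2 P s) (g2 P)
        (hi s hs.1) (hc s) hb))
  have hsp3 : ∀ s ∈ B, h s (P.c (s + P.L / 2)) ∈ Spec P s0 := fun s hs =>
    spec_of_not g1 g2 P s0 _ ((hi s hs.1).maps (hc _)) (fun hb =>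
      nb2 P s (s + P.L / 2) (hne2 s hs) ⟨-1, by push_cast; ring⟩
        (iso_between (fun P s => met g1 g2 P s) (g2 P) (hi s hs.1) (hc _) hb))
  -- least positive distance of special points
  obtain ⟨δ, hδ, hδm⟩ : ∃ δ > 0, ∀ a ∈ Spec P s0, ∀ b ∈ Spec P s0, 0 < P.gdist s0 a b →
      δ ≤ P.gdist s0 a b := by
    have hf : ((fun x : E2 × E2 => P.gdist s0 x.1 x.2) '' (Spec P s0 ×ˢ Spec P s0) ∩
        Ioi 0).Finite := (((spec_finite (g1 P) s0).prod (spec_finite (g1 P) s0)).image _).inter_of_left _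
    rcases ((fun x : E2 × E2 => P.gdist s0 x.1 x.2) '' (Spec P s0 ×ˢ Spec P s0) ∩
        Ioi 0).eq_empty_or_nonempty with he | hne
    · refine ⟨1, one_pos, fun a ha b hb hab => ?_⟩
      have : P.gdist s0 a b ∈ ((fun x : E2 × E2 => P.gdist s0 x.1 x.2) ''
        (Spec P s0 ×ˢ Spec P s0) ∩ Ioi 0) := ⟨⟨(a, b), ⟨ha, hb⟩, rfl⟩, hab⟩
      rw [he] at this
      exact absurd this (notMem_empty _)
    · obtain ⟨δ, hδ, hmin⟩ := hf.exists_minimal hne
      refine ⟨δ, hδ.2, fun a ha b hb hab => ?_⟩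
      by_contra hlt
      rw [not_le] at hlt
      exact absurd (hmin (y := P.gdist s0 a b) ⟨⟨(a, b), ⟨ha, hb⟩, rfl⟩, hab⟩ hlt.le)
        (not_le.2 hlt)
  have hsep : ∀ s ∈ B, ∀ i j, δ ≤ |2 * s - P.T i - P.T j| := by
    intro s hs
    have key : ∀ i, ∀ w ∈ P.body, h s w ∈ Spec P s0 → w ≠ P.v i → w ≠ P.c (2 * s - P.T i) →
        δ ≤ P.gdist s (P.v i) w := by
      intro i w hw hws h1 h2
      have hp := pos_special g1 g2 P s hs.2 i w hw h1 h2
      rw [← (hi s hs.1).iso _ (hv i) _ hw] at hp ⊢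
      exact hδm _ (hsp1 s hs i) _ hws hp
    refine sep_bound g1 g2 P s δ ?_ ?_ ?_ hδ
    · intro i j hij
      refine key i _ (hv j) (hsp1 s hs j) ?_ ?_
      · intro he
        rw [← (g1 P).c_T, ← (g1 P).c_T] at he
        obtain ⟨k, hk⟩ := (g2 P).inj _ _ he
        rw [← T_int (g1 P)] at hk
        have := (g1 P).T_mono.injective hk
        exact hij ⟨-k, by rw [this]; ring⟩
      · intro he
        rw [← (g1 P).c_T] at he
        obtain ⟨k, hk⟩ := (g2 P).inj _ _ he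
        rw [← T_int (g1 P)] at hk
        exact hs.2 _ _ hk
    · intro i
      refine key i _ (hc s) (hsp2 s hs) ?_ ?_
      · intro he
        rw [← (g1 P).c_T] at he
        obtain ⟨k, hk⟩ := (g2 P).inj _ _ he
        refine hne1 s hs (i + (-k) * P.n) ?_
        rw [T_int (g1 P)]; push_cast; linarith
      · intro he
        obtain ⟨k, hk⟩ := (g2 P).inj _ _ he
        refine hne1 s hs (i + k * P.n) ?_
        rw [T_int (g1 P)]; linarith
    · intro i
      refine key i _ (hc _) (hsp3 s hs) ?_ ?_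
      · intro he
        rw [← (g1 P).c_T] at he
        obtain ⟨k, hk⟩ := (g2 P).inj _ _ he
        refine hne2 s hs (i + (-k) * P.n) ?_
        rw [T_int (g1 P)]; push_cast; linarith
      · intro he
        obtain ⟨k, hk⟩ := (g2 P).inj _ _ he
        refine hne2 s hs (i + (k + 1) * P.n) ?_
        rw [T_int (g1 P)]; push_cast; linarith
  obtain ⟨ρ, hρ, hun⟩ := unif g1 g2 P δ hδ
  -- pigeonhole
  obtain ⟨C, hCB, hCi, hCv⟩ : ∃ C ⊆ B, C.Infinite ∧ ∀ s ∈ C, ∀ s' ∈ C, ∀ i,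
      h s (P.v i) = h s' (P.v i) := by
    have : Infinite B := hBi.to_subtype
    have : Finite (Spec P s0) := (spec_finite (g1 P) s0).to_subtype
    obtain ⟨y, hy⟩ := Finite.exists_infinite_fiber
      (fun (s : B) (i : Fin P.n) => (⟨h s (P.v (i : ℕ)), hsp1 s s.2 _⟩ : Spec P s0))
    refine ⟨Subtype.val '' ((fun (s : B) (i : Fin P.n) =>
      (⟨h s (P.v (i : ℕ)), hsp1 s s.2 _⟩ : Spec P s0)) ⁻¹' {y}), ?_, ?_, ?_⟩
    · rintro _ ⟨s, -, rfl⟩
      exact s.2
    · exact (infinite_coe_iff.1 hy).image Subtype.val_injective.injOn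
    · rintro _ ⟨s, hs, rfl⟩ _ ⟨s', hs', rfl⟩ i
      obtain ⟨j, k, hj, rfl⟩ := red P i
      rw [v_int]
      have e : (fun (i : Fin P.n) => (⟨h s (P.v (i : ℕ)), hsp1 s s.2 _⟩ : Spec P s0)) =
        fun (i : Fin P.n) => (⟨h s' (P.v (i : ℕ)), hsp1 s' s'.2 _⟩ : Spec P s0) :=
        (mem_singleton_iff.1 hs).trans (mem_singleton_iff.1 hs').symm
      exact congrArg Subtype.val (congrFun e ⟨j, hj⟩)
  obtain ⟨ε, hε, hrig⟩ := rig P (ρ / 2) (by positivity)
  obtain ⟨s, hs, s', hs', hss, hclose⟩ := net P s0 C h ε hCi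
    (fun s hs => hi s (hBA (hCB hs))) hε
  have hall := hrig s s' s0 (h s) (h s') (hi s (hBA (hCB hs))) (hi s' (hBA (hCB hs')))
    (fun i => by
      rw [hCv s hs s' hs' i]
      have hm := (hi s' (hBA (hCB hs'))).maps (hv i)
      have := (M s0).le_dist _ hm _ hm
      rw [dist_self] at this
      exact le_antisymm this ((M s0).nonneg _ _))
    (fun i p hp hd => ⟨(hun s (hsep s (hCB hs)) i p hp).2 hd,
      (hun s' (hsep s' (hCB hs')) i p hp).2 hd⟩) hclose
  -- the gluings coincide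
  have his := hi s (hBA (hCB hs))
  have his' := hi s' (hBA (hCB hs'))
  have e1 := (M s).link (P.T 0 - s)
  rw [show s + (P.T 0 - s) = P.T 0 by ring, show s - (P.T 0 - s) = 2 * s - P.T 0 by ring,
    (g1 P).c_T] at e1
  have e2 : P.gdist s' (P.c (2 * s - P.T 0)) (P.v 0) ≤ 0 := by
    rw [← his'.iso _ (hc _) _ (hv 0)]
    have m1 := his'.maps (hc (2 * s - P.T 0))
    have m2 := his'.maps (hv 0)
    have m3 := his.maps (hc (2 * s - P.T 0))
    have m4 := his.maps (hv 0)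
    have a1 := (M s0).triangle _ m1 _ m3 _ m2
    have a2 := (M s0).triangle _ m3 _ m4 _ m2
    have a3 := hall _ (hc (2 * s - P.T 0))
    have a4 := hall _ (hv 0)
    have a5 := his.iso _ (hc (2 * s - P.T 0)) _ (hv 0)
    rw [(M s0).symm] at a3
    rw [(M s).symm] at e1
    linarith
  have e3 := (hun s' (hsep s' (hCB hs')) 0 (P.c (2 * s - P.T 0)) (hc _)).1.trans e2
  rcases min_le_iff.1 e3 with e3 | e3
  · linarith
  rcases min_le_iff.1 e3 with e3 | e3
  · have e4 := dist_le_zero.1 e3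
    rw [← (g1 P).c_T] at e4
    obtain ⟨k, hk⟩ := (g2 P).inj _ _ e4
    refine (hCB hs).2 0 (0 + (-k) * P.n) ?_
    rw [T_int (g1 P)]; push_cast; linarith
  · have e4 := dist_le_zero.1 e3
    obtain ⟨k, hk⟩ := (g2 P).inj _ _ e4
    have h5 := hA0 s (hBA (hCB hs)) s' (hBA (hCB hs'))
    have h6 : s' - s = k * P.L / 2 := by linarith
    have h7 : |(k : ℝ)| < 1 := by
      rw [abs_sub_comm, h6, abs_div, abs_mul, abs_of_pos hL, abs_of_pos (show (0:ℝ) < 2 by norm_num)] at h5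
      rw [div_lt_div_iff_of_pos_right (by norm_num)] at h5
      nlinarith
    have h8 : k = 0 := by
      have : |k| < 1 := by exact_mod_cast h7
      exact Int.abs_lt_one_iff.1 this
    rw [h8] at h6
    apply hss
    push_cast at h6
    linarith

end R984.PH
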