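import Mathlib

/-!
# Perimeter-halving foldings of a convex polygon

Definitions for MP_d67387_co.  A convex polygon is given by its corners in
counterclockwise order; the gluing at the boundary point of arc-length
position `s` identifies the boundary points at positions `s + d` and `s - d`;
the glued surface carries the quotient (chain) metric.
-/

namespace R984.PH

open Set

abbrev E2 := EuclideanSpace ℝ (Fin 2)
abbrev E3 := EuclideanSpace ℝ (Fin 3)

/-- The oriented area form of the plane. -/
def cr (a b : E2) : ℝ := a 0 * b 1 - a 1 * b 0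

/-- A convex polygon: `n ≥ 3` corners `v i`, listed counterclockwise, indexed by `ℤ` with
period `n`; every corner other than `v i`, `v (i+1)` lies strictly to the left of the
directed line from `v i` to `v (i+1)`. -/
structure Polygon where
  n : ℕ
  hn : 3 ≤ n
  v : ℤ → E2
  per : ∀ i : ℤ, v (i + n) = v i
  left : ∀ i j : ℤ, ¬ ((n : ℤ) ∣ j - i) → ¬ ((n : ℤ) ∣ j - (i + 1)) →
    0 < cr (v (i + 1) - v i) (v j - v i)

namespace Polygon

variable (P : Polygon)

/-- The polygon as a subset of the plane. -/
def body : Set E2 := convexHull ℝ (range P.v)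

/-- Length of the edge from `v i` to `v (i+1)`. -/
noncomputable def len (i : ℤ) : ℝ := dist (P.v i) (P.v (i + 1))

/-- Perimeter. -/
noncomputable def L : ℝ := ∑ j ∈ Finset.Ico (0 : ℤ) P.n, P.len j

/-- Arc-length position of the corner `v i`, counted counterclockwise from `v 0`
(not reduced modulo the perimeter). -/
noncomputable def T (i : ℤ) : ℝ :=
  ∑ j ∈ Finset.Ico (0 : ℤ) i, P.len j - ∑ j ∈ Finset.Ico i (0 : ℤ), P.len j

/-- `p` is the boundary point at arc-length position `τ`. -/
def At (p : E2) (τ : ℝ) : Prop :=
  ∃ (i : ℤ) (t : ℝ), 0 ≤ t ∧ t ≤ 1 ∧ p = P.v i + t • (P.v (i + 1) - P.v i) ∧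
    τ = P.T i + t * P.len i

/-- The gluing at the boundary point of position `s`: for `0 < d < L/2` the points at arc
length `d` on the two sides of it are identified. -/
def Glued (s : ℝ) (p q : E2) : Prop :=
  ∃ d : ℝ, 0 < d ∧ d < P.L / 2 ∧
    ((P.At p (s + d) ∧ P.At q (s - d)) ∨ (P.At q (s + d) ∧ P.At p (s - d)))

/-- Chains of straight segments inside the polygon, joined by identified points, and their
total length. -/
inductive Chain (s : ℝ) : E2 → E2 → ℝ → Prop
  | seg {p q : E2} : p ∈ P.body → q ∈ P.body → Chain s p q (dist p q)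
  | cons {p q q' r : E2} {l : ℝ} : p ∈ P.body → q ∈ P.body → P.Glued s q q' →
      Chain s q' r l → Chain s p r (dist p q + l)

/-- The distance of the glued surface (a pseudo-distance on the polygon, zero exactly for
identified points). -/
noncomputable def gdist (s : ℝ) (p q : E2) : ℝ := sInf {l | P.Chain s p q l}

/-- Boundary parametrisation by arc length (auxiliary). -/
noncomputable def c (τ : ℝ) : E2 := by
  classical
  exact if h : ∃ p, P.At p τ then h.choose else 0

/-- The glued surface for `s` is isometric to the metric space with point set `M` and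
distance `d` (points at distance zero being regarded as equal). -/
def SurfaceIso {α : Type*} (s : ℝ) (M : Set α) (d : α → α → ENNReal) : Prop :=
  ∃ f : E2 → α, MapsTo f P.body M ∧ (∀ y ∈ M, ∃ p ∈ P.body, d (f p) y = 0) ∧
    ∀ p ∈ P.body, ∀ q ∈ P.body, d (f p) (f q) = ENNReal.ofReal (P.gdist s p q)

/-- The glued surfaces for `s` and `s0` are isometric. -/
def Iso (s s0 : ℝ) : Prop :=
  ∃ h : E2 → E2, MapsTo h P.body P.body ∧ (∀ y ∈ P.body, ∃ p ∈ P.body, P.gdist s0 (h p) y = 0) ∧
    ∀ p ∈ P.body, ∀ q ∈ P.body, P.gdist s0 (h p) (h q) = P.gdist s p q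

end Polygon

/-- Convex polyhedra in space, flat convex polygons included. -/
def IsPolyhedron (Q : Set E3) : Prop :=
  ∃ F : Finset E3, Q = convexHull ℝ (F : Set E3) ∧ ¬ Collinear ℝ (F : Set E3)

/-- Intrinsic distance on the boundary surface of a set with interior points: the infimum of
the lengths of the paths in the boundary. -/
noncomputable def bdDist (Q : Set E3) (p q : E3) : ENNReal :=
  ⨅ (g : ℝ → E3) (_ : ContinuousOn g (Icc 0 1) ∧ g 0 = p ∧ g 1 = q ∧
    ∀ t ∈ Icc (0 : ℝ) 1, g t ∈ frontier Q), eVariationOn g (Icc 0 1)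

/-- Intrinsic distance on the doubly covered flat polygon: the points are `(p, side)`; a
path changes sides at a point of the relative boundary. -/
noncomputable def doubleDist (Q : Set E3) (p q : E3 × Bool) : ENNReal :=
  if p.2 = q.2 then edist p.1 q.1
  else ⨅ r ∈ intrinsicFrontier ℝ Q, edist p.1 r + edist r q.1

/-- The polygon with the gluing at position `s` folds to the (possibly degenerate) convex
polyhedron `Q`: the glued surface is intrinsically isometric to the surface of `Q`. -/
def Folds (P : Polygon) (s : ℝ) (Q : Set E3) : Prop :=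
  ((interior Q).Nonempty ∧ P.SurfaceIso s (frontier Q) (bdDist Q)) ∨
  (interior Q = ∅ ∧ P.SurfaceIso s (Q ×ˢ (univ : Set Bool)) (doubleDist Q))

/-- The perimeter-halving gluing at the boundary point `x` folds to `Q`, that is `Q = Q_x`. -/
def FoldsTo (P : Polygon) (x : E2) (Q : Set E3) : Prop := ∃ s : ℝ, P.At x s ∧ Folds P s Q

/-- `y` is the boundary point at half the perimeter from `x`. -/
def Antipodal (P : Polygon) (x y : E2) : Prop := ∃ s : ℝ, P.At x s ∧ P.At y (s + P.L / 2)

/-- Congruence of subsets of space. -/
def Congruent (Q R : Set E3) : Prop := ∃ g : E3 ≃ᵢ E3, g '' Q = R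

end R984.PH
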