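import Pool.Agent.R984.PH.Core

/-! The finiteness theorem from its pieces. -/

namespace R984.PH

open Set

theorem glued_shift {P : Polygon} (g1 : Geo1 P) (s : ℝ) (k : ℤ) (p q : E2) :
    P.Glued (s + k * P.L) p q ↔ P.Glued s p q := by
  have key : ∀ (p : E2) (d : ℝ), P.At p (s + k * P.L + d) ↔ P.At p (s + d) := by
    intro p d
    rw [g1.at_iff, g1.at_iff, show s + k * P.L + d = s + d + k * P.L by ring, c_per_int g1]
  have key2 : ∀ (p : E2) (d : ℝ), P.At p (s + k * P.L - d) ↔ P.At p (s - d) := by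
    intro p d
    have := key p (-d)
    rwa [← sub_eq_add_neg, ← sub_eq_add_neg] at this
  unfold Polygon.Glued
  simp only [key, key2]

theorem chain_shift {P : Polygon} {s s' : ℝ} (h : ∀ p q, P.Glued s p q → P.Glued s' p q)
    {p q : E2} {l : ℝ} (hc : P.Chain s p q l) : P.Chain s' p q l := by
  induction hc with
  | seg a b => exact .seg a b
  | cons a b c _ ih => exact .cons a b (h _ _ c) ih

theorem gdist_shift {P : Polygon} (g1 : Geo1 P) (s : ℝ) (k : ℤ) (p q : E2) :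
    P.gdist (s + k * P.L) p q = P.gdist s p q := by
  unfold Polygon.gdist
  congr 1
  ext l
  exact ⟨fun h => chain_shift (fun p q => (glued_shift g1 s k p q).1) h,
    fun h => chain_shift (fun p q => (glued_shift g1 s k p q).2) h⟩

theorem congr_symm {Q R : Set E3} (h : Congruent Q R) : Congruent R Q := by
  obtain ⟨g, rfl⟩ := h
  refine ⟨g.symm, ?_⟩
  rw [← image_comp]
  simp

theorem congr_trans {Q R S : Set E3} (h : Congruent Q R) (h' : Congruent R S) :
    Congruent Q S := by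
  obtain ⟨g, rfl⟩ := h
  obtain ⟨g', rfl⟩ := h'
  exact ⟨g.trans g', by rw [← image_comp]; rfl⟩

theorem fin_main (g1 : ∀ P, Geo1 P) (g2 : ∀ P, Geo2 P) (nb1 : St_NB1) (nb2 : St_NB2)
    (rig : St_RIG) (net : St_NET) (sur : St_SUR) (P : Polygon) (Q : Set E3) :
    {x : E2 | ∃ R : Set E3, Congruent Q R ∧ FoldsTo P x R}.Finite := by
  classical
  have hL := (g1 P).Lpos
  by_contra hinf
  have hinf : {x : E2 | ∃ R : Set E3, Congruent Q R ∧ FoldsTo P x R}.Infinite := hinf
  obtain ⟨x0, R0, hR0, s0, -, hF0⟩ := hinf.nonempty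
  set A : Set ℝ := {s | s ∈ Ico 0 P.L ∧ ∃ h, IsoMap P s s0 h} with hA
  have hAi : A.Infinite := by
    intro hf
    refine hinf ((hf.image P.c).subset ?_)
    rintro x ⟨R, hR, s, hs, hF⟩
    obtain ⟨h, hh⟩ := sur P s s0 R R0 (congr_trans (congr_symm hR) hR0) hF hF0
    obtain ⟨k, ⟨h1, h2⟩, -⟩ := existsUnique_sub_zsmul_mem_Ico hL s 0
    rw [zsmul_eq_mul] at h1 h2
    refine ⟨s - k * P.L, ⟨⟨h1, by linarith⟩, h, ?_⟩, ?_⟩
    · refine ⟨hh.maps, hh.surj, fun p hp q hq => ?_⟩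
      rw [hh.iso p hp q hq, ← gdist_shift (g1 P) (s - k * P.L) k, sub_add_cancel]
    · rw [c_per_int' (g1 P)]
      exact ((g1 P).at_iff _ _).1 hs |>.symm
  have hcore : ∀ B ⊆ A, B.Infinite → (∀ s ∈ B, ∀ s' ∈ B, |s - s'| < P.L / 2) → False := by
    intro B hB hBi hB0
    refine core g1 g2 nb1 nb2 rig net P s0 B hBi hB0
      (fun s => if h : ∃ h, IsoMap P s s0 h then h.choose else id) (fun s hs => ?_)
    have hex := (hB hs).2
    simp only [hex, dite_true]
    exact hex.choose_spec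
  have hsplit : A ⊆ (A ∩ Ico 0 (P.L / 2)) ∪ (A ∩ Ico (P.L / 2) P.L) := by
    rintro s ⟨hs, h⟩
    rcases lt_or_ge s (P.L / 2) with h1 | h1
    · exact Or.inl ⟨⟨hs, h⟩, hs.1, h1⟩
    · exact Or.inr ⟨⟨hs, h⟩, h1, hs.2⟩
  rcases Set.infinite_union.1 (hAi.mono hsplit) with h | h
  · refine hcore _ inter_subset_left h ?_
    rintro s ⟨-, a, b⟩ s' ⟨-, a', b'⟩
    rw [abs_lt]; constructor <;> linarith
  · refine hcore _ inter_subset_left h ?_
    rintro s ⟨-, a, b⟩ s' ⟨-, a', b'⟩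
    rw [abs_lt]; constructor <;> linarith

end R984.PH
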