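import Pool.Agent.R984.PH.Stm

/-! GEO1: the arc-length parametrisation of a convex polygon. -/

set_option autoImplicit false

namespace R984.PH

open Set

namespace G1

variable (P : Polygon)

theorem cr_zero (a : E2) : cr 0 a = 0 := by simp [cr]

theorem lenpos (i : ℤ) : 0 < P.len i := by
  unfold Polygon.len
  rw [dist_pos]
  intro h
  have hn := P.hn
  have h1 := P.left i (i + 2) (fun hd => by
    have := Int.le_of_dvd (by omega) hd
    omega) (fun hd => by
    have := Int.le_of_dvd (by omega) hd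
    omega)
  rw [← h, sub_self, cr_zero] at h1
  exact lt_irrefl _ h1

theorem Lpos : 0 < P.L := by
  unfold Polygon.L
  refine Finset.sum_pos (fun i _ => lenpos P i) ⟨0, ?_⟩
  have := P.hn
  rw [Finset.mem_Ico]
  omega

theorem T_succ (i : ℤ) : P.T (i + 1) = P.T i + P.len i := by
  unfold Polygon.T
  rcases le_or_gt 0 i with h | h
  · have h1 : Finset.Ico (0 : ℤ) (i + 1) = insert i (Finset.Ico 0 i) := by
      ext x; simp only [Finset.mem_Ico, Finset.mem_insert]; omega
    have h2 : Finset.Ico (i + 1) (0 : ℤ) = ∅ := Finset.Ico_eq_empty (by omega)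
    have h3 : Finset.Ico i (0 : ℤ) = ∅ := Finset.Ico_eq_empty (by omega)
    rw [h1, h2, h3, Finset.sum_insert (by simp)]
    simp only [Finset.sum_empty]
    ring
  · have h1 : Finset.Ico i (0 : ℤ) = insert i (Finset.Ico (i + 1) 0) := by
      ext x; simp only [Finset.mem_Ico, Finset.mem_insert]; omega
    have h2 : Finset.Ico (0 : ℤ) (i + 1) = ∅ := Finset.Ico_eq_empty (by omega)
    have h3 : Finset.Ico (0 : ℤ) i = ∅ := Finset.Ico_eq_empty (by omega)
    rw [h1, h2, h3, Finset.sum_insert (by simp)]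
    simp only [Finset.sum_empty]
    ring

theorem len_per (i : ℤ) : P.len (i + P.n) = P.len i := by
  unfold Polygon.len
  rw [P.per i, show i + (P.n : ℤ) + 1 = (i + 1) + P.n by ring, P.per (i + 1)]

theorem T_per (i : ℤ) : P.T (i + P.n) = P.T i + P.L := by
  induction i using Int.induction_on with
  | zero =>
    have h0 : P.T 0 = 0 := by simp [Polygon.T]
    have h1 : Finset.Ico (P.n : ℤ) 0 = ∅ := Finset.Ico_eq_empty (by omega)
    rw [h0, zero_add, zero_add, Polygon.T, Polygon.L, h1, Finset.sum_empty, sub_zero]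
  | succ i ih =>
    rw [show (i : ℤ) + 1 + (P.n : ℤ) = (i + P.n) + 1 by ring, T_succ, ih, T_succ, len_per]
    ring
  | pred i ih =>
    have h1 := T_succ P (-(i : ℤ) - 1 + P.n)
    have h2 := T_succ P (-(i : ℤ) - 1)
    rw [show -(i : ℤ) - 1 + (P.n : ℤ) + 1 = -(i : ℤ) + P.n by ring, ih, len_per] at h1
    rw [show -(i : ℤ) - 1 + 1 = -(i : ℤ) by ring] at h2
    linarith

theorem T_per' (i : ℤ) (k : ℤ) : P.T (i + k * P.n) = P.T i + k * P.L := by
  induction k using Int.induction_on with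
  | zero => simp
  | succ k ih =>
    rw [show i + ((k : ℤ) + 1) * (P.n : ℤ) = (i + k * P.n) + P.n by ring, T_per, ih]
    push_cast; ring
  | pred k ih =>
    have h1 := T_per P (i + (-(k : ℤ) - 1) * P.n)
    rw [show i + (-(k : ℤ) - 1) * (P.n : ℤ) + P.n = i + -(k : ℤ) * P.n by ring, ih] at h1
    push_cast at h1 ⊢
    linarith

theorem T_mono : StrictMono P.T :=
  strictMono_int_of_lt_succ fun i => by
    rw [T_succ]
    have := lenpos P i
    linarith

theorem cover (τ : ℝ) : ∃ i, P.T i ≤ τ ∧ τ < P.T (i + 1) := by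
  have hL := Lpos P
  have hT0 : P.T 0 = 0 := by simp [Polygon.T]
  have hTk : ∀ k : ℤ, P.T (k * P.n) = k * P.L := fun k => by
    have := T_per' P 0 k
    rwa [zero_add, hT0, zero_add] at this
  obtain ⟨k, hk⟩ := exists_int_gt (τ / P.L)
  obtain ⟨m, hm⟩ := exists_int_lt (τ / P.L)
  rw [div_lt_iff₀ hL] at hk
  rw [lt_div_iff₀ hL] at hm
  obtain ⟨i, hi, hi'⟩ := Int.exists_greatest_of_bdd (P := fun i => P.T i ≤ τ)
    ⟨k * P.n, fun z hz => by
      have : P.T z < P.T (k * P.n) := by rw [hTk]; exact lt_of_le_of_lt hz hk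
      exact ((T_mono P).lt_iff_lt.1 this).le⟩
    ⟨m * P.n, by
      show P.T (m * P.n) ≤ τ
      rw [hTk]; exact hm.le⟩
  refine ⟨i, hi, ?_⟩
  by_contra h
  have := hi' (i + 1) (not_lt.1 h)
  omega

/-- The point on the edge number `i`. -/
theorem At_unique {p : E2} {τ : ℝ} {i : ℤ} (h1 : P.T i ≤ τ) (h2 : τ < P.T (i + 1))
    (h : P.At p τ) : p = P.v i + ((τ - P.T i) / P.len i) • (P.v (i + 1) - P.v i) := by
  obtain ⟨j, t, ht0, ht1, hp, hτ⟩ := h
  have hlj := lenpos P j
  have hli := lenpos P i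
  have h3 : P.T j ≤ τ := by
    rw [hτ]
    have : 0 ≤ t * P.len j := by positivity
    linarith
  have h4 : τ ≤ P.T (j + 1) := by
    rw [hτ, T_succ]
    have : t * P.len j ≤ 1 * P.len j := mul_le_mul_of_nonneg_right ht1 hlj.le
    linarith
  have h5 : j < i + 1 := (T_mono P).lt_iff_lt.1 (lt_of_le_of_lt h3 h2)
  have h6 : i ≤ j + 1 := (T_mono P).le_iff_le.1 (h1.trans h4)
  rcases (show j = i ∨ j + 1 = i by omega) with rfl | h7
  · rw [hp, hτ]
    congr 2
    field_simp
    ring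
  · have h8 : τ = P.T i := le_antisymm (by rw [← h7]; exact h4) h1
    have h9 : t = 1 := by
      rw [h8, ← h7, T_succ] at hτ
      have : P.len j * (1 - t) = 0 := by linarith
      rcases mul_eq_zero.1 this with h | h
      · exact absurd h hlj.ne'
      · linarith
    rw [hp, h9, h8, sub_self, zero_div, zero_smul, one_smul, add_zero, ← h7]
    abel

theorem At_exists (τ : ℝ) : ∃ p, P.At p τ := by
  obtain ⟨i, h1, h2⟩ := cover P τ
  have hli := lenpos P i
  rw [T_succ] at h2
  refine ⟨_, i, (τ - P.T i) / P.len i, div_nonneg (by linarith) hli.le, ?_, rfl, ?_⟩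
  · rw [div_le_one hli]; linarith
  · field_simp; ring

theorem At_c (τ : ℝ) : P.At (P.c τ) τ := by
  have h : ∃ p, P.At p τ := At_exists P τ
  unfold Polygon.c
  rw [dif_pos h]
  exact h.choose_spec

theorem at_iff (p : E2) (τ : ℝ) : P.At p τ ↔ p = P.c τ := by
  constructor
  · intro h
    obtain ⟨i, h1, h2⟩ := cover P τ
    rw [At_unique P h1 h2 h, At_unique P h1 h2 (At_c P τ)]
  · rintro rfl
    exact At_c P τ

theorem c_edge (i : ℤ) (u : ℝ) (h0 : 0 ≤ u) (h1 : u ≤ P.len i) :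
    P.c (P.T i + u) = P.v i + (u / P.len i) • (P.v (i + 1) - P.v i) := by
  have hli := lenpos P i
  symm
  rw [← at_iff]
  exact ⟨i, u / P.len i, by positivity, (div_le_one hli).2 h1, rfl, by field_simp⟩

theorem c_T (i : ℤ) : P.c (P.T i) = P.v i := by
  have := c_edge P i 0 le_rfl (lenpos P i).le
  rwa [add_zero, zero_div, zero_smul, add_zero] at this

theorem c_per (τ : ℝ) : P.c (τ + P.L) = P.c τ := by
  obtain ⟨i, t, ht0, ht1, hp, hτ⟩ := At_c P τ
  symm
  rw [← at_iff]
  refine ⟨i + P.n, t, ht0, ht1, ?_, ?_⟩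
  · rw [P.per i, show i + (P.n : ℤ) + 1 = (i + 1) + P.n by ring, P.per (i + 1)]
    exact hp
  · rw [T_per, len_per]
    rw [hτ]; ring

theorem dist_edge (i : ℤ) (a b : ℝ) (ha : P.T i ≤ a) (ha' : a ≤ P.T (i + 1)) (hb : P.T i ≤ b)
    (hb' : b ≤ P.T (i + 1)) : dist (P.c a) (P.c b) = |a - b| := by
  have hli := lenpos P i
  rw [T_succ] at ha' hb'
  have h1 := c_edge P i (a - P.T i) (by linarith) (by linarith)
  have h2 := c_edge P i (b - P.T i) (by linarith) (by linarith)
  rw [add_sub_cancel] at h1 h2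
  rw [h1, h2, dist_add_left, dist_eq_norm, ← sub_smul, norm_smul, ← sub_div,
    sub_sub_sub_cancel_right, Real.norm_eq_abs, abs_div, abs_of_pos hli]
  have h3 : ‖P.v (i + 1) - P.v i‖ = P.len i := by
    rw [Polygon.len, dist_comm, dist_eq_norm]
  rw [h3]
  field_simp

theorem lip_aux (k : ℕ) : ∀ (i : ℤ) (a b : ℝ), P.T i ≤ a → a ≤ P.T (i + 1) →
    P.T (i + k) ≤ b → b ≤ P.T (i + k + 1) → a ≤ b → dist (P.c a) (P.c b) ≤ b - a := by
  induction k with
  | zero =>
    intro i a b h1 h2 h3 h4 h5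
    simp only [Nat.cast_zero, add_zero] at h3 h4
    rw [dist_edge P i a b h1 h2 h3 h4, abs_sub_comm, abs_of_nonneg (by linarith)]
  | succ k ih =>
    intro i a b h1 h2 h3 h4 h5
    have h6 : i + ((k + 1 : ℕ) : ℤ) = i + k + 1 := by push_cast; ring
    rw [h6] at h3 h4
    have h7 : a ≤ P.T (i + k + 1) :=
      h2.trans ((T_mono P).monotone (by omega))
    have h8 := ih i a (P.T (i + k + 1)) h1 h2 ((T_mono P).monotone (by omega)) le_rfl h7
    have h9 := dist_edge P (i + k + 1) (P.T (i + k + 1)) b le_rfl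
      ((T_mono P).monotone (by omega)) h3 h4
    rw [abs_sub_comm, abs_of_nonneg (by linarith)] at h9
    have h10 := dist_triangle (P.c a) (P.c (P.T (i + k + 1))) (P.c b)
    linarith

theorem c_lip (a b : ℝ) : dist (P.c a) (P.c b) ≤ |a - b| := by
  wlog h : a ≤ b with H
  · rw [dist_comm, abs_sub_comm]
    exact H P b a (le_of_not_ge h)
  obtain ⟨i, hi1, hi2⟩ := cover P a
  obtain ⟨j, hj1, hj2⟩ := cover P b
  have hij : i < j + 1 := (T_mono P).lt_iff_lt.1 (lt_of_le_of_lt (hi1.trans h) hj2)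
  obtain ⟨k, hk⟩ := Int.le.dest (show i ≤ j by omega)
  have := lip_aux P k i a b hi1 hi2.le (by rw [hk]; exact hj1) (by rw [hk]; exact hj2.le) h
  rwa [abs_sub_comm, abs_of_nonneg (by linarith)]

theorem straight (a b : ℝ) (hab : a ≤ b) (h : ∀ i, ¬ (a < P.T i ∧ P.T i < b)) :
    ∃ e : E2, ‖e‖ = 1 ∧ ∀ τ ∈ Icc a b, P.c τ = P.c a + (τ - a) • e := by
  obtain ⟨i, hi1, hi2⟩ := cover P a
  have hli := lenpos P i
  have h3 : ‖P.v (i + 1) - P.v i‖ = P.len i := by
    rw [Polygon.len, dist_comm, dist_eq_norm]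
  have hb : b ≤ P.T (i + 1) := by
    by_contra hb
    exact h (i + 1) ⟨hi2, not_le.1 hb⟩
  refine ⟨(1 / P.len i) • (P.v (i + 1) - P.v i), ?_, fun τ hτ => ?_⟩
  · rw [norm_smul, h3, Real.norm_eq_abs, abs_of_pos (by positivity)]
    field_simp
  · rw [T_succ] at hi2 hb
    have h1 := c_edge P i (a - P.T i) (by linarith) (by linarith)
    have h2 := c_edge P i (τ - P.T i) (by linarith [hτ.1]) (by linarith [hτ.2])
    rw [add_sub_cancel] at h1 h2
    rw [h1, h2, smul_smul, add_assoc, ← add_smul]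
    congr 2
    field_simp
    ring

end G1

theorem geo1 (P : Polygon) : Geo1 P where
  lenpos := G1.lenpos P
  Lpos := G1.Lpos P
  T_succ := G1.T_succ P
  T_per := G1.T_per P
  T_mono := G1.T_mono P
  cover := G1.cover P
  at_iff := G1.at_iff P
  c_T := G1.c_T P
  c_per := G1.c_per P
  c_edge := G1.c_edge P
  c_lip := G1.c_lip P
  straight := G1.straight P

end R984.PH
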