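import Pool.Agent.R984.PH.Stm

/-! GEO2: convexity facts of a polygon. -/

namespace R984.PH

open Set

namespace G2

lemma cr_add_right (a b c : E2) : cr a (b + c) = cr a b + cr a c := by
  simp [cr]; ring

lemma cr_sub_right (a b c : E2) : cr a (b - c) = cr a b - cr a c := by
  simp [cr]; ring

lemma cr_smul_right (a b : E2) (t : ℝ) : cr a (t • b) = t * cr a b := by
  simp [cr]; ring

lemma cr_smul_left (a b : E2) (t : ℝ) : cr (t • a) b = t * cr a b := by
  simp [cr]; ring

lemma cr_self (a : E2) : cr a a = 0 := by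
  simp [cr]; ring

lemma cr_zero_right (a : E2) : cr a 0 = 0 := by
  simp [cr]

lemma inner_coord (a b : E2) : inner ℝ a b = a 0 * b 0 + a 1 * b 1 := by
  simp [PiLp.inner_apply, Fin.sum_univ_two]; ring

lemma normsq_coord (a : E2) : ‖a‖ ^ 2 = a 0 ^ 2 + a 1 ^ 2 := by
  rw [EuclideanSpace.norm_sq_eq]; simp [Fin.sum_univ_two]

variable (P : Polygon)

lemma v_per_mul (i k : ℤ) : P.v (i + P.n * k) = P.v i := by
  induction k using Int.induction_on with
  | zero => simp
  | succ k ih =>
    have : i + (P.n : ℤ) * (k + 1) = (i + P.n * k) + P.n := by ring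
    rw [this, P.per, ih]
  | pred k ih =>
    have h := P.per (i + (P.n : ℤ) * (-k - 1))
    have : i + (P.n : ℤ) * (-(k : ℤ) - 1) + P.n = i + P.n * (-k) := by ring
    rw [this] at h
    rw [← h, ih]

lemma v_dvd {i j : ℤ} (h : (P.n : ℤ) ∣ j - i) : P.v j = P.v i := by
  obtain ⟨k, hk⟩ := h
  have : j = i + P.n * k := by linarith
  rw [this, v_per_mul]

lemma n_not_dvd_one : ¬ ((P.n : ℤ) ∣ 1) := by
  intro h
  have := Int.le_of_dvd (by norm_num) h
  have := P.hn
  omega

lemma n_not_dvd_two : ¬ ((P.n : ℤ) ∣ 2) := by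
  intro h
  have := Int.le_of_dvd (by norm_num) h
  have := P.hn
  omega

lemma left_nonneg (i j : ℤ) : 0 ≤ cr (P.v (i + 1) - P.v i) (P.v j - P.v i) := by
  by_cases h1 : (P.n : ℤ) ∣ j - i
  · rw [v_dvd P h1, sub_self, cr_zero_right]
  · by_cases h2 : (P.n : ℤ) ∣ j - (i + 1)
    · rw [v_dvd P h2, cr_self]
    · exact (P.left i j h1 h2).le

lemma left_zero {i j : ℤ} (h : cr (P.v (i + 1) - P.v i) (P.v j - P.v i) ≤ 0) :
    (P.n : ℤ) ∣ j - i ∨ (P.n : ℤ) ∣ j - (i + 1) := by
  by_contra hc
  push Not at hc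
  exact absurd (P.left i j hc.1 hc.2) (not_lt.mpr h)

lemma body_left (i : ℤ) {p : E2} (hp : p ∈ P.body) :
    0 ≤ cr (P.v (i + 1) - P.v i) (p - P.v i) := by
  have hconv : Convex ℝ {p : E2 | 0 ≤ cr (P.v (i + 1) - P.v i) (p - P.v i)} := by
    intro x hx y hy a b ha hb hab
    simp only [mem_ofPred_eq] at hx hy ⊢
    have : a • x + b • y - P.v i = a • (x - P.v i) + b • (y - P.v i) := by
      have hb' : b = 1 - a := by linarith
      subst hb'
      module
    rw [this, cr_add_right, cr_smul_right, cr_smul_right]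
    positivity
  have hsub : P.body ⊆ {p : E2 | 0 ≤ cr (P.v (i + 1) - P.v i) (p - P.v i)} := by
    apply convexHull_min _ hconv
    rintro _ ⟨j, rfl⟩
    exact left_nonneg P i j
  exact hsub hp

lemma ind : 0 < cr (P.v 1 - P.v 0) (P.v 2 - P.v 0) := by
  have := P.left 0 2 (by simpa using n_not_dvd_two P) (by simpa using n_not_dvd_one P)
  simpa using this

lemma v_mem (i : ℤ) : P.v i ∈ P.body := subset_convexHull ℝ _ ⟨i, rfl⟩

lemma convex : Convex ℝ P.body := convex_convexHull ℝ _

lemma compact : IsCompact P.body := by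
  apply Set.Finite.isCompact_convexHull
  have : range P.v ⊆ P.v '' (Ico (0 : ℤ) P.n) := by
    rintro _ ⟨i, rfl⟩
    refine ⟨i % P.n, ⟨Int.emod_nonneg _ ?_, Int.emod_lt_of_pos _ ?_⟩, ?_⟩
    · have := P.hn; omega
    · have := P.hn; omega
    · apply v_dvd
      have : i % (P.n : ℤ) - i = P.n * (-(i / P.n)) := by
        have := Int.emod_add_mul_ediv i P.n
        linarith
      exact ⟨_, this⟩
  exact (Set.Finite.image _ (Set.finite_Ico _ _)).subset this

lemma tri (p q : E2) (h : ∀ i, dist p (P.v i) = dist q (P.v i)) : p = q := by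
  have hsq : ∀ i, (p 0 - P.v i 0) ^ 2 + (p 1 - P.v i 1) ^ 2
      = (q 0 - P.v i 0) ^ 2 + (q 1 - P.v i 1) ^ 2 := by
    intro i
    have := h i
    rw [dist_eq_norm, dist_eq_norm] at this
    have h2 : ‖p - P.v i‖ ^ 2 = ‖q - P.v i‖ ^ 2 := by rw [this]
    rw [normsq_coord, normsq_coord] at h2
    simpa using h2
  have h0 := hsq 0
  have h1 := hsq 1
  have h2 := hsq 2
  have hD := ind P
  simp only [cr, PiLp.sub_apply] at hD
  set a0 := P.v 1 0 - P.v 0 0
  set a1 := P.v 1 1 - P.v 0 1
  set b0 := P.v 2 0 - P.v 0 0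
  set b1 := P.v 2 1 - P.v 0 1
  have e1 : (p 0 - q 0) * a0 + (p 1 - q 1) * a1 = 0 := by
    simp only [a0, a1]; nlinarith
  have e2 : (p 0 - q 0) * b0 + (p 1 - q 1) * b1 = 0 := by
    simp only [b0, b1]; nlinarith
  have x0 : (p 0 - q 0) * (a0 * b1 - a1 * b0) = 0 := by
    linear_combination b1 * e1 - a1 * e2
  have x1 : (p 1 - q 1) * (a0 * b1 - a1 * b0) = 0 := by
    linear_combination a0 * e2 - b0 * e1
  have y0 : p 0 = q 0 := by
    rcases mul_eq_zero.mp x0 with h | h
    · linarith
    · linarith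
  have y1 : p 1 = q 1 := by
    rcases mul_eq_zero.mp x1 with h | h
    · linarith
    · linarith
  ext k
  fin_cases k
  · exact y0
  · exact y1

lemma ball : ∃ (z : E2) (R : ℝ), 0 < R ∧ Metric.closedBall z R ⊆ P.body := by
  have hD := ind P
  set a := P.v 1 - P.v 0 with ha
  set b := P.v 2 - P.v 0 with hb
  have hcont : ∀ w : E2, Continuous fun p : E2 => cr w (p - P.v 0) := by
    intro w
    unfold cr
    simp only [PiLp.sub_apply]
    fun_prop
  let U : Set E2 := {p | 0 < cr a (p - P.v 0)} ∩ {p | cr b (p - P.v 0) < 0} ∩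
    {p | cr a (p - P.v 0) - cr b (p - P.v 0) < cr a b}
  have hU : IsOpen U := by
    refine IsOpen.inter (IsOpen.inter ?_ ?_) ?_
    · exact isOpen_lt continuous_const (hcont a)
    · exact isOpen_lt (hcont b) continuous_const
    · exact isOpen_lt ((hcont a).sub (hcont b)) continuous_const
  have hba : cr b a = - cr a b := by simp [cr]; ring
  let z : E2 := P.v 0 + ((1 : ℝ) / 3) • a + ((1 : ℝ) / 3) • b
  have hz0 : z - P.v 0 = ((1 : ℝ) / 3) • a + ((1 : ℝ) / 3) • b := by
    simp only [z]; abel
  have hz : z ∈ U := by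
    refine ⟨⟨?_, ?_⟩, ?_⟩
    · simp only [mem_ofPred_eq, hz0, cr_add_right, cr_smul_right, cr_self]
      linarith
    · simp only [mem_ofPred_eq, hz0, cr_add_right, cr_smul_right, cr_self, hba]
      linarith
    · simp only [mem_ofPred_eq, hz0, cr_add_right, cr_smul_right, cr_self, hba]
      linarith
  have hUb : U ⊆ P.body := by
    rintro p ⟨⟨h1, h2⟩, h3⟩
    simp only [mem_ofPred_eq] at h1 h2 h3
    set D := cr a b with hDdef
    set l := - cr b (p - P.v 0) / D with hl
    set m := cr a (p - P.v 0) / D with hm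
    have hl0 : 0 ≤ l := by rw [hl]; apply div_nonneg <;> linarith
    have hm0 : 0 ≤ m := by rw [hm]; apply div_nonneg <;> linarith
    have hlm : l + m ≤ 1 := by
      rw [hl, hm, ← add_div, div_le_one hD]; linarith
    have hp : p = (1 - l - m) • P.v 0 + l • P.v 1 + m • P.v 2 := by
      have key : p - P.v 0 = l • a + m • b := by
        have hD0 : D ≠ 0 := ne_of_gt hD
        ext k
        fin_cases k
        · simp only [Fin.zero_eta, PiLp.sub_apply, PiLp.add_apply, PiLp.smul_apply, smul_eq_mul, hl, hm]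
          field_simp
          simp only [cr, hDdef, PiLp.sub_apply]
          ring
        · simp only [Fin.mk_one, PiLp.sub_apply, PiLp.add_apply, PiLp.smul_apply, smul_eq_mul, hl, hm]
          field_simp
          simp only [cr, hDdef, PiLp.sub_apply]
          ring
      have : p = P.v 0 + (p - P.v 0) := by abel
      rw [this, key, ha, hb]
      module
    rw [hp]
    have hconv := convex P
    have h12 := hconv.sum_mem (t := Finset.univ) (w := ![1 - l - m, l, m])
      (z := ![P.v 0, P.v 1, P.v 2]) (by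
        intro i _
        fin_cases i
        · simp; linarith
        · simpa using hl0
        · simpa using hm0) (by simp [Fin.sum_univ_three]; ring)
      (by
        intro i _
        fin_cases i
        · simpa using v_mem P 0
        · simpa using v_mem P 1
        · simpa using v_mem P 2)
    simpa [Fin.sum_univ_three] using h12
  obtain ⟨R, hR, hsub⟩ := Metric.nhds_basis_closedBall.mem_iff.mp (hU.mem_nhds hz)
  exact ⟨z, R, hR, hsub.trans hUb⟩

lemma T_per_mul (h1 : Geo1 P) (i k : ℤ) : P.T (i + P.n * k) = P.T i + k * P.L := by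
  induction k using Int.induction_on with
  | zero => simp
  | succ k ih =>
    have : i + (P.n : ℤ) * (k + 1) = (i + P.n * k) + P.n := by ring
    rw [this, h1.T_per, ih]
    push_cast
    ring
  | pred k ih =>
    have h := h1.T_per (i + (P.n : ℤ) * (-k - 1))
    have : i + (P.n : ℤ) * (-(k : ℤ) - 1) + P.n = i + P.n * (-k) := by ring
    rw [this, ih] at h
    push_cast at h ⊢
    linarith

lemma c_form (h1 : Geo1 P) (τ : ℝ) : ∃ (i : ℤ) (s : ℝ), 0 ≤ s ∧ s < 1 ∧
    P.T i + s * P.len i = τ ∧ P.c τ = P.v i + s • (P.v (i + 1) - P.v i) := by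
  obtain ⟨i, hi1, hi2⟩ := h1.cover τ
  have hl := h1.lenpos i
  have hs := h1.T_succ i
  refine ⟨i, (τ - P.T i) / P.len i, div_nonneg (by linarith) hl.le, ?_, ?_, ?_⟩
  · rw [div_lt_one hl]; linarith
  · field_simp; ring
  · have := h1.c_edge i (τ - P.T i) (by linarith) (by linarith)
    rw [← this]
    congr 1
    ring

lemma c_mem (h1 : Geo1 P) (τ : ℝ) : P.c τ ∈ P.body := by
  obtain ⟨i, s, hs0, hs1, -, hc⟩ := c_form P h1 τ
  rw [hc]
  have := convex P (v_mem P i) (v_mem P (i + 1)) (by linarith : 0 ≤ 1 - s) hs0 (by ring)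
  convert this using 1
  module

lemma c_nint (h1 : Geo1 P) (τ : ℝ) : P.c τ ∉ interior P.body := by
  intro hint
  obtain ⟨i, s, hs0, hs1, -, hc⟩ := c_form P h1 τ
  set E := P.v (i + 1) - P.v i with hE
  have hEn : 0 < ‖E‖ := by
    have := h1.lenpos i
    rw [Polygon.len, dist_comm, dist_eq_norm] at this
    exact this
  have hEsq : 0 < E 0 ^ 2 + E 1 ^ 2 := by
    rw [← normsq_coord]; positivity
  let w : E2 := !₂[E 1, - E 0]
  have hw : cr E w = - (E 0 ^ 2 + E 1 ^ 2) := by simp [cr, w]; ring
  rw [mem_interior_iff_mem_nhds, Metric.mem_nhds_iff] at hint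
  obtain ⟨ε, hε, hball⟩ := hint
  have hden : 0 < ‖w‖ + 1 := by positivity
  set t := ε / (‖w‖ + 1) with ht
  have htpos : 0 < t := by positivity
  have hmem : P.c τ + t • w ∈ P.body := by
    apply hball
    rw [Metric.mem_ball, dist_eq_norm, add_sub_cancel_left, norm_smul, Real.norm_of_nonneg htpos.le]
    rw [ht, div_mul_eq_mul_div, div_lt_iff₀ hden]
    nlinarith [norm_nonneg w]
  have h := body_left P i hmem
  rw [hc, ← hE] at h
  have h2 : P.v i + s • E + t • w - P.v i = s • E + t • w := by abel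
  rw [h2, cr_add_right, cr_smul_right, cr_smul_right, cr_self, hw] at h
  nlinarith [mul_pos htpos hEsq]

lemma inj_half {i j : ℤ} {s t : ℝ} (ht0 : 0 ≤ t) (ht1 : t < 1)
    (h : P.v i + s • (P.v (i + 1) - P.v i) = P.v j + t • (P.v (j + 1) - P.v j)) :
    (P.n : ℤ) ∣ j - i ∨ (P.n : ℤ) ∣ j - (i + 1) := by
  apply left_zero
  have a1 := left_nonneg P i j
  have a2 := left_nonneg P i (j + 1)
  have h1 : s • (P.v (i + 1) - P.v i)
      = (1 - t) • (P.v j - P.v i) + t • (P.v (j + 1) - P.v i) := by
    have : s • (P.v (i + 1) - P.v i) = P.v j + t • (P.v (j + 1) - P.v j) - P.v i := by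
      rw [← h]; abel
    rw [this]
    module
  have h2 : cr (P.v (i + 1) - P.v i) (s • (P.v (i + 1) - P.v i)) = 0 := by
    rw [cr_smul_right, cr_self, mul_zero]
  rw [h1, cr_add_right, cr_smul_right, cr_smul_right] at h2
  by_contra hc
  push Not at hc
  have : 0 < (1 - t) * cr (P.v (i + 1) - P.v i) (P.v j - P.v i) := mul_pos (by linarith) hc
  have : 0 ≤ t * cr (P.v (i + 1) - P.v i) (P.v (j + 1) - P.v i) := mul_nonneg ht0 a2
  linarith

lemma inj (h1 : Geo1 P) (a b : ℝ) (hab : P.c a = P.c b) : ∃ k : ℤ, b = a + k * P.L := by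
  obtain ⟨i, s, hs0, hs1, hsa, hca⟩ := c_form P h1 a
  obtain ⟨j, t, ht0, ht1, htb, hcb⟩ := c_form P h1 b
  rw [hca, hcb] at hab
  have d1 := inj_half P ht0 ht1 hab
  have d2 := inj_half P hs0 hs1 hab.symm
  have hd : (P.n : ℤ) ∣ j - i := by
    rcases d1 with d1 | d1
    · exact d1
    · exfalso
      rcases d2 with d2 | d2
      · have := dvd_add d1 d2
        apply n_not_dvd_one P
        have h3 : j - (i + 1) + (i - j) = -1 := by ring
        rw [h3] at this
        exact (dvd_neg.mp this)
      · have := dvd_add d1 d2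
        apply n_not_dvd_two P
        have h3 : j - (i + 1) + (i - (j + 1)) = -2 := by ring
        rw [h3] at this
        exact (dvd_neg.mp this)
  obtain ⟨k, hk⟩ := hd
  have hj : j = i + P.n * k := by linarith
  have hj1 : j + 1 = (i + 1) + P.n * k := by linarith
  have hv : P.v j = P.v i := by rw [hj, v_per_mul]
  have hv1 : P.v (j + 1) = P.v (i + 1) := by rw [hj1, v_per_mul]
  have hl : P.len j = P.len i := by rw [Polygon.len, Polygon.len, hv, hv1]
  have hT : P.T j = P.T i + k * P.L := by rw [hj, T_per_mul P h1]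
  rw [hv, hv1] at hab
  have hst : s = t := by
    have h2 : (s - t) • (P.v (i + 1) - P.v i) = 0 := by
      rw [sub_smul, sub_eq_zero]
      exact add_left_cancel hab
    rcases smul_eq_zero.mp h2 with h3 | h3
    · linarith
    · exfalso
      have := h1.lenpos i
      rw [Polygon.len, dist_comm, dist_eq_norm, h3, norm_zero] at this
      exact lt_irrefl _ this
  refine ⟨k, ?_⟩
  rw [← htb, ← hsa, hT, hl, hst]
  ring

lemma len_norm (i : ℤ) : P.len i = ‖P.v (i + 1) - P.v i‖ := by
  rw [Polygon.len, dist_comm, dist_eq_norm]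

lemma edge (h1 : Geo1 P) (t : ℝ) (ht : ∀ i, t ≠ P.T i) : ∃ (e : E2) (δ : ℝ), ‖e‖ = 1 ∧ 0 < δ ∧
    (∀ u, |u| ≤ δ → P.c (t + u) = P.c t + u • e) ∧
    ∀ p ∈ P.body, ∀ q ∈ P.body, p + q = (2 : ℝ) • P.c t → ∃ u : ℝ, p = P.c t + u • e := by
  obtain ⟨i, hi1, hi2⟩ := h1.cover t
  have hi1' : P.T i < t := lt_of_le_of_ne hi1 (ht i).symm
  have hl := h1.lenpos i
  have hs := h1.T_succ i
  set E := P.v (i + 1) - P.v i with hE
  have hln : P.len i = ‖E‖ := len_norm P i
  have hc : ∀ u, |u| ≤ min (t - P.T i) (P.T (i + 1) - t) →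
      P.c (t + u) = P.v i + ((t + u - P.T i) / P.len i) • E := by
    intro u hu
    obtain ⟨h3, h4⟩ := le_min_iff.mp hu
    have h5 := abs_le.mp h3
    have h6 := abs_le.mp h4
    have := h1.c_edge i (t + u - P.T i) (by linarith) (by linarith)
    rw [← this]
    congr 1
    ring
  have hδ : 0 < min (t - P.T i) (P.T (i + 1) - t) := lt_min (by linarith) (by linarith)
  have hct := hc 0 (by simpa using hδ.le)
  rw [add_zero] at hct
  have hne : P.len i ≠ 0 := ne_of_gt hl
  refine ⟨(P.len i)⁻¹ • E, min (t - P.T i) (P.T (i + 1) - t), ?_, hδ, ?_, ?_⟩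
  · rw [norm_smul, norm_inv, Real.norm_of_nonneg hl.le, ← hln]
    field_simp
  · intro u hu
    rw [hc u hu, hct]
    have : (t + u - P.T i) / P.len i = (t - P.T i) / P.len i + u * (P.len i)⁻¹ := by
      field_simp; ring
    rw [this]
    module
  · intro p hp q hq hpq
    have a1 := body_left P i hp
    have a2 := body_left P i hq
    rw [← hE] at a1 a2
    have a3 : cr E (p - P.v i) + cr E (q - P.v i) = 0 := by
      rw [← cr_add_right]
      have : p - P.v i + (q - P.v i) = (2 * ((t - P.T i) / P.len i)) • E := by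
        have : p - P.v i + (q - P.v i) = (p + q) - (2 : ℝ) • P.v i := by
          rw [two_smul]; abel
        rw [this, hpq, hct]
        module
      rw [this, cr_smul_right, cr_self, mul_zero]
    have a4 : cr E (p - P.c t) = 0 := by
      have : p - P.c t = (p - P.v i) - ((t - P.T i) / P.len i) • E := by
        rw [hct]; abel
      rw [this, cr_sub_right, cr_smul_right, cr_self]
      linarith
    refine ⟨inner ℝ (p - P.c t) E * (P.len i)⁻¹, ?_⟩
    have hsq : P.len i ^ 2 = E 0 ^ 2 + E 1 ^ 2 := by rw [hln, normsq_coord]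
    have hsq0 : E 0 ^ 2 + E 1 ^ 2 ≠ 0 := by rw [← hsq]; positivity
    rw [smul_smul, mul_assoc, ← mul_inv, ← sq, hsq, inner_coord]
    set w := p - P.c t with hw
    have hpw : p = P.c t + w := by rw [hw]; abel
    rw [hpw]
    congr 1
    simp only [cr] at a4
    ext k
    fin_cases k
    · simp only [Fin.zero_eta, PiLp.smul_apply, smul_eq_mul]
      field_simp
      linear_combination (E 1) * (-a4)
    · simp only [Fin.mk_one, PiLp.smul_apply, smul_eq_mul]
      field_simp
      linear_combination (E 0) * a4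

lemma corner_ineq {e f w : E2} (he : ‖e‖ = 1) (hf : ‖f‖ = 1) (hef : 0 < cr e f)
    (hwf : 0 ≤ cr w f) (hew : 0 ≤ cr e w) (hw : w ≠ 0) : 0 < inner ℝ w (e + f) := by
  have he2 : e 0 ^ 2 + e 1 ^ 2 = 1 := by rw [← normsq_coord, he]; norm_num
  have hf2 : f 0 ^ 2 + f 1 ^ 2 = 1 := by rw [← normsq_coord, hf]; norm_num
  have key : cr e f * inner ℝ w (e + f) = (cr w f + cr e w) * (1 + inner ℝ e f) := by
    rw [inner_coord, inner_coord]
    simp only [cr, PiLp.add_apply]
    linear_combination (w 0 * f 1 - w 1 * f 0) * he2 + (e 0 * w 1 - e 1 * w 0) * hf2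
  have hin : (cr e f) ^ 2 + (inner ℝ e f) ^ 2 = 1 := by
    rw [inner_coord]
    simp only [cr]
    linear_combination (f 0 ^ 2 + f 1 ^ 2) * he2 + hf2
  have h1 : 0 < 1 + inner ℝ e f := by nlinarith [sq_nonneg (cr e f)]
  have h2 : 0 < cr w f + cr e w := by
    by_contra hc
    have h3 : cr w f = 0 := by linarith
    have h4 : cr e w = 0 := by linarith
    apply hw
    simp only [cr] at h3 h4 hef
    have h5 : w 0 * (e 0 * f 1 - e 1 * f 0) = 0 := by
      linear_combination (e 0) * h3 + (f 0) * h4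
    have h6 : w 1 * (e 0 * f 1 - e 1 * f 0) = 0 := by
      linear_combination (e 1) * h3 + (f 1) * h4
    ext k
    fin_cases k
    · rcases mul_eq_zero.mp h5 with h | h
      · simpa using h
      · linarith
    · rcases mul_eq_zero.mp h6 with h | h
      · simpa using h
      · linarith
  have h3 : 0 < cr e f * inner ℝ w (e + f) := by rw [key]; positivity
  exact (pos_iff_pos_of_mul_pos h3).mp hef

lemma corner (h1 : Geo1 P) (i : ℤ) : ∃ (e f : E2) (δ : ℝ), ‖e‖ = 1 ∧ ‖f‖ = 1 ∧ 0 < δ ∧
    (∀ u, 0 ≤ u → u ≤ δ → P.c (P.T i + u) = P.v i + u • e ∧ P.c (P.T i - u) = P.v i + u • f) ∧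
    ∀ p ∈ P.body, p ≠ P.v i → 0 < inner ℝ (p - P.v i) (e + f) := by
  set E := P.v (i + 1) - P.v i with hE
  set G := P.v i - P.v (i - 1) with hG
  have hl := h1.lenpos i
  have hl' := h1.lenpos (i - 1)
  have hln : P.len i = ‖E‖ := len_norm P i
  have hln' : P.len (i - 1) = ‖G‖ := by rw [len_norm, sub_add_cancel]
  have hs' := h1.T_succ (i - 1)
  rw [sub_add_cancel] at hs'
  have hne : P.len i ≠ 0 := ne_of_gt hl
  have hne' : P.len (i - 1) ≠ 0 := ne_of_gt hl'
  have he : ‖(P.len i)⁻¹ • E‖ = 1 := by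
    rw [norm_smul, norm_inv, Real.norm_of_nonneg hl.le, ← hln]
    field_simp
  have hf : ‖-(P.len (i - 1))⁻¹ • G‖ = 1 := by
    rw [norm_smul, norm_neg, norm_inv, Real.norm_of_nonneg hl'.le, ← hln']
    field_simp
  have hGE : 0 < cr G E := by
    have := P.left (i - 1) (i + 1) (by
      have h3 : i + 1 - (i - 1) = 2 := by ring
      rw [h3]; exact n_not_dvd_two P) (by
      have h3 : i + 1 - (i - 1 + 1) = 1 := by ring
      rw [h3]; exact n_not_dvd_one P)
    rw [sub_add_cancel, ← hG] at this
    have h4 : P.v (i + 1) - P.v (i - 1) = E + G := by rw [hE, hG]; abel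
    rw [h4, cr_add_right, cr_self, add_zero] at this
    exact this
  have hef : 0 < cr ((P.len i)⁻¹ • E) (-(P.len (i - 1))⁻¹ • G) := by
    rw [cr_smul_left, cr_smul_right]
    have h5 : cr E G = - cr G E := by simp [cr]; ring
    rw [h5]
    have : (P.len i)⁻¹ * (-(P.len (i - 1))⁻¹ * -cr G E)
        = (P.len i)⁻¹ * (P.len (i - 1))⁻¹ * cr G E := by ring
    rw [this]
    positivity
  refine ⟨(P.len i)⁻¹ • E, -(P.len (i - 1))⁻¹ • G, min (P.len i) (P.len (i - 1)), he, hf,
    lt_min hl hl', ?_, ?_⟩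
  · intro u hu0 hu
    obtain ⟨hu1, hu2⟩ := le_min_iff.mp hu
    constructor
    · rw [h1.c_edge i u hu0 hu1, ← hE, smul_smul, div_eq_mul_inv]
    · have h6 := h1.c_edge (i - 1) (P.len (i - 1) - u) (by linarith) (by linarith)
      have h7 : P.T (i - 1) + (P.len (i - 1) - u) = P.T i - u := by linarith
      rw [h7, sub_add_cancel, ← hG] at h6
      rw [h6]
      have h8 : (P.len (i - 1) - u) / P.len (i - 1) = 1 - u * (P.len (i - 1))⁻¹ := by
        field_simp
      have h9 : P.v (i - 1) = P.v i - G := by rw [hG]; abel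
      rw [h8, h9]
      module
  · set e := (P.len i)⁻¹ • E with hedef
    set f := -(P.len (i - 1))⁻¹ • G with hfdef
    have hconv : Convex ℝ {p : E2 | p = P.v i ∨ 0 < inner ℝ (p - P.v i) (e + f)} := by
      intro x hx y hy a b ha hb hab
      simp only [mem_ofPred_eq] at hx hy ⊢
      have h10 : a • x + b • y - P.v i = a • (x - P.v i) + b • (y - P.v i) := by
        have hb' : b = 1 - a := by linarith
        subst hb'
        module
      rcases eq_or_lt_of_le ha with ha | ha
      · have hb1 : b = 1 := by linarith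
        rw [← ha, hb1, zero_smul, one_smul, zero_add]
        exact hy
      rcases eq_or_lt_of_le hb with hb | hb
      · have ha1 : a = 1 := by linarith
        rw [← hb, ha1, zero_smul, one_smul, add_zero]
        exact hx
      rw [h10, inner_add_left, real_inner_smul_left, real_inner_smul_left]
      rcases hx with hx | hx
      · rcases hy with hy | hy
        · left
          rw [hx, hy, ← add_smul, hab, one_smul]
        · right
          rw [hx, sub_self, inner_zero_left]
          have := mul_pos hb hy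
          linarith
      · right
        rcases hy with hy | hy
        · rw [hy, sub_self, inner_zero_left]
          have := mul_pos ha hx
          linarith
        · have h11 := mul_pos hb hy
          have h12 := mul_pos ha hx
          linarith
    have hsub : P.body ⊆ {p : E2 | p = P.v i ∨ 0 < inner ℝ (p - P.v i) (e + f)} := by
      apply convexHull_min _ hconv
      rintro _ ⟨j, rfl⟩
      by_cases hj : P.v j = P.v i
      · exact Or.inl hj
      right
      apply corner_ineq he hf hef
      · have h13 := left_nonneg P (i - 1) j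
        rw [sub_add_cancel, ← hG] at h13
        have h14 : P.v j - P.v (i - 1) = (P.v j - P.v i) + G := by rw [hG]; abel
        rw [h14, cr_add_right, cr_self, add_zero] at h13
        rw [hfdef, cr_smul_right]
        have h15 : cr (P.v j - P.v i) G = - cr G (P.v j - P.v i) := by simp only [cr]; ring
        rw [h15]
        have h16 : -(P.len (i - 1))⁻¹ * -cr G (P.v j - P.v i)
          = (P.len (i - 1))⁻¹ * cr G (P.v j - P.v i) := by ring
        rw [h16]
        positivity
      · have h13 := left_nonneg P i j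
        rw [← hE] at h13
        rw [hedef, cr_smul_left]
        positivity
      · exact sub_ne_zero.mpr hj
    intro p hp hpne
    rcases hsub hp with h | h
    · exact absurd h hpne
    · exact h

end G2

/-- GEO2. -/
theorem geo2 (g1 : ∀ P, Geo1 P)
    (bd : ∀ (P : Polygon), ∀ p ∈ P.body, p ∈ interior P.body ∨ ∃ τ, p = P.c τ)
    (P : Polygon) : Geo2 P where
  compact := G2.compact P
  convex := G2.convex P
  ball := G2.ball P
  tri := G2.tri P
  v_mem := G2.v_mem P
  c_mem := G2.c_mem P (g1 P)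
  c_nint := G2.c_nint P (g1 P)
  bd := bd P
  inj := G2.inj P (g1 P)
  corner := G2.corner P (g1 P)
  edge := G2.edge P (g1 P)

end R984.PH
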