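import Pool.Agent.R984.PH.Stm

/-! MET: basic properties of the chain metric. -/

namespace R984.PH

open Set

theorem Polygon.Glued.symm {P : Polygon} {s : ℝ} {p q : E2} (h : P.Glued s p q) :
    P.Glued s q p := by
  obtain ⟨d, h0, h1, h2⟩ := h
  exact ⟨d, h0, h1, h2.symm⟩

theorem Polygon.Chain.left_mem {P : Polygon} {s : ℝ} {p q : E2} {l : ℝ}
    (h : P.Chain s p q l) : p ∈ P.body := by
  cases h <;> assumption

theorem Polygon.Chain.right_mem {P : Polygon} {s : ℝ} {p q : E2} {l : ℝ}
    (h : P.Chain s p q l) : q ∈ P.body := by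
  induction h with
  | seg _ h => exact h
  | cons _ _ _ _ ih => exact ih

theorem Polygon.Chain.nonneg {P : Polygon} {s : ℝ} {p q : E2} {l : ℝ}
    (h : P.Chain s p q l) : 0 ≤ l := by
  induction h with
  | seg _ _ => exact dist_nonneg
  | cons _ _ _ _ ih => exact add_nonneg dist_nonneg ih

theorem Polygon.Chain.pre {P : Polygon} {s : ℝ} {p q r : E2} {m : ℝ} (hp : p ∈ P.body)
    (h : P.Chain s q r m) : ∃ l', l' ≤ dist p q + m ∧ P.Chain s p r l' := by
  cases h with
  | seg hq hr => exact ⟨dist p r, dist_triangle _ _ _, .seg hp hr⟩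
  | @cons _ b b' _ l hq hb hg hc =>
    refine ⟨dist p b + l, ?_, .cons hp hb hg hc⟩
    have := dist_triangle p q b
    linarith

theorem Polygon.Chain.append {P : Polygon} {s : ℝ} {p q r : E2} {l m : ℝ}
    (h : P.Chain s p q l) (h' : P.Chain s q r m) : ∃ l', l' ≤ l + m ∧ P.Chain s p r l' := by
  induction h with
  | seg hp hq => exact h'.pre hp
  | @cons p b b' q l hp hb hg hc ih =>
    obtain ⟨l', hl', hc'⟩ := ih h'
    exact ⟨dist p b + l', by linarith, .cons hp hb hg hc'⟩

theorem Polygon.Chain.snoc {P : Polygon} {s : ℝ} {a b b' d : E2} {l : ℝ}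
    (h : P.Chain s a b l) (hg : P.Glued s b b') (hb : b' ∈ P.body) (hd : d ∈ P.body) :
    P.Chain s a d (l + dist b' d) := by
  induction h with
  | seg ha hb0 => exact .cons ha hb0 hg (.seg hb hd)
  | @cons a x x' b l ha hx hgx hc ih =>
    have := Polygon.Chain.cons (P := P) (s := s) ha hx hgx (ih hg)
    rwa [← add_assoc] at this

theorem Polygon.Chain.symm {P : Polygon} {s : ℝ} {p q : E2} {l : ℝ}
    (h : P.Chain s p q l) : P.Chain s q p l := by
  induction h with
  | @seg p q hp hq => rw [dist_comm]; exact .seg hq hp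
  | @cons p b b' r l hp hb hg hc ih =>
    have := ih.snoc hg.symm hb hp
    rw [add_comm, dist_comm] at this
    exact this

section
variable {P : Polygon} {s : ℝ}

theorem chains_bdd (p q : E2) : BddBelow {l | P.Chain s p q l} := ⟨0, fun _ h => h.nonneg⟩

theorem gdist_le {p q : E2} {l : ℝ} (h : P.Chain s p q l) : P.gdist s p q ≤ l :=
  csInf_le (chains_bdd p q) h

theorem gdist_nonneg (p q : E2) : 0 ≤ P.gdist s p q :=
  Real.sInf_nonneg (fun _ h => Polygon.Chain.nonneg h)

theorem gdist_symm (p q : E2) : P.gdist s p q = P.gdist s q p := by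
  unfold Polygon.gdist
  congr 1
  ext l
  exact ⟨fun h => Polygon.Chain.symm h, fun h => Polygon.Chain.symm h⟩

theorem le_gdist {p q : E2} (hp : p ∈ P.body) (hq : q ∈ P.body) {m : ℝ}
    (h : ∀ l, P.Chain s p q l → m ≤ l) : m ≤ P.gdist s p q :=
  le_csInf ⟨_, Polygon.Chain.seg hp hq⟩ h

theorem gdist_le_dist {p q : E2} (hp : p ∈ P.body) (hq : q ∈ P.body) :
    P.gdist s p q ≤ dist p q := gdist_le (.seg hp hq)

theorem gdist_triangle {p q r : E2} (hp : p ∈ P.body) (hq : q ∈ P.body) (hr : r ∈ P.body) :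
    P.gdist s p r ≤ P.gdist s p q + P.gdist s q r := by
  have h1 : ∀ l, P.Chain s p q l → P.gdist s p r - P.gdist s q r ≤ l := by
    intro l hl
    have h2 : P.gdist s p r - l ≤ P.gdist s q r := by
      refine le_gdist hq hr (fun m hm => ?_)
      obtain ⟨l', hl', hc⟩ := hl.append hm
      have := gdist_le hc
      linarith
    linarith
  have := le_gdist hp hq h1
  linarith

end

theorem c_per_int {P : Polygon} (g1 : Geo1 P) (k : ℤ) (τ : ℝ) :
    P.c (τ + k * P.L) = P.c τ := by
  have h : Function.Periodic P.c P.L := g1.c_per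
  exact (h.int_mul k) τ

theorem c_per_int' {P : Polygon} (g1 : Geo1 P) (k : ℤ) (τ : ℝ) :
    P.c (τ - k * P.L) = P.c τ := by
  have := c_per_int g1 (-k) τ
  rw [← this]
  congr 1
  push_cast
  ring

theorem gdist_link {P : Polygon} (g1 : Geo1 P) (g2 : Geo2 P) (s d : ℝ) :
    P.gdist s (P.c (s + d)) (P.c (s - d)) = 0 := by
  -- reduction to `d ∈ (-L/2, L/2]`
  have key : ∀ d : ℝ, 0 ≤ d → d ≤ P.L / 2 → P.gdist s (P.c (s + d)) (P.c (s - d)) = 0 := by
    intro d h0 h1
    rcases h0.eq_or_lt with h0 | h0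
    · subst h0
      have := gdist_le_dist (P := P) (s := s) (g2.c_mem (s + 0)) (g2.c_mem (s - 0))
      rw [show s + 0 = s - 0 by ring, dist_self] at this
      rw [show s + 0 = s - 0 by ring]
      exact le_antisymm this (gdist_nonneg _ _)
    rcases h1.eq_or_lt with h1 | h1
    · have h2 : P.c (s + d) = P.c (s - d) := by
        have := g1.c_per (s - d)
        rw [← this]
        congr 1
        linarith
      rw [h2]
      have := gdist_le_dist (P := P) (s := s) (g2.c_mem (s - d)) (g2.c_mem (s - d))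
      rw [dist_self] at this
      exact le_antisymm this (gdist_nonneg _ _)
    · have hg : P.Glued s (P.c (s + d)) (P.c (s - d)) :=
        ⟨d, h0, h1, Or.inl ⟨(g1.at_iff _ _).2 rfl, (g1.at_iff _ _).2 rfl⟩⟩
      have hc : P.Chain s (P.c (s + d)) (P.c (s - d))
          (dist (P.c (s + d)) (P.c (s + d)) + dist (P.c (s - d)) (P.c (s - d))) :=
        .cons (g2.c_mem _) (g2.c_mem _) hg (.seg (g2.c_mem _) (g2.c_mem _))
      have := gdist_le hc
      simp only [dist_self, add_zero] at this
      exact le_antisymm this (gdist_nonneg _ _)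
  obtain ⟨k, ⟨hk1, hk2⟩, -⟩ := existsUnique_add_zsmul_mem_Ioc g1.Lpos d (-(P.L / 2))
  set d' := d + k • P.L with hd'
  have e1 : P.c (s + d') = P.c (s + d) := by
    rw [hd', zsmul_eq_mul, ← add_assoc]; exact c_per_int g1 k _
  have e2 : P.c (s - d') = P.c (s - d) := by
    rw [hd', zsmul_eq_mul]
    have := c_per_int' g1 k (s - d)
    rw [← this]; congr 1; ring
  rw [← e1, ← e2]
  rcases le_total 0 d' with h | h
  · exact key d' h (by linarith)
  · have := key (-d') (by linarith) (by linarith)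
    rw [gdist_symm]
    rwa [sub_neg_eq_add, ← sub_eq_add_neg] at this

theorem glued_eq {P : Polygon} (g1 : Geo1 P) {s : ℝ} {p q : E2} (h : P.Glued s p q) {F : E2 → ℝ}
    (hF : ∀ d : ℝ, F (P.c (s + d)) = F (P.c (s - d))) : F p = F q := by
  obtain ⟨d, -, -, ⟨h1, h2⟩ | ⟨h1, h2⟩⟩ := h
  · rw [(g1.at_iff _ _).1 h1, (g1.at_iff _ _).1 h2]; exact hF d
  · rw [(g1.at_iff _ _).1 h1, (g1.at_iff _ _).1 h2]; exact (hF d).symm

theorem glued_zero {P : Polygon} (g1 : Geo1 P) (g2 : Geo2 P) {s : ℝ} {p q : E2}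
    (h : P.Glued s p q) : P.gdist s p q = 0 := by
  obtain ⟨d, -, -, ⟨h1, h2⟩ | ⟨h1, h2⟩⟩ := h
  · rw [(g1.at_iff _ _).1 h1, (g1.at_iff _ _).1 h2]; exact gdist_link g1 g2 s d
  · rw [(g1.at_iff _ _).1 h1, (g1.at_iff _ _).1 h2, gdist_symm]; exact gdist_link g1 g2 s d

theorem chain_calib {P : Polygon} (g1 : Geo1 P) {s : ℝ} {F : E2 → ℝ}
    (hF : ∀ p ∈ P.body, ∀ q ∈ P.body, |F p - F q| ≤ dist p q)
    (hG : ∀ d : ℝ, F (P.c (s + d)) = F (P.c (s - d))) {p q : E2} {l : ℝ}
    (h : P.Chain s p q l) : |F p - F q| ≤ l := by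
  induction h with
  | seg hp hq => exact hF _ hp _ hq
  | @cons p b b' r l hp hb hg hc ih =>
    have h1 := hF p hp b hb
    have h2 := glued_eq g1 hg hG
    rw [h2] at h1
    calc |F p - F r| = |(F p - F b') + (F b' - F r)| := by ring_nf
      _ ≤ |F p - F b'| + |F b' - F r| := abs_add_le _ _
      _ ≤ dist p b + l := add_le_add h1 ih

theorem seg_ivt {P : Polygon} (g2 : Geo2 P) {F : E2 → ℝ}
    (hF : ∀ p ∈ P.body, ∀ q ∈ P.body, |F p - F q| ≤ dist p q) {y b : E2} (hy : y ∈ P.body)
    (hb : b ∈ P.body) {t : ℝ} (h1 : F b ≤ t) (h2 : t ≤ F y) :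
    ∃ p ∈ P.body, F p = t ∧ dist y p + dist p b = dist y b := by
  have hc : ContinuousOn (fun u : ℝ => F (AffineMap.lineMap b y u)) (Icc 0 1) := by
    have hFc : ContinuousOn F P.body := by
      have : LipschitzOnWith 1 F P.body := LipschitzOnWith.of_dist_le_mul (fun p hp q hq => by
        rw [Real.dist_eq, NNReal.coe_one, one_mul]; exact hF p hp q hq)
      exact this.continuousOn
    refine hFc.comp (Continuous.continuousOn (by fun_prop)) ?_
    intro u hu
    exact g2.convex.lineMap_mem hb hy hu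
  have := intermediate_value_Icc (zero_le_one (α := ℝ)) hc
  have ht : t ∈ Icc (F (AffineMap.lineMap b y (0:ℝ))) (F (AffineMap.lineMap b y (1:ℝ))) := by
    simp only [AffineMap.lineMap_apply_zero, AffineMap.lineMap_apply_one]
    exact ⟨h1, h2⟩
  obtain ⟨u, hu, hu'⟩ := this ht
  refine ⟨AffineMap.lineMap b y u, g2.convex.lineMap_mem hb hy hu, hu', ?_⟩
  rw [dist_comm y, dist_lineMap_right, dist_lineMap_left, Real.norm_of_nonneg hu.1,
    Real.norm_of_nonneg (by linarith [hu.2]), dist_comm b y]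
  ring

theorem chain_pass {P : Polygon} (g1 : Geo1 P) (g2 : Geo2 P) {s : ℝ} {F : E2 → ℝ}
    (hF : ∀ p ∈ P.body, ∀ q ∈ P.body, |F p - F q| ≤ dist p q)
    (hG : ∀ d : ℝ, F (P.c (s + d)) = F (P.c (s - d))) {y w : E2} {l t : ℝ}
    (h : P.Chain s y w l) (hw : F w < t) (hy : t < F y) :
    ∃ p ∈ P.body, F p = t ∧ P.gdist s y p + P.gdist s p w ≤ l := by
  induction h with
  | @seg y w hy0 hw0 =>
    obtain ⟨p, hp, hpt, hd⟩ := seg_ivt g2 hF hy0 hw0 hw.le hy.le
    refine ⟨p, hp, hpt, ?_⟩
    rw [← hd]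
    exact add_le_add (gdist_le_dist hy0 hp) (gdist_le_dist hp hw0)
  | @cons y b b' w l hy0 hb hg hc ih =>
    rcases le_or_gt (F b) t with hbt | hbt
    · obtain ⟨p, hp, hpt, hd⟩ := seg_ivt g2 hF hy0 hb hbt hy.le
      refine ⟨p, hp, hpt, ?_⟩
      have h1 : P.gdist s p w ≤ dist p b + l := gdist_le (.cons hp hb hg hc)
      have h2 := gdist_le_dist (s := s) hy0 hp
      linarith
    · have h3 := glued_eq g1 hg hG
      rw [h3] at hbt
      obtain ⟨p, hp, hpt, hd⟩ := ih hw hbt
      refine ⟨p, hp, hpt, ?_⟩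
      have hb' : b' ∈ P.body := hc.left_mem
      have h4 := gdist_triangle (s := s) hy0 hb hp
      have h5 := gdist_triangle (s := s) hb hb' hp
      have h6 := glued_zero g1 g2 hg
      have h7 := gdist_le_dist (s := s) hy0 hb
      linarith

theorem met (g1 : ∀ P, Geo1 P) (g2 : ∀ P, Geo2 P) (P : Polygon) (s : ℝ) : Met P s := by
  have calib : ∀ F : E2 → ℝ, (∀ p ∈ P.body, ∀ q ∈ P.body, |F p - F q| ≤ dist p q) →
      (∀ d : ℝ, F (P.c (s + d)) = F (P.c (s - d))) →
      ∀ p ∈ P.body, ∀ q ∈ P.body, |F p - F q| ≤ P.gdist s p q :=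
    fun F hF hG p hp q hq => le_gdist hp hq (fun l hl => chain_calib (g1 P) hF hG hl)
  refine ⟨gdist_nonneg, gdist_symm, fun p hp q hq r hr => gdist_triangle hp hq hr,
    fun p hp q hq => gdist_le_dist hp hq, gdist_link (g1 P) (g2 P) s, calib, ?_, ?_⟩
  · intro F hF hG y hy w hw t hwt hyt
    have hFl : LipschitzOnWith 1 F P.body := LipschitzOnWith.of_dist_le_mul (fun p hp q hq => by
      rw [Real.dist_eq, NNReal.coe_one, one_mul]; exact hF p hp q hq)
    have hFc : ContinuousOn F P.body := hFl.continuousOn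
    have hK : IsCompact (P.body ∩ F ⁻¹' {t}) :=
      (g2 P).compact.of_isClosed_subset
        (hFc.preimage_isClosed_of_isClosed (g2 P).compact.isClosed isClosed_singleton)
        inter_subset_left
    have hne : (P.body ∩ F ⁻¹' {t}).Nonempty := by
      obtain ⟨p, hp, hpt, -⟩ := chain_pass (g1 P) (g2 P) (s := s) hF hG (.seg hy hw) hwt hyt
      exact ⟨p, hp, hpt⟩
    have h1 : ContinuousOn (fun p => P.gdist s y p) P.body := by
      have : LipschitzOnWith 1 (fun p => P.gdist s y p) P.body :=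
        LipschitzOnWith.of_dist_le_mul (fun p hp q hq => by
          rw [Real.dist_eq, NNReal.coe_one, one_mul, abs_le]
          have a1 := gdist_triangle (s := s) hy hp hq
          have a2 := gdist_triangle (s := s) hy hq hp
          have a3 := gdist_le_dist (s := s) hp hq
          have a4 := gdist_le_dist (s := s) hq hp
          rw [dist_comm q p] at a4
          constructor <;> linarith)
      exact this.continuousOn
    have h2 : ContinuousOn (fun p => P.gdist s p w) P.body := by
      have : LipschitzOnWith 1 (fun p => P.gdist s p w) P.body :=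
        LipschitzOnWith.of_dist_le_mul (fun p hp q hq => by
          rw [Real.dist_eq, NNReal.coe_one, one_mul, abs_le]
          have a1 := gdist_triangle (s := s) hp hq hw
          have a2 := gdist_triangle (s := s) hq hp hw
          have a3 := gdist_le_dist (s := s) hp hq
          have a4 := gdist_le_dist (s := s) hq hp
          rw [dist_comm q p] at a4
          constructor <;> linarith)
      exact this.continuousOn
    obtain ⟨p, ⟨hp, hpt⟩, hmin⟩ := hK.exists_isMinOn hne
      ((h1.add h2).mono inter_subset_left)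
    refine ⟨p, hp, hpt, le_gdist hy hw (fun l hl => ?_)⟩
    obtain ⟨q, hq, hqt, hql⟩ := chain_pass (g1 P) (g2 P) (s := s) hF hG hl hwt hyt
    exact (hmin ⟨hq, hqt⟩).trans hql
  · intro p q η hp hq hb
    rcases le_or_gt η 0 with h | h
    · exact (min_le_right _ _).trans (h.trans (gdist_nonneg _ _))
    · have h1 : ∀ τ, η ≤ dist (P.c τ) p := by
        intro τ
        by_contra hlt
        rw [not_le] at hlt
        exact (g2 P).c_nint τ (interior_maximal hb Metric.isOpen_ball (Metric.mem_ball.2 hlt))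
      have h2 := calib (fun q => min (dist q p) η) (fun a _ b _ => by
        refine (abs_min_sub_min_le_max _ _ _ _).trans ?_
        simp only [sub_self, abs_zero, max_le_iff, dist_nonneg, and_true]
        exact abs_dist_sub_le _ _ _) (fun d => by
        show min (dist (P.c (s + d)) p) η = min (dist (P.c (s - d)) p) η
        rw [min_eq_right (h1 _), min_eq_right (h1 _)]) p hp q hq
      simp only [dist_self] at h2
      rw [min_eq_left h.le, zero_sub, abs_neg, abs_of_nonneg (le_min dist_nonneg h.le)] at h2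
      rwa [dist_comm p q]

end R984.PH
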