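import Pool.Agent.R984.PH.Stm

/-!
# Cone points and non-corner fold points are not between (pieces NB1, NB2)
-/

namespace R984.PH

open Set

theorem nb_gap {P : Polygon} (g1 : Geo1 P) (t : ℝ) : ∃ r : ℝ, 0 < r ∧
    ∀ i, ¬ (t - r < P.T i ∧ P.T i < t) ∧ ¬ (t < P.T i ∧ P.T i < t + r) := by
  obtain ⟨i, hi, hi'⟩ := g1.cover t
  obtain ⟨j, hj, hj'⟩ : ∃ j, P.T j < t ∧ t ≤ P.T (j + 1) := by
    rcases lt_or_eq_of_le hi with h | h
    · exact ⟨i, h, hi'.le⟩
    · refine ⟨i - 1, ?_, ?_⟩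
      · rw [← h]; exact g1.T_mono (by omega)
      · rw [← h]; simp
  refine ⟨min (P.T (i + 1) - t) (t - P.T j), lt_min (by linarith) (by linarith),
    fun k => ⟨?_, ?_⟩⟩
  · rintro ⟨h1, h2⟩
    have h3 : k < j + 1 := g1.T_mono.lt_iff_lt.1 (by linarith)
    have h4 : P.T k ≤ P.T j := g1.T_mono.monotone (by omega)
    have := min_le_right (P.T (i + 1) - t) (t - P.T j)
    linarith
  · rintro ⟨h1, h2⟩
    have h3 : i < k := g1.T_mono.lt_iff_lt.1 (by linarith)
    have h4 : P.T (i + 1) ≤ P.T k := g1.T_mono.monotone (by omega)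
    have := min_le_left (P.T (i + 1) - t) (t - P.T j)
    linarith

theorem nb_sep (x L : ℝ) (hL : 0 < L) :
    (∃ k : ℤ, x = k * L) ∨ ∃ r : ℝ, 0 < r ∧ ∀ k : ℤ, r ≤ |x - k * L| := by
  by_cases h : ∃ k : ℤ, x = k * L
  · exact Or.inl h
  right
  have h1 : ((⌊x / L⌋ : ℤ) : ℝ) * L ≤ x := by
    have := Int.floor_le (x / L)
    rwa [le_div_iff₀ hL] at this
  have h2 : x < (((⌊x / L⌋ : ℤ) : ℝ) + 1) * L := by
    have := Int.lt_floor_add_one (x / L)
    rwa [div_lt_iff₀ hL] at this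
  generalize ⌊x / L⌋ = m at h1 h2
  have h3 : (m : ℝ) * L < x := lt_of_le_of_ne h1 (fun h' => h ⟨m, h'.symm⟩)
  refine ⟨min (x - m * L) ((m + 1) * L - x), lt_min (by linarith) (by linarith), fun k => ?_⟩
  rcases le_or_gt k m with hk | hk
  · have h4 : (k : ℝ) * L ≤ m * L :=
      mul_le_mul_of_nonneg_right (by exact_mod_cast hk) hL.le
    rw [le_abs]; left
    have := min_le_left (x - m * L) ((m + 1) * L - x)
    linarith
  · have h4 : ((m : ℝ) + 1) * L ≤ k * L :=
      mul_le_mul_of_nonneg_right (by exact_mod_cast hk) hL.le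
    rw [le_abs]; right
    have := min_le_right (x - m * L) ((m + 1) * L - x)
    linarith

theorem nb_link {P : Polygon} {s : ℝ} (met : Met P s) (t u : ℝ) :
    P.gdist s (P.c (t + u)) (P.c (2 * s - t - u)) = 0 := by
  have h := met.link (t + u - s)
  rw [show s + (t + u - s) = t + u by ring, show s - (t + u - s) = 2 * s - t - u by ring] at h
  exact h

/-- The two witnesses at distance `τ` from the class of `c t`. -/
theorem nb_core {P : Polygon} (g1 : Geo1 P) (g2 : Geo2 P) (s t : ℝ) (met : Met P s)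
    (cal : St_CAL)
    (chord : ∀ r > 0, ∃ ρ > 0, ∀ a b, (∀ k : ℤ, r ≤ |a - b - k * P.L|) →
      ρ ≤ dist (P.c a) (P.c b))
    (hb : Between P s (P.c t)) :
    ∃ τ0 : ℝ, 0 < τ0 ∧ ∀ τ, 0 < τ → τ < τ0 → ∃ p ∈ P.body, ∃ q ∈ P.body,
      (dist p (P.c t) = τ ∨ dist p (P.c (2 * s - t)) = τ) ∧
      (dist q (P.c t) = τ ∨ dist q (P.c (2 * s - t)) = τ) ∧ 2 * τ ≤ P.gdist s p q := by
  obtain ⟨y, hy, z, hz, hyw, hwz, hyz⟩ := hb
  obtain ⟨r1, hr1, h1⟩ := nb_gap g1 t
  obtain ⟨r2, hr2, h2⟩ := nb_gap g1 (2 * s - t)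
  obtain ⟨r3, hr3, h3⟩ : ∃ r3 : ℝ, 0 < r3 ∧ ((∀ k : ℤ, 2 * r3 ≤ |2 * s - 2 * t - k * P.L|) ∨
      ∃ k : ℤ, 2 * s - 2 * t = k * P.L) := by
    rcases nb_sep (2 * s - 2 * t) P.L g1.Lpos with h | ⟨r, hr, h⟩
    · exact ⟨1, one_pos, Or.inr h⟩
    · exact ⟨r / 2, by linarith, Or.inl fun k => by linarith [h k]⟩
  obtain ⟨r, hr, hr1', hr2', hr3'⟩ : ∃ r : ℝ, 0 < r ∧ r ≤ r1 ∧ r ≤ r2 ∧ r ≤ r3 :=
    ⟨min r1 (min r2 r3), lt_min hr1 (lt_min hr2 hr3), min_le_left _ _,
      (min_le_right _ _).trans (min_le_left _ _), (min_le_right _ _).trans (min_le_right _ _)⟩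
  obtain ⟨ρ0, hρ0, hch⟩ := chord r hr
  obtain ⟨ρ, hρ, hρ1, hρ2⟩ : ∃ ρ : ℝ, 0 < ρ ∧ ρ ≤ ρ0 ∧ ρ ≤ r :=
    ⟨min ρ0 r, lt_min hρ0 hr, min_le_left _ _, min_le_right _ _⟩
  obtain ⟨hinv, hlip⟩ := cal P s t r ρ hr hρ hρ2
    (fun i => ⟨fun h => (h1 i).1 ⟨by linarith [h.1], h.2⟩,
      fun h => (h1 i).2 ⟨h.1, by linarith [h.2]⟩,
      fun h => (h2 i).1 ⟨by linarith [h.1], h.2⟩,
      fun h => (h2 i).2 ⟨h.1, by linarith [h.2]⟩⟩)
    (h3.imp (fun h k => by linarith [h k]) id)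
    (fun a b hab => hρ1.trans (hch a b hab))
  have hw : P.c t ∈ P.body := g2.c_mem t
  have hww : P.gdist s (P.c (2 * s - t)) (P.c t) = 0 := by
    rw [met.symm]
    have := nb_link met t 0
    simpa using this
  -- the calibrating function
  obtain ⟨F, hF⟩ : ∃ F : E2 → ℝ, ∀ p, F p =
      min ρ (min (dist p (P.c t)) (dist p (P.c (2 * s - t)))) := ⟨_, fun _ => rfl⟩
  have hFl : ∀ p ∈ P.body, ∀ q ∈ P.body, |F p - F q| ≤ P.gdist s p q := by
    intro p hp q hq
    rw [hF, hF]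
    exact hlip p hp q hq
  have hFd : ∀ p ∈ P.body, ∀ q ∈ P.body, |F p - F q| ≤ dist p q := fun p hp q hq =>
    (hFl p hp q hq).trans (met.le_dist p hp q hq)
  have hFi : ∀ d : ℝ, F (P.c (s + d)) = F (P.c (s - d)) := by
    intro d
    rw [hF, hF]
    exact hinv d
  have hFw : F (P.c t) = 0 := by
    rw [hF, dist_self, min_eq_left dist_nonneg, min_eq_right hρ.le]
  have hFpos : ∀ y ∈ P.body, 0 < P.gdist s y (P.c t) → 0 < F y := by
    intro y hy hyw
    rw [hF]
    refine lt_min hρ (lt_min ?_ ?_)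
    · by_contra h
      have h0 : dist y (P.c t) = 0 := le_antisymm (not_lt.1 h) dist_nonneg
      have := met.le_dist y hy _ hw
      linarith
    · by_contra h
      have h0 : dist y (P.c (2 * s - t)) = 0 := le_antisymm (not_lt.1 h) dist_nonneg
      rw [dist_eq_zero] at h0
      rw [h0, hww] at hyw
      exact lt_irrefl _ hyw
  have hFy := hFpos y hy hyw
  have hzw : 0 < P.gdist s z (P.c t) := by rw [met.symm]; exact hwz
  have hFz := hFpos z hz hzw
  refine ⟨min ρ (min (F y) (F z)), lt_min hρ (lt_min hFy hFz), fun τ hτ hτ' => ?_⟩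
  have hτρ : τ < ρ := hτ'.trans_le (min_le_left _ _)
  have hτy : τ < F y := hτ'.trans_le ((min_le_right _ _).trans (min_le_left _ _))
  have hτz : τ < F z := hτ'.trans_le ((min_le_right _ _).trans (min_le_right _ _))
  obtain ⟨p, hp, hFp, hyp⟩ := met.pass F hFd hFi y hy _ hw τ (by rw [hFw]; exact hτ) hτy
  obtain ⟨q, hq, hFq, hzq⟩ := met.pass F hFd hFi z hz _ hw τ (by rw [hFw]; exact hτ) hτz
  have hor : ∀ p, F p = τ → dist p (P.c t) = τ ∨ dist p (P.c (2 * s - t)) = τ := by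
    intro p hp
    rw [hF] at hp
    rcases min_choice ρ (min (dist p (P.c t)) (dist p (P.c (2 * s - t)))) with h | h
    · rw [h] at hp; exact absurd hp (ne_of_gt hτρ)
    · rw [h] at hp
      rcases min_choice (dist p (P.c t)) (dist p (P.c (2 * s - t))) with h' | h'
      · rw [h'] at hp; exact Or.inl hp
      · rw [h'] at hp; exact Or.inr hp
  refine ⟨p, hp, q, hq, hor p hFp, hor q hFq, ?_⟩
  have hpw : τ ≤ P.gdist s p (P.c t) := by
    have := (le_abs_self _).trans (hFl p hp _ hw)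
    rw [hFp, hFw] at this
    linarith
  have hqw : τ ≤ P.gdist s q (P.c t) := by
    have := (le_abs_self _).trans (hFl q hq _ hw)
    rw [hFq, hFw] at this
    linarith
  have t1 := met.triangle y hy p hp z hz
  have t2 := met.triangle p hp q hq z hz
  have e1 := met.symm q z
  have e2 := met.symm (P.c t) z
  linarith

theorem nb_opp {w p q : E2} {τ : ℝ} (hp : dist p w = τ) (hq : dist q w = τ)
    (hpq : 2 * τ ≤ dist p q) : p + q = (2 : ℝ) • w := by
  have h1 : ‖p - w‖ = τ := by rw [← dist_eq_norm]; exact hp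
  have h2 : ‖q - w‖ = τ := by rw [← dist_eq_norm]; exact hq
  have h3 : 2 * τ ≤ ‖(p - w) - (q - w)‖ := by
    rw [show (p - w) - (q - w) = p - q by abel, ← dist_eq_norm]; exact hpq
  have h4 := parallelogram_law_with_norm ℝ (p - w) (q - w)
  have hτ : 0 ≤ τ := by rw [← h1]; exact norm_nonneg _
  have h5 : ‖(p - w) + (q - w)‖ * ‖(p - w) + (q - w)‖ ≤ 0 := by
    rw [h1, h2] at h4
    nlinarith
  have h6 : ‖(p - w) + (q - w)‖ = 0 := by
    have := norm_nonneg ((p - w) + (q - w))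
    nlinarith
  have h7 : (p - w) + (q - w) = 0 := norm_eq_zero.1 h6
  rw [two_smul]
  have : p + q = ((p - w) + (q - w)) + (w + w) := by abel
  rw [this, h7, zero_add]

theorem nb_near {p w g : E2} {τ u : ℝ} (hτ : 0 < τ) (hg : ‖g‖ = 1) (hp : dist p w = τ) :
    dist p (w + u • g) ≤ τ - u * inner ℝ (p - w) g / τ + u ^ 2 / (2 * τ) := by
  have h1 : ‖p - w‖ = τ := by rw [← dist_eq_norm]; exact hp
  have h2 : dist p (w + u • g) ^ 2 = τ ^ 2 - 2 * (u * inner ℝ (p - w) g) + u ^ 2 := by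
    rw [dist_eq_norm, show p - (w + u • g) = (p - w) - u • g by abel, norm_sub_sq_real, h1,
      inner_smul_right, norm_smul, hg, Real.norm_eq_abs, mul_one, sq_abs]
  have h3 : (dist p (w + u • g) - τ) ^ 2 ≥ 0 := sq_nonneg _
  have h4 : dist p (w + u • g) * (2 * τ) ≤ 2 * τ ^ 2 - 2 * (u * inner ℝ (p - w) g) + u ^ 2 := by
    nlinarith
  have h5 : dist p (w + u • g) ≤ (2 * τ ^ 2 - 2 * (u * inner ℝ (p - w) g) + u ^ 2) / (2 * τ) := by
    rw [le_div_iff₀ (by linarith)]; exact h4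
  refine h5.trans (le_of_eq ?_)
  field_simp

/-- Routing through glued points near `w` and `w'`. -/
theorem nb_route {P : Polygon} {s : ℝ} (met : Met P s) {w w' g g' p q : E2} {δ τ : ℝ}
    (hδ : 0 < δ) (hg : ‖g‖ = 1) (hg' : ‖g'‖ = 1)
    (hl : ∀ u, 0 ≤ u → u ≤ δ → w + u • g ∈ P.body ∧ w' + u • g' ∈ P.body ∧
      P.gdist s (w + u • g) (w' + u • g') = 0)
    (hτ : 0 < τ) (hp : p ∈ P.body) (hq : q ∈ P.body) (hpw : dist p w = τ) (hqw : dist q w' = τ)
    (hpos : 0 < inner ℝ (p - w) g + inner ℝ (q - w') g') : P.gdist s p q < 2 * τ := by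
  obtain ⟨u, hu, huδ, hu2⟩ : ∃ u : ℝ, 0 < u ∧ u ≤ δ ∧
      u < inner ℝ (p - w) g + inner ℝ (q - w') g' :=
    ⟨min δ ((inner ℝ (p - w) g + inner ℝ (q - w') g') / 2), lt_min hδ (by linarith),
      min_le_left _ _, (min_le_right _ _).trans_lt (by linarith)⟩
  obtain ⟨hb, hb', hbb⟩ := hl u hu.le huδ
  have h1 := nb_near (u := u) hτ hg hpw
  have h2 := nb_near (u := u) hτ hg' hqw
  have h3 := met.triangle p hp _ hb q hq
  have h4 := met.triangle _ hb _ hb' q hq
  have h5 := met.le_dist p hp _ hb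
  have h6 := met.le_dist q hq _ hb'
  have h7 := met.symm q (w' + u • g')
  have h8 : P.gdist s p q ≤ 2 * τ - (u * inner ℝ (p - w) g / τ + u * inner ℝ (q - w') g' / τ) +
      u ^ 2 / τ := by
    have : u ^ 2 / (2 * τ) + u ^ 2 / (2 * τ) = u ^ 2 / τ := by field_simp; ring
    linarith
  have h9 : u * inner ℝ (p - w) g / τ + u * inner ℝ (q - w') g' / τ - u ^ 2 / τ > 0 := by
    have : u * inner ℝ (p - w) g / τ + u * inner ℝ (q - w') g' / τ - u ^ 2 / τ =
        u * (inner ℝ (p - w) g + inner ℝ (q - w') g' - u) / τ := by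
      field_simp
    rw [this]
    exact div_pos (mul_pos hu (by linarith)) hτ
  linarith

theorem nb1 (g1 : ∀ P, Geo1 P) (g2 : ∀ P, Geo2 P) (met : ∀ P s, Met P s) (cal : St_CAL)
    (chord : ∀ P : Polygon, ∀ r > 0, ∃ ρ > 0, ∀ a b, (∀ k : ℤ, r ≤ |a - b - k * P.L|) →
      ρ ≤ dist (P.c a) (P.c b)) : St_NB1 := by
  intro P s i hi hb
  have hm := met P s
  have G1 := g1 P
  have G2 := g2 P
  rw [← G1.c_T i] at hb
  obtain ⟨τ0, hτ0, H⟩ := nb_core G1 G2 s (P.T i) hm cal (chord P) hb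
  obtain ⟨e, f, δ, he, hf, hδ, hc, hin⟩ := G2.corner i
  obtain ⟨e', δ', he', hδ', hc', hed⟩ := G2.edge (2 * s - P.T i) hi
  obtain ⟨τ, hτ, h0, h1, h2⟩ : ∃ τ : ℝ, 0 < τ ∧ τ < τ0 ∧ τ ≤ δ ∧ τ ≤ δ' :=
    ⟨min (τ0 / 2) (min δ δ'), lt_min (by linarith) (lt_min hδ hδ'),
      (min_le_left _ _).trans_lt (by linarith), (min_le_right _ _).trans (min_le_left _ _),
      (min_le_right _ _).trans (min_le_right _ _)⟩
  obtain ⟨p, hp, q, hq, hpd, hqd, hpq⟩ := H τ hτ h0
  rw [G1.c_T i] at hpd hqd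
  -- direction facts
  have hef : ‖e - f‖ < 2 := by
    have hne : P.v (i + 1) ≠ P.v i := by
      intro h
      have := G1.lenpos i
      unfold Polygon.len at this
      rw [h, dist_self] at this
      exact lt_irrefl _ this
    have h3 := hin _ (G2.v_mem (i + 1)) hne
    have h4 : e + f ≠ 0 := by
      intro h
      rw [h, inner_zero_right] at h3
      exact lt_irrefl _ h3
    have h5 := parallelogram_law_with_norm ℝ e f
    rw [he, hf] at h5
    have h6 : 0 < ‖e + f‖ := norm_pos_iff.2 h4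
    nlinarith [norm_nonneg (e - f)]
  -- glued pairs
  have hl1 : ∀ u, 0 ≤ u → u ≤ min δ δ' → P.v i + u • e ∈ P.body ∧
      P.c (2 * s - P.T i) + u • (-e') ∈ P.body ∧
      P.gdist s (P.v i + u • e) (P.c (2 * s - P.T i) + u • (-e')) = 0 := by
    intro u hu hu'
    have k1 := (hc u hu (hu'.trans (min_le_left _ _))).1
    have k2 := hc' (-u) (by rw [abs_neg, abs_of_nonneg hu]; exact hu'.trans (min_le_right _ _))
    rw [neg_smul, ← smul_neg] at k2
    rw [← k1, ← k2]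
    refine ⟨G2.c_mem _, G2.c_mem _, ?_⟩
    have := nb_link hm (P.T i) u
    rwa [← sub_eq_add_neg]
  have hl2 : ∀ u, 0 ≤ u → u ≤ min δ δ' → P.v i + u • f ∈ P.body ∧
      P.c (2 * s - P.T i) + u • e' ∈ P.body ∧
      P.gdist s (P.v i + u • f) (P.c (2 * s - P.T i) + u • e') = 0 := by
    intro u hu hu'
    have k1 := (hc u hu (hu'.trans (min_le_left _ _))).2
    have k2 := hc' u (by rw [abs_of_nonneg hu]; exact hu'.trans (min_le_right _ _))
    rw [← k1, ← k2]
    refine ⟨G2.c_mem _, G2.c_mem _, ?_⟩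
    have := nb_link hm (P.T i) (-u)
    rw [sub_neg_eq_add, ← sub_eq_add_neg] at this
    exact this
  have hne' : ‖-e'‖ = 1 := by rw [norm_neg]; exact he'
  -- mixed case
  have hmix : ∀ p q, p ∈ P.body → q ∈ P.body → dist p (P.v i) = τ →
      dist q (P.c (2 * s - P.T i)) = τ → P.gdist s p q < 2 * τ := by
    intro p q hp hq hpd hqd
    have hpne : p ≠ P.v i := by
      intro h
      rw [h, dist_self] at hpd
      exact absurd hpd (ne_of_lt hτ)
    have h3 := hin p hp hpne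
    rw [inner_add_right] at h3
    have hδδ : 0 < min δ δ' := lt_min hδ hδ'
    rcases lt_or_ge 0 (inner ℝ (p - P.v i) e + inner ℝ (q - P.c (2 * s - P.T i)) (-e')) with h | h
    · exact nb_route hm hδδ he hne' hl1 hτ hp hq hpd hqd h
    · refine nb_route hm hδδ hf he' hl2 hτ hp hq hpd hqd ?_
      rw [inner_neg_right] at h
      linarith
  rcases hpd with hpd | hpd <;> rcases hqd with hqd | hqd
  · -- both near the corner
    have h3 := nb_opp hpd hqd (hpq.trans (hm.le_dist p hp q hq))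
    have hpne : p ≠ P.v i := by
      intro h
      rw [h, dist_self] at hpd
      exact absurd hpd (ne_of_lt hτ)
    have hqne : q ≠ P.v i := by
      intro h
      rw [h, dist_self] at hqd
      exact absurd hqd (ne_of_lt hτ)
    have h4 := hin p hp hpne
    have h5 := hin q hq hqne
    have h6 : inner ℝ (p - P.v i) (e + f) + inner ℝ (q - P.v i) (e + f) = 0 := by
      rw [← inner_add_left, show p - P.v i + (q - P.v i) = (p + q) - (2 : ℝ) • P.v i by
        rw [two_smul]; abel, h3, sub_self, inner_zero_left]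
    linarith
  · have := hmix p q hp hq hpd hqd
    linarith
  · have := hmix q p hq hp hqd hpd
    have e1 := hm.symm p q
    linarith
  · -- both near the partner
    have h3 := nb_opp hpd hqd (hpq.trans (hm.le_dist p hp q hq))
    obtain ⟨u, hu⟩ := hed p hp q hq h3
    have hq' : q = P.c (2 * s - P.T i) + (-u) • e' := by
      have : q = (p + q) - p := by abel
      rw [this, h3, hu, two_smul, neg_smul]
      abel
    have hau : |u| = τ := by
      rw [← hpd, hu, dist_eq_norm, add_sub_cancel_left, norm_smul, he', mul_one,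
        Real.norm_eq_abs]
    have k1 := hc' u (by rw [hau]; exact h2)
    have k2 := hc' (-u) (by rw [abs_neg, hau]; exact h2)
    rw [← k1] at hu
    rw [← k2] at hq'
    have l1 := nb_link hm (P.T i) (-u)
    have l2 := nb_link hm (P.T i) u
    rw [sub_neg_eq_add, ← hu] at l1
    rw [sub_eq_add_neg, ← hq'] at l2
    -- compare through the corner
    have m1 := G2.c_mem (P.T i + u)
    have m2 := G2.c_mem (P.T i + -u)
    have t1 := hm.triangle p hp _ m2 q hq
    have t2 := hm.triangle _ m2 _ m1 q hq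
    have e1 := hm.symm p (P.c (P.T i + -u))
    have d1 := hm.le_dist _ m2 _ m1
    have d2 : dist (P.c (P.T i + -u)) (P.c (P.T i + u)) = τ * ‖e - f‖ := by
      rcases le_total 0 u with h | h
      · have hu' : u = τ := by rw [← hau, abs_of_nonneg h]
        have k := hc u h (by rw [hu']; exact h1)
        rw [← sub_eq_add_neg, k.1, k.2, dist_eq_norm, hu', ← norm_neg,
          show -(P.v i + τ • f - (P.v i + τ • e)) = τ • (e - f) by rw [smul_sub]; abel,
          norm_smul, Real.norm_eq_abs, abs_of_pos hτ]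
      · have hu' : -u = τ := by rw [← hau, abs_of_nonpos h]
        have k := hc (-u) (by linarith) (by rw [hu']; exact h1)
        rw [sub_neg_eq_add] at k
        rw [k.1, k.2, dist_eq_norm, hu',
          show (P.v i + τ • e - (P.v i + τ • f)) = τ • (e - f) by rw [smul_sub]; abel,
          norm_smul, Real.norm_eq_abs, abs_of_pos hτ]
    have : τ * ‖e - f‖ < τ * 2 := mul_lt_mul_of_pos_left hef hτ
    linarith

theorem nb2 (g1 : ∀ P, Geo1 P) (g2 : ∀ P, Geo2 P) (met : ∀ P s, Met P s) (cal : St_CAL)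
    (chord : ∀ P : Polygon, ∀ r > 0, ∃ ρ > 0, ∀ a b, (∀ k : ℤ, r ≤ |a - b - k * P.L|) →
      ρ ≤ dist (P.c a) (P.c b)) : St_NB2 := by
  intro P s t ht hk hb
  have hm := met P s
  have G1 := g1 P
  have G2 := g2 P
  obtain ⟨τ0, hτ0, H⟩ := nb_core G1 G2 s t hm cal (chord P) hb
  obtain ⟨e, δ, he, hδ, hc, hed⟩ := G2.edge t ht
  obtain ⟨τ, hτ, h0, h1⟩ : ∃ τ : ℝ, 0 < τ ∧ τ < τ0 ∧ τ ≤ δ :=
    ⟨min (τ0 / 2) δ, lt_min (by linarith) hδ,
      (min_le_left _ _).trans_lt (by linarith), (min_le_right _ _)⟩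
  obtain ⟨p, hp, q, hq, hpd, hqd, hpq⟩ := H τ hτ h0
  obtain ⟨k, hk⟩ := hk
  have hper : ∀ x, P.c (x + k * P.L) = P.c x := by
    have : Function.Periodic P.c P.L := G1.c_per
    exact this.int_mul k
  have hw : P.c (2 * s - t) = P.c t := by
    rw [← hper t]; congr 1; linarith
  rw [hw, or_self] at hpd hqd
  have h3 := nb_opp hpd hqd (hpq.trans (hm.le_dist p hp q hq))
  obtain ⟨u, hu⟩ := hed p hp q hq h3
  have hq' : q = P.c t + (-u) • e := by
    have : q = (p + q) - p := by abel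
    rw [this, h3, hu, two_smul, neg_smul]
    abel
  have hau : |u| = τ := by
    rw [← hpd, hu, dist_eq_norm, add_sub_cancel_left, norm_smul, he, mul_one,
      Real.norm_eq_abs]
  have k1 := hc u (by rw [hau]; exact h1)
  have k2 := hc (-u) (by rw [abs_neg, hau]; exact h1)
  rw [← k1] at hu
  rw [← k2] at hq'
  have l1 := nb_link hm t u
  have l2 : P.c (2 * s - t - u) = P.c (t + -u) := by
    rw [← hper (t + -u)]; congr 1; linarith
  rw [l2, ← hu, ← hq'] at l1
  linarith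

end R984.PH
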