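import Pool.Agent.R984.PH.Stm

/-! NET, by helper971. -/

namespace R984.PH

open Set

theorem net (g2 : ∀ P, Geo2 P) (met : ∀ P s, Met P s) : St_NET := by
  classical
  intro P s0 A h ε hA hiso hε
  obtain ⟨N, hNsub, hNfin, hNcov⟩ := (g2 P).compact.finite_cover_balls (show 0 < ε / 4 by linarith)
  have hb : ∀ p ∈ P.body, ∃ a ∈ N, dist p a < ε / 4 := by
    intro p hp
    have := hNcov hp
    simp only [mem_iUnion, Metric.mem_ball, exists_prop] at this
    exact this
  have : Finite N := hNfin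
  have hex : ∀ (s : ℝ) (a : N), ∃ b : N, s ∈ A → dist (h s a) b < ε / 4 := by
    intro s a
    by_cases hs : s ∈ A
    · obtain ⟨b, hb1, hb2⟩ := hb (h s a) ((hiso s hs).maps (hNsub a.2))
      exact ⟨⟨b, hb1⟩, fun _ => hb2⟩
    · exact ⟨a, fun h' => absurd h' hs⟩
  choose F hF using hex
  obtain ⟨s, hs, s', hs', hne, hFF⟩ := hA.exists_ne_map_eq_of_mapsTo
    (f := F) (t := univ) (fun _ _ => mem_univ _) finite_univ
  refine ⟨s, hs, s', hs', hne, fun p hp => ?_⟩
  obtain ⟨a, ha, hpa⟩ := hb p hp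
  have haB := hNsub ha
  have m1 := (hiso s hs).maps hp
  have m2 := (hiso s hs).maps haB
  have m3 := (hiso s' hs').maps haB
  have m4 := (hiso s' hs').maps hp
  set b : N := F s ⟨a, ha⟩ with hbdef
  have hbB : (b : E2) ∈ P.body := hNsub b.2
  have d1 : dist (h s a) b < ε / 4 := hF s ⟨a, ha⟩ hs
  have d2 : dist (h s' a) b < ε / 4 := by
    have := hF s' ⟨a, ha⟩ hs'
    rw [← hFF] at this
    exact this
  have e1 : P.gdist s0 (h s p) (h s a) ≤ ε / 4 := by
    rw [(hiso s hs).iso p hp a haB]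
    exact ((met P s).le_dist p hp a haB).trans hpa.le
  have e4 : P.gdist s0 (h s' a) (h s' p) ≤ ε / 4 := by
    rw [(hiso s' hs').iso a haB p hp, (met P s').symm]
    exact ((met P s').le_dist p hp a haB).trans hpa.le
  have e2 : P.gdist s0 (h s a) b ≤ ε / 4 := ((met P s0).le_dist _ m2 _ hbB).trans d1.le
  have e3 : P.gdist s0 b (h s' a) ≤ ε / 4 := by
    rw [(met P s0).symm]
    exact ((met P s0).le_dist _ m3 _ hbB).trans d2.le
  have t1 := (met P s0).triangle (h s p) m1 (h s a) m2 (h s' p) m4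
  have t2 := (met P s0).triangle (h s a) m2 b hbB (h s' p) m4
  have t3 := (met P s0).triangle b hbB (h s' a) m3 (h s' p) m4
  linarith

end R984.PH
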