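import Pool.Agent.R984.PH.Cal

/-! PHI: points that are not special lie between two others. -/

namespace R984.PH

open Set

theorem disc {P : Polygon} (g1 : Geo1 P) (x : ℝ) : ∃ r > 0, ∀ i,
    ¬ (x - r < P.T i ∧ P.T i < x) ∧ ¬ (x < P.T i ∧ P.T i < x + r) := by
  obtain ⟨i, h1, h2⟩ := g1.cover x
  have hm := g1.T_mono
  have h3 : P.T (i - 1) < P.T i := hm (by omega)
  rcases h1.eq_or_lt with h | h
  · refine ⟨min (x - P.T (i - 1)) (P.T (i + 1) - x), lt_min (by linarith) (by linarith), ?_⟩
    intro j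
    constructor
    · rintro ⟨a, b⟩
      have a' : P.T (i - 1) < P.T j := by
        have := min_le_left (x - P.T (i - 1)) (P.T (i + 1) - x)
        linarith
      rw [← h] at b
      have := hm.lt_iff_lt.1 a'
      have := hm.lt_iff_lt.1 b
      omega
    · rintro ⟨a, b⟩
      have a' : P.T j < P.T (i + 1) := by
        have := min_le_right (x - P.T (i - 1)) (P.T (i + 1) - x)
        linarith
      rw [← h] at a
      have := hm.lt_iff_lt.1 a'
      have := hm.lt_iff_lt.1 a
      omega
  · refine ⟨min (x - P.T i) (P.T (i + 1) - x), lt_min (by linarith) (by linarith), ?_⟩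
    intro j
    constructor
    · rintro ⟨a, b⟩
      have a' : P.T i < P.T j := by
        have := min_le_left (x - P.T i) (P.T (i + 1) - x)
        linarith
      have := hm.lt_iff_lt.1 a'
      have := hm.lt_iff_lt.1 (b.trans h2)
      omega
    · rintro ⟨a, b⟩
      have a' : P.T j < P.T (i + 1) := by
        have := min_le_right (x - P.T i) (P.T (i + 1) - x)
        linarith
      have := hm.lt_iff_lt.1 a'
      have := hm.lt_iff_lt.1 (h.trans a)
      omega

theorem sepL {P : Polygon} (g1 : Geo1 P) (x : ℝ) (hx : ∀ k : ℤ, x ≠ k * P.L) :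
    ∃ r > 0, ∀ k : ℤ, r ≤ |x - k * P.L| := by
  have hL := g1.Lpos
  set m := ⌊x / P.L⌋ with hm
  have h1 : (m : ℝ) * P.L ≤ x := by
    have := Int.floor_le (x / P.L)
    rwa [le_div_iff₀ hL] at this
  have h2 : x < (m + 1) * P.L := by
    have := Int.lt_floor_add_one (x / P.L)
    rwa [div_lt_iff₀ hL] at this
  have h1' : (m : ℝ) * P.L < x := lt_of_le_of_ne h1 (fun h => hx m h.symm)
  refine ⟨min (x - m * P.L) ((m + 1) * P.L - x), lt_min (by linarith) (by linarith), ?_⟩
  intro k
  rcases le_or_gt k m with hk | hk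
  · have : (k : ℝ) ≤ m := by exact_mod_cast hk
    have h3 : (k : ℝ) * P.L ≤ m * P.L := by nlinarith
    refine (min_le_left _ _).trans ?_
    refine le_trans ?_ (le_abs_self _)
    linarith
  · have : (m : ℝ) + 1 ≤ k := by exact_mod_cast hk
    have h3 : ((m : ℝ) + 1) * P.L ≤ k * P.L := by nlinarith
    refine (min_le_right _ _).trans ?_
    refine le_trans ?_ (neg_le_abs _)
    linarith

theorem phi (g1 : ∀ P, Geo1 P) (g2 : ∀ P, Geo2 P) (P : Polygon) (s : ℝ) (w : E2)
    (hw : w ∈ P.body) (h : ∀ t, w = P.c t → (∀ j, t ≠ P.T j) ∧ (∀ j, 2 * s - t ≠ P.T j) ∧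
      ∀ k : ℤ, 2 * s - 2 * t ≠ k * P.L) : Between P s w := by
  have M := met g1 g2 P s
  have fin : ∀ y ∈ P.body, ∀ z ∈ P.body, ∀ u : ℝ, 0 < u → P.gdist s y w ≤ u →
      P.gdist s w z ≤ u → 2 * u ≤ P.gdist s y z → Between P s w := by
    intro y hy z hz u hu h1 h2 h3
    have h4 := M.triangle y hy w hw z hz
    exact ⟨y, hy, z, hz, by linarith, by linarith, by linarith⟩
  rcases (g2 P).bd w hw with hi | ⟨t, ht⟩
  · obtain ⟨η, hη, hb⟩ := Metric.isOpen_iff.1 isOpen_interior w hi
    have hb' : Metric.ball w η ⊆ P.body := hb.trans interior_subset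
    set e : E2 := EuclideanSpace.single 0 (η / 4) with he
    have hen : ‖e‖ = η / 4 := by
      rw [he, EuclideanSpace.norm_single, Real.norm_of_nonneg (by positivity)]
    have hy : w + e ∈ P.body := hb' (by
      rw [Metric.mem_ball, dist_eq_norm, add_sub_cancel_left, hen]; linarith)
    have hz : w - e ∈ P.body := hb' (by
      rw [Metric.mem_ball, dist_eq_norm, show w - e - w = -e by abel, norm_neg, hen]; linarith)
    have hyw : dist (w + e) w = η / 4 := by rw [dist_eq_norm, add_sub_cancel_left, hen]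
    have hwz : dist w (w - e) = η / 4 := by
      rw [dist_eq_norm, show w - (w - e) = e by abel, hen]
    have hyz : dist (w + e) (w - e) = η / 2 := by
      rw [dist_eq_norm, show w + e - (w - e) = (2 : ℝ) • e by module, norm_smul, hen]
      norm_num; ring
    have h3 := M.loc (w + e) (w - e) (3 * η / 4) hy hz (by
      refine Subset.trans (Metric.ball_subset_ball' ?_) hb'
      rw [hyw]; linarith)
    rw [hyz, min_eq_left (by linarith)] at h3
    refine fin _ hy _ hz (η / 4) (by positivity) ?_ ?_ (by linarith)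
    · rw [← hyw]; exact M.le_dist _ hy _ hw
    · rw [← hwz]; exact M.le_dist _ hw _ hz
  · obtain ⟨h1, h2, h3⟩ := h t ht
    obtain ⟨r1, hr1, d1⟩ := disc (g1 P) t
    obtain ⟨r2, hr2, d2⟩ := disc (g1 P) (2 * s - t)
    obtain ⟨r3, hr3, d3⟩ := sepL (g1 P) (2 * s - 2 * t) h3
    have d1' : ∀ i, ¬ (t - r1 < P.T i ∧ P.T i < t + r1) := by
      rintro i ⟨a, b⟩
      rcases lt_trichotomy (P.T i) t with h | h | h
      · exact (d1 i).1 ⟨a, h⟩
      · exact h1 i h.symm
      · exact (d1 i).2 ⟨h, b⟩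
    have d2' : ∀ i, ¬ (2 * s - t - r2 < P.T i ∧ P.T i < 2 * s - t + r2) := by
      rintro i ⟨a, b⟩
      rcases lt_trichotomy (P.T i) (2 * s - t) with h | h | h
      · exact (d2 i).1 ⟨a, h⟩
      · exact h2 i h.symm
      · exact (d2 i).2 ⟨h, b⟩
    obtain ⟨r, hr, e1, e2, e3⟩ : ∃ r > 0, 4 * r ≤ r1 ∧ 4 * r ≤ r2 ∧ 4 * r ≤ r3 := by
      refine ⟨min (min r1 r2) r3 / 4, by positivity, ?_, ?_, ?_⟩
      · have := min_le_left (min r1 r2) r3
        have := min_le_left r1 r2
        linarith
      · have := min_le_left (min r1 r2) r3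
        have := min_le_right r1 r2
        linarith
      · have := min_le_right (min r1 r2) r3
        linarith
    obtain ⟨ρ0, hρ0, hch0⟩ := chord g1 g2 P r hr
    obtain ⟨ρ, hρ, hρr, hch⟩ : ∃ ρ > 0, ρ ≤ r ∧
        ∀ a b, (∀ k : ℤ, r ≤ |a - b - k * P.L|) → ρ ≤ dist (P.c a) (P.c b) :=
      ⟨min ρ0 r, lt_min hρ0 hr, min_le_right _ _, fun a b hab =>
        (min_le_left _ _).trans (hch0 a b hab)⟩
    set u := ρ / 4 with hu
    have hu0 : 0 < u := by positivity
    have hC := (cal g1 g2 P s (t + u) r ρ hr hρ hρr (fun i => by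
      refine ⟨fun h => d1' i ⟨by linarith [h.1], by linarith [h.2]⟩,
        fun h => d1' i ⟨by linarith [h.1], by linarith [h.2]⟩,
        fun h => d2' i ⟨by linarith [h.1], by linarith [h.2]⟩,
        fun h => d2' i ⟨by linarith [h.1], by linarith [h.2]⟩⟩) (Or.inl (fun k => by
        have := d3 k
        have h5 := abs_sub_abs_le_abs_sub (2 * s - 2 * t - k * P.L) (2 * u)
        rw [abs_of_pos (show 0 < 2 * u by positivity)] at h5
        rw [show 2 * s - 2 * (t + u) - k * P.L = 2 * s - 2 * t - k * P.L - 2 * u by ring]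
        linarith)) hch).2
    have hC' := hC (P.c (t + u)) ((g2 P).c_mem _) (P.c (t - u)) ((g2 P).c_mem _)
    rw [dist_self, min_eq_left dist_nonneg, min_eq_right hρ.le, zero_sub, abs_neg] at hC'
    have f1 : dist (P.c (t - u)) (P.c (t + u)) = 2 * u := by
      have := str (g1 P) (x := t + u) (r := r) (u := -(2 * u)) (by
        rw [abs_neg, abs_of_pos (by positivity)]; linarith)
        (fun i => ⟨fun h => d1' i ⟨by linarith [h.1], by linarith [h.2]⟩,
        fun h => d1' i ⟨by linarith [h.1], by linarith [h.2]⟩⟩)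
      rw [abs_neg, abs_of_pos (by positivity)] at this
      rw [← this]
      congr 2
      ring
    have f2 : ρ ≤ dist (P.c (t - u)) (P.c (2 * s - (t + u))) := hch _ _ (fun k => by
      have := d3 (-k)
      rw [show t - u - (2 * s - (t + u)) - k * P.L = -(2 * s - 2 * t - ((-k : ℤ) : ℝ) * P.L) by
        push_cast; ring, abs_neg]
      linarith)
    rw [f1] at hC'
    have hF : 2 * u ≤ min ρ (min (2 * u) (dist (P.c (t - u)) (P.c (2 * s - (t + u))))) :=
      le_min (by linarith) (le_min le_rfl (by linarith))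
    refine fin (P.c (t + u)) ((g2 P).c_mem _) (P.c (t - u)) ((g2 P).c_mem _) u hu0 ?_ ?_
      (hF.trans ((le_abs_self _).trans hC'))
    · rw [ht]
      refine (M.le_dist _ ((g2 P).c_mem _) _ ((g2 P).c_mem _)).trans
        (((g1 P).c_lip _ _).trans (le_of_eq ?_))
      rw [add_sub_cancel_left, abs_of_pos hu0]
    · rw [ht]
      refine (M.le_dist _ ((g2 P).c_mem _) _ ((g2 P).c_mem _)).trans
        (((g1 P).c_lip _ _).trans (le_of_eq ?_))
      rw [sub_sub_cancel, abs_of_pos hu0]

end R984.PH
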