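import Pool.Agent.R984.PH.Stm

/-!
# RIG: two isometries that agree at the corners and are uniformly close coincide
-/

set_option autoImplicit false

namespace R984.PH

namespace RigAux

open Set Metric

variable {P : Polygon}

lemma gd_congr {s : ℝ} (M : Met P s) {a b c : E2} (ha : a ∈ P.body) (hb : b ∈ P.body)
    (hc : c ∈ P.body) (h : P.gdist s a b = 0) : P.gdist s a c = P.gdist s b c := by
  have h1 := M.triangle a ha b hb c hc
  have h2 := M.triangle b hb a ha c hc
  rw [M.symm b a, h] at h2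
  rw [h] at h1
  linarith

lemma loc_eq {s : ℝ} (M : Met P s) {p q : E2} {η : ℝ} (hp : p ∈ P.body) (hq : q ∈ P.body)
    (hb : ball p η ⊆ P.body) (h : P.gdist s p q < η ∨ dist p q ≤ η) :
    P.gdist s p q = dist p q := by
  have h1 := M.loc p q η hp hq hb
  have h2 := M.le_dist p hp q hq
  rcases h with h | h
  · rcases le_total (dist p q) η with e | e
    · rw [min_eq_left e] at h1; linarith
    · rw [min_eq_right e] at h1; linarith
  · rw [min_eq_left h] at h1; linarith

/-- equally spaced collinear triples -/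
lemma mid {a b c : E2} {r : ℝ} (h1 : dist a b = r) (h2 : dist b c = r)
    (h3 : dist a c = 2 * r) : c - b = b - a := by
  have hp := parallelogram_law_with_norm ℝ (c - b) (b - a)
  have e1 : ‖c - b‖ = r := by rw [← dist_eq_norm, dist_comm]; exact h2
  have e2 : ‖b - a‖ = r := by rw [← dist_eq_norm, dist_comm]; exact h1
  have e3 : ‖(c - b) + (b - a)‖ = 2 * r := by
    rw [sub_add_sub_cancel, ← dist_eq_norm, dist_comm]; exact h3
  rw [e1, e2, e3] at hp
  have h4 : ‖(c - b) - (b - a)‖ * ‖(c - b) - (b - a)‖ = 0 := by nlinarith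
  exact sub_eq_zero.1 (norm_eq_zero.1 (mul_self_eq_zero.1 h4))

lemma quad (x a b : E2) :
    ‖x - ((2 : ℝ) • a - b)‖ ^ 2 = 2 * ‖x - a‖ ^ 2 - ‖x - b‖ ^ 2 + 2 * ‖a - b‖ ^ 2 := by
  have e : x - ((2 : ℝ) • a - b) = (2 : ℝ) • (x - a) - (x - b) := by module
  have e2 : a - b = (x - b) - (x - a) := by abel
  have h1 := norm_sub_sq_real ((2 : ℝ) • (x - a)) (x - b)
  have h2 := norm_sub_sq_real (x - b) (x - a)
  rw [e, e2, h1, h2, norm_smul, real_inner_smul_left, real_inner_comm (x - a) (x - b)]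
  simp only [Real.norm_ofNat]
  ring

/-- local isometries of convex sets are isometries -/
lemma seg_iso {U : Set E2} (hU : Convex ℝ U) (G : E2 → E2) {κ : ℝ} (hκ : 0 < κ)
    (hG : ∀ p ∈ U, ∀ q ∈ U, dist p q ≤ κ → dist (G p) (G q) = dist p q) :
    ∀ p ∈ U, ∀ q ∈ U, dist (G p) (G q) = dist p q := by
  intro p hp q hq
  obtain ⟨N, hN⟩ := exists_nat_gt (2 * dist p q / κ)
  have hN0 : (0 : ℝ) < N := lt_of_le_of_lt (by positivity) hN
  have hN1 : 1 ≤ N := by
    have : 0 < N := by exact_mod_cast hN0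
    exact this
  obtain ⟨x, hx⟩ : ∃ x : ℕ → E2, x = fun k : ℕ => p + ((k : ℝ) / N) • (q - p) := ⟨_, rfl⟩
  have hxU : ∀ k, k ≤ N → x k ∈ U := by
    intro k hk
    rw [hx]
    refine hU.add_smul_sub_mem hp hq ⟨by positivity, ?_⟩
    rw [div_le_one hN0]
    exact_mod_cast hk
  have hxd : ∀ j k : ℕ, dist (x j) (x k) = |(j : ℝ) - k| / N * dist p q := by
    intro j k
    rw [dist_eq_norm, dist_comm p q, dist_eq_norm, hx]
    have : (p + ((j : ℝ) / N) • (q - p)) - (p + ((k : ℝ) / N) • (q - p)) =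
        (((j : ℝ) - k) / N) • (q - p) := by
      rw [add_sub_add_left_eq_sub, ← sub_smul, sub_div]
    show ‖(p + ((j : ℝ) / N) • (q - p)) - (p + ((k : ℝ) / N) • (q - p))‖ = _
    rw [this, norm_smul, Real.norm_eq_abs, abs_div, abs_of_pos hN0]
  have hsm : 2 * (dist p q / N) < κ := by
    rw [div_lt_iff₀ hκ] at hN
    rw [← mul_div_assoc, div_lt_iff₀ hN0]
    linarith
  have hd0 : 0 ≤ dist p q / N := by positivity
  have hstep : ∀ k, k + 1 ≤ N → dist (G (x k)) (G (x (k + 1))) = dist p q / N := by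
    intro k hk
    have e : dist (x k) (x (k + 1)) = dist p q / N := by
      rw [hxd]
      push_cast
      rw [show (k : ℝ) - (k + 1) = -1 by ring, abs_neg, abs_one]
      ring
    rw [hG _ (hxU k (by omega)) _ (hxU (k + 1) hk) (by rw [e]; linarith), e]
  have hstep2 : ∀ k, k + 2 ≤ N → dist (G (x k)) (G (x (k + 2))) = 2 * (dist p q / N) := by
    intro k hk
    have e : dist (x k) (x (k + 2)) = 2 * (dist p q / N) := by
      rw [hxd]
      push_cast
      rw [show (k : ℝ) - (k + 2) = -2 by ring, abs_neg, abs_of_pos (by norm_num : (0 : ℝ) < 2)]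
      ring
    rw [hG _ (hxU k (by omega)) _ (hxU (k + 2) hk) (by rw [e]; linarith), e]
  have hdiff : ∀ k, k + 1 ≤ N → G (x (k + 1)) - G (x k) = G (x 1) - G (x 0) := by
    intro k
    induction k with
    | zero => intro _; rfl
    | succ k ih =>
      intro hk
      rw [← ih (by omega)]
      exact mid (hstep k (by omega)) (hstep (k + 1) hk) (hstep2 k hk)
  have hlin : ∀ k, k ≤ N → G (x k) - G (x 0) = (k : ℝ) • (G (x 1) - G (x 0)) := by
    intro k
    induction k with
    | zero => intro _; simp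
    | succ k ih =>
      intro hk
      have e : G (x (k + 1)) - G (x 0) = (G (x (k + 1)) - G (x k)) + (G (x k) - G (x 0)) := by
        abel
      rw [e, hdiff k hk, ih (by omega)]
      push_cast
      module
  have h0 : x 0 = p := by rw [hx]; simp
  have h1 : x N = q := by
    rw [hx]
    show p + ((N : ℝ) / N) • (q - p) = q
    rw [div_self hN0.ne', one_smul]; abel
  have hf := hlin N le_rfl
  have hs := hstep 0 hN1
  rw [h0, h1] at hf
  rw [zero_add, h0] at hs
  rw [dist_comm, dist_eq_norm, hf, norm_smul, Real.norm_eq_abs, abs_of_pos hN0, ← dist_eq_norm,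
    dist_comm, hs]
  field_simp

lemma ball_lemma {y q q1 : E2} {r : ℝ} (hr : 0 < r)
    (h : ∀ a ∈ ball y r, dist a q1 = dist a q) : q1 = q := by
  by_contra hne
  have hn : 0 < ‖q1 - q‖ := norm_pos_iff.2 (sub_ne_zero.2 hne)
  obtain ⟨t, ht, htr⟩ : ∃ t : ℝ, 0 < t ∧ t * ‖q1 - q‖ < r := by
    refine ⟨r / (2 * ‖q1 - q‖), by positivity, ?_⟩
    have : r / (2 * ‖q1 - q‖) * ‖q1 - q‖ = r / 2 := by field_simp
    rw [this]; linarith
  have h1 := h y (mem_ball_self hr)
  have h2 := h (y + t • (q1 - q)) (by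
    rw [mem_ball, dist_eq_norm, add_sub_cancel_left, norm_smul, Real.norm_eq_abs, abs_of_pos ht]
    exact htr)
  rw [dist_eq_norm, dist_eq_norm] at h1 h2
  have e1 : y + t • (q1 - q) - q1 = (y - q1) + t • (q1 - q) := by abel
  have e2 : y + t • (q1 - q) - q = (y - q) + t • (q1 - q) := by abel
  rw [e1, e2] at h2
  have h3 : ‖(y - q1) + t • (q1 - q)‖ ^ 2 = ‖(y - q) + t • (q1 - q)‖ ^ 2 := by rw [h2]
  rw [norm_add_sq_real, norm_add_sq_real, h1, real_inner_smul_right, real_inner_smul_right] at h3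
  have h4 : inner ℝ (y - q1) (q1 - q) = inner ℝ (y - q) (q1 - q) := by
    have : t * inner ℝ (y - q1) (q1 - q) = t * inner ℝ (y - q) (q1 - q) := by linarith
    exact mul_left_cancel₀ ht.ne' this
  have h5 : inner ℝ (q1 - q) (q1 - q) = 0 := by
    have e : q1 - q = (y - q) - (y - q1) := by abel
    calc inner ℝ (q1 - q) (q1 - q) = inner ℝ ((y - q) - (y - q1)) (q1 - q) := by rw [← e]
      _ = 0 := by rw [inner_sub_left, h4]; ring
  rw [real_inner_self_eq_norm_sq] at h5
  nlinarith

end RigAux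

open RigAux Metric Set in
theorem rig (_g1 : ∀ P, Geo1 P) (g2 : ∀ P, Geo2 P) (met : ∀ P s, Met P s) : St_RIG := by
  intro P ρ hρ
  obtain ⟨z, R, hR, hzR⟩ := (g2 P).ball
  have hconv := (g2 P).convex
  obtain ⟨D, hD0, hD⟩ : ∃ D : ℝ, 0 < D ∧ ∀ p ∈ P.body, dist z p ≤ D := by
    obtain ⟨D, hD⟩ := ((g2 P).compact.isBounded).subset_closedBall z
    refine ⟨max D 1, by positivity, fun p hp => ?_⟩
    have := hD hp
    rw [mem_closedBall, dist_comm] at this
    exact this.trans (le_max_left _ _)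
  obtain ⟨lam, hl0, hl1, hlD⟩ : ∃ lam : ℝ, 0 < lam ∧ lam ≤ 1 ∧ lam * D ≤ ρ / 4 := by
    refine ⟨min 1 (ρ / (4 * D)), by positivity, min_le_left _ _, ?_⟩
    calc min 1 (ρ / (4 * D)) * D ≤ ρ / (4 * D) * D :=
          mul_le_mul_of_nonneg_right (min_le_right _ _) hD0.le
      _ = ρ / 4 := by field_simp
  obtain ⟨η, hη⟩ : ∃ η : ℝ, η = lam * R / 2 := ⟨_, rfl⟩
  have hη0 : 0 < η := by rw [hη]; positivity
  obtain ⟨ε, hε0, hε1, hε2⟩ : ∃ ε : ℝ, 0 < ε ∧ ε ≤ η / 16 ∧ ε ≤ ρ / 4 :=
    ⟨min (η / 16) (ρ / 4), by positivity, min_le_left _ _, min_le_right _ _⟩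
  refine ⟨ε, hε0, ?_⟩
  intro s s' s0 h h' H H' hv hcor hclose
  have M := met P s
  have M' := met P s'
  have M0 := met P s0
  have hm := H.maps
  have hm' := H'.maps
  -- the map `G`
  have hex : ∀ p, ∃ q, p ∈ P.body → q ∈ P.body ∧ P.gdist s0 (h' q) (h p) = 0 := by
    intro p
    by_cases hp : p ∈ P.body
    · obtain ⟨q, hq, hq2⟩ := H'.surj (h p) (hm hp)
      exact ⟨q, fun _ => ⟨hq, hq2⟩⟩
    · exact ⟨p, fun h => absurd h hp⟩
  choose G hG using hex
  have hGB : ∀ p ∈ P.body, G p ∈ P.body := fun p hp => (hG p hp).1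
  have hG0 : ∀ p ∈ P.body, P.gdist s0 (h' (G p)) (h p) = 0 := fun p hp => (hG p hp).2
  have hGG : ∀ p ∈ P.body, ∀ q ∈ P.body, P.gdist s' (G p) (G q) = P.gdist s p q := by
    intro p hp q hq
    rw [← H'.iso _ (hGB p hp) _ (hGB q hq), ← H.iso p hp q hq,
      gd_congr M0 (hm' (hGB p hp)) (hm hp) (hm' (hGB q hq)) (hG0 p hp), M0.symm,
      gd_congr M0 (hm' (hGB q hq)) (hm hq) (hm hp) (hG0 q hq), M0.symm]
  have hGp : ∀ p ∈ P.body, P.gdist s' p (G p) ≤ ε := by
    intro p hp
    rw [← H'.iso p hp _ (hGB p hp), M0.symm,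
      gd_congr M0 (hm' (hGB p hp)) (hm hp) (hm' hp) (hG0 p hp)]
    exact hclose p hp
  -- the set `U`
  obtain ⟨U, hU⟩ : ∃ U : Set E2, U = {p | closedBall p η ⊆ P.body} := ⟨_, rfl⟩
  have hUB : ∀ p ∈ U, p ∈ P.body := by
    intro p hp
    rw [hU] at hp
    exact hp (mem_closedBall_self hη0.le)
  have hUb : ∀ p ∈ U, ball p η ⊆ P.body := by
    intro p hp
    rw [hU] at hp
    exact ball_subset_closedBall.trans hp
  have hUconv : Convex ℝ U := by
    rw [convex_iff_forall_pos]
    intro p hp q hq a b ha hb hab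
    rw [hU] at hp hq ⊢
    intro w hw
    rw [mem_closedBall, dist_eq_norm] at hw
    obtain ⟨e, he⟩ : ∃ e : E2, e = w - (a • p + b • q) := ⟨_, rfl⟩
    rw [← he] at hw
    have hw2 : w = a • (p + e) + b • (q + e) := by
      have : a • (p + e) + b • (q + e) = (a • p + b • q) + (a + b) • e := by module
      rw [this, hab, one_smul, he]; abel
    rw [hw2]
    refine hconv (hp ?_) (hq ?_) ha.le hb.le hab
    · rw [mem_closedBall, dist_eq_norm, add_sub_cancel_left]; exact hw
    · rw [mem_closedBall, dist_eq_norm, add_sub_cancel_left]; exact hw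
  -- `G` is close to the identity on `U`
  have hGU : ∀ p ∈ U, dist p (G p) ≤ ε := by
    intro p hp
    have h1 := hGp p (hUB p hp)
    have h2 := loc_eq M' (hUB p hp) (hGB p (hUB p hp)) (hUb p hp) (Or.inl (by linarith))
    rw [← h2]; exact h1
  have hloc : ∀ p ∈ U, ∀ q ∈ U, dist p q ≤ η / 4 → dist (G p) (G q) = dist p q := by
    intro p hp q hq hpq
    have hpB := hUB p hp
    have hqB := hUB q hq
    have h1 : P.gdist s p q = dist p q :=
      loc_eq M hpB hqB (hUb p hp) (Or.inr (by linarith))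
    have h2 := hGG p hpB q hqB
    have h3 : ball (G p) (η - ε) ⊆ P.body := by
      refine Subset.trans ?_ (hUb p hp)
      refine ball_subset_ball' ?_
      have := hGU p hp
      rw [dist_comm] at this
      linarith
    have h4 := loc_eq M' (hGB p hpB) (hGB q hqB) h3 (Or.inl (by rw [h2, h1]; linarith))
    rw [← h4, h2, h1]
  have hiso := seg_iso hUconv G (by linarith : 0 < η / 4) hloc
  -- distances to the corners near a corner
  have hvB : ∀ i, P.v i ∈ P.body := (g2 P).v_mem
  have hcd : ∀ i, ∀ p ∈ U, dist p (P.v i) ≤ ρ / 2 → dist (G p) (P.v i) = dist p (P.v i) := by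
    intro i p hp hd
    have hpB := hUB p hp
    have h1 := (hcor i p hpB (by linarith)).1
    have h2 : dist (G p) (P.v i) ≤ ρ := by
      have := hGU p hp
      rw [dist_comm] at this
      linarith [dist_triangle (G p) p (P.v i)]
    have h3 := (hcor i (G p) (hGB p hpB) h2).2
    rw [← h3, ← h1, ← H'.iso _ (hGB p hpB) _ (hvB i), ← H.iso _ hpB _ (hvB i),
      gd_congr M0 (hm' (hGB p hpB)) (hm hpB) (hm' (hvB i)) (hG0 p hpB), M0.symm,
      gd_congr M0 (hm' (hvB i)) (hm (hvB i)) (hm hpB) (by rw [M0.symm]; exact hv i), M0.symm]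
  -- all distances to corners
  have hall : ∀ i, ∀ p ∈ U, dist (G p) (P.v i) = dist p (P.v i) := by
    intro i p hp
    obtain ⟨v, hvd⟩ : ∃ v, v = P.v i := ⟨_, rfl⟩
    have hvb : v ∈ P.body := hvd ▸ hvB i
    have hinU : ∀ μ : ℝ, 0 ≤ μ → μ ≤ 1 → η ≤ μ * R → v + μ • (z - v) ∈ U := by
      intro μ hμ0 hμ1 hμ
      rw [hU]
      intro w hw
      rw [mem_closedBall, dist_eq_norm] at hw
      have hμp : 0 < μ := by
        rcases hμ0.lt_or_eq with h | h
        · exact h
        · rw [← h] at hμ; linarith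
      obtain ⟨e, he⟩ : ∃ e : E2, e = w - (v + μ • (z - v)) := ⟨_, rfl⟩
      rw [← he] at hw
      have hw2 : w = (1 - μ) • v + μ • (z + μ⁻¹ • e) := by
        rw [smul_add, smul_smul, mul_inv_cancel₀ hμp.ne', one_smul, he]
        module
      rw [hw2]
      refine hconv hvb (hzR ?_) (by linarith) hμ0 (by ring)
      rw [mem_closedBall, dist_eq_norm, add_sub_cancel_left, norm_smul, norm_inv,
        Real.norm_eq_abs, abs_of_pos hμp, inv_mul_le_iff₀ hμp]
      linarith
    have hdv : dist z v ≤ D := hD v hvb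
    obtain ⟨q1, hq1⟩ : ∃ q1 : E2, q1 = v + (lam / 2) • (z - v) := ⟨_, rfl⟩
    obtain ⟨q2, hq2⟩ : ∃ q2 : E2, q2 = v + lam • (z - v) := ⟨_, rfl⟩
    have hq1U : q1 ∈ U := by
      rw [hq1]; exact hinU _ (by linarith) (by linarith) (by rw [hη]; linarith)
    have hq2U : q2 ∈ U := by
      rw [hq2]; refine hinU _ hl0.le hl1 ?_
      rw [hη]; nlinarith [mul_pos hl0 hR]
    have d1 : dist v q1 = lam / 2 * dist z v := by
      rw [hq1, dist_comm, dist_eq_norm, add_sub_cancel_left, norm_smul, Real.norm_eq_abs,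
        abs_of_pos (by linarith), dist_eq_norm]
    have d2 : dist v q2 = 2 * (lam / 2 * dist z v) := by
      rw [hq2, dist_comm, dist_eq_norm, add_sub_cancel_left, norm_smul, Real.norm_eq_abs,
        abs_of_pos hl0, dist_eq_norm]
      ring
    have d3 : dist q1 q2 = lam / 2 * dist z v := by
      have : q2 - q1 = (lam / 2) • (z - v) := by rw [hq1, hq2]; module
      rw [dist_comm, dist_eq_norm, this, norm_smul, Real.norm_eq_abs,
        abs_of_pos (by linarith), dist_eq_norm]
    have hsmall : lam * dist z v ≤ ρ / 4 :=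
      (mul_le_mul_of_nonneg_left hdv hl0.le).trans hlD
    have c1 : dist v (G q1) = lam / 2 * dist z v := by
      rw [dist_comm, hvd, hcd i q1 hq1U (by rw [dist_comm, ← hvd, d1]; linarith), dist_comm, ← hvd,
        d1]
    have c2 : dist v (G q2) = 2 * (lam / 2 * dist z v) := by
      rw [dist_comm, hvd, hcd i q2 hq2U (by rw [dist_comm, ← hvd, d2]; linarith), dist_comm, ← hvd,
        d2]
    have c3 : dist (G q1) (G q2) = lam / 2 * dist z v := by
      rw [hiso q1 hq1U q2 hq2U, d3]
    have m1 := mid c1 c3 c2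
    have m2 := mid d1 d3 d2
    have v1 : v = (2 : ℝ) • G q1 - G q2 := by
      have : v = G q1 - (G q1 - v) := by abel
      rw [this, ← m1]; module
    have v2 : v = (2 : ℝ) • q1 - q2 := by
      have : v = q1 - (q1 - v) := by abel
      rw [this, ← m2]; module
    have k1 : ‖G p - v‖ ^ 2 = ‖p - v‖ ^ 2 := by
      have a1 : ‖G p - v‖ ^ 2 = 2 * ‖G p - G q1‖ ^ 2 - ‖G p - G q2‖ ^ 2 + 2 * ‖G q1 - G q2‖ ^ 2 := by
        rw [← quad, ← v1]
      have a2 : ‖p - v‖ ^ 2 = 2 * ‖p - q1‖ ^ 2 - ‖p - q2‖ ^ 2 + 2 * ‖q1 - q2‖ ^ 2 := by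
        rw [← quad, ← v2]
      rw [a1, a2, ← dist_eq_norm, ← dist_eq_norm, ← dist_eq_norm, ← dist_eq_norm, ← dist_eq_norm,
        ← dist_eq_norm, hiso p hp q1 hq1U, hiso p hp q2 hq2U, hiso q1 hq1U q2 hq2U]
    rw [← hvd, dist_eq_norm, dist_eq_norm]
    exact (sq_eq_sq₀ (norm_nonneg _) (norm_nonneg _)).1 k1
  have hfix : ∀ p ∈ U, G p = p := fun p hp => (g2 P).tri _ _ fun i => hall i p hp
  obtain ⟨W, hW⟩ : ∃ W : Set E2, W = {p | p ∈ P.body ∧ P.gdist s0 (h p) (h' p) = 0} := ⟨_, rfl⟩
  have hUW : U ⊆ W := by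
    intro p hp
    have h1 := hG0 p (hUB p hp)
    rw [hfix p hp, M0.symm] at h1
    rw [hW]
    exact ⟨hUB p hp, h1⟩
  -- extension to the interior
  have hint : interior P.body ⊆ interior W := by
    refine hconv.interior.isPreconnected.subset_of_closure_inter_subset isOpen_interior ?_ ?_
    · -- `z`
      refine ⟨z, ?_, ?_⟩
      · exact mem_interior.2 ⟨ball z R, ball_subset_closedBall.trans hzR, isOpen_ball,
          mem_ball_self hR⟩
      · refine mem_interior.2 ⟨ball z (R - η), fun w hw => hUW ?_, isOpen_ball, ?_⟩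
        · rw [hU]
          refine (closedBall_subset_closedBall' ?_).trans hzR
          rw [mem_ball] at hw
          linarith
        · refine mem_ball_self ?_
          have : η < R := by
            rw [hη]; nlinarith [mul_le_mul_of_nonneg_right hl1 hR.le]
          linarith
    · rintro x ⟨hx1, hx2⟩
      obtain ⟨k, hk, hkB⟩ := Metric.isOpen_iff.1 isOpen_interior x hx2
      have hkB' : ball x k ⊆ P.body := hkB.trans interior_subset
      obtain ⟨y, hy, hxy⟩ := Metric.mem_closure_iff.1 hx1 (k / 8) (by linarith)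
      obtain ⟨r, hr, hrW⟩ := Metric.isOpen_iff.1 isOpen_interior y hy
      have hrW' : ball y r ⊆ W := hrW.trans interior_subset
      refine mem_interior.2 ⟨ball x (k / 8), fun q hq => ?_, isOpen_ball,
        mem_ball_self (by linarith)⟩
      have hqB : q ∈ P.body := hkB' (ball_subset_ball (by linarith) hq)
      have hq1B := hGB q hqB
      have hqq : G q = q := by
        refine ball_lemma (y := y) (r := min r (k / 8)) (lt_min hr (by linarith)) ?_
        intro a ha
        rw [mem_ball] at ha hq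
        have haW : a ∈ W := hrW' (by rw [mem_ball]; exact ha.trans_le (min_le_left _ _))
        rw [hW] at haW
        have hay : dist a y < k / 8 := ha.trans_le (min_le_right _ _)
        have hax : dist a x < k / 4 := by
          have := dist_triangle a y x
          rw [dist_comm y x] at this
          linarith
        have haq : dist a q < 3 * k / 8 := by
          have := dist_triangle a x q
          rw [dist_comm x q] at this
          linarith
        have hab : ball a (3 * k / 4) ⊆ P.body :=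
          (ball_subset_ball' (by linarith)).trans hkB'
        have e1 : P.gdist s a q = dist a q := loc_eq M haW.1 hqB hab (Or.inr (by linarith))
        have e2 : P.gdist s' a (G q) = P.gdist s a q := by
          rw [← H'.iso a haW.1 _ hq1B, ← H.iso a haW.1 q hqB,
            ← gd_congr M0 (hm haW.1) (hm' haW.1) (hm' hq1B) haW.2, M0.symm,
            gd_congr M0 (hm' hq1B) (hm hqB) (hm haW.1) (hG0 q hqB), M0.symm]
        have e3 : P.gdist s' a (G q) = dist a (G q) :=
          loc_eq M' haW.1 hq1B hab (Or.inl (by rw [e2, e1]; linarith))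
        rw [← e3, e2, e1]
      rw [hW]
      refine ⟨hqB, ?_⟩
      have := hG0 q hqB
      rw [hqq, M0.symm] at this
      exact this
  -- the boundary
  intro p hp
  have hcl : p ∈ closure (interior P.body) := by
    rw [hconv.closure_interior_eq_closure_of_nonempty_interior
      ⟨z, mem_interior.2 ⟨ball z R, ball_subset_closedBall.trans hzR, isOpen_ball,
        mem_ball_self hR⟩⟩]
    exact subset_closure hp
  refine le_antisymm (le_of_forall_pos_le_add fun δ hδ => ?_) (M0.nonneg _ _)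
  obtain ⟨y, hy, hpy⟩ := Metric.mem_closure_iff.1 hcl (δ / 2) (by linarith)
  have hyW := interior_subset (hint hy)
  rw [hW] at hyW
  have t1 := M0.triangle (h p) (hm hp) (h y) (hm hyW.1) (h' p) (hm' hp)
  have t2 := M0.triangle (h y) (hm hyW.1) (h' y) (hm' hyW.1) (h' p) (hm' hp)
  have t3 := M.le_dist p hp y hyW.1
  have t4 := M'.le_dist y hyW.1 p hp
  rw [H.iso p hp y hyW.1] at t1
  rw [hyW.2, H'.iso y hyW.1 p hp] at t2
  rw [dist_comm y p] at t4
  linarith

end R984.PH
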