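import Pool.Agent.R984.PH.Phi

/-! Separation of the special points, uniformly in the gluing. -/

namespace R984.PH

open Set

/-- the special points of the glued surface for `s0` -/
def Spec (P : Polygon) (s0 : ℝ) : Set E2 :=
  {w | ∃ j : ℤ, w = P.v j ∨ w = P.c (2 * s0 - P.T j)} ∪ {P.c s0, P.c (s0 + P.L / 2)}

theorem T_int {P : Polygon} (g1 : Geo1 P) (i k : ℤ) : P.T (i + k * P.n) = P.T i + k * P.L := by
  induction k using Int.induction_on with
  | zero => simp
  | succ m ih =>
    have := g1.T_per (i + m * P.n)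
    rw [ih] at this
    rw [show i + ((m : ℤ) + 1) * P.n = i + m * P.n + P.n by ring, this]
    push_cast; ring
  | pred m ih =>
    have := g1.T_per (i + (-(m : ℤ) - 1) * P.n)
    rw [show i + (-(m : ℤ) - 1) * P.n + P.n = i + -(m : ℤ) * P.n by ring, ih] at this
    push_cast at this ⊢
    linarith

theorem v_int (P : Polygon) (i k : ℤ) : P.v (i + k * P.n) = P.v i := by
  induction k using Int.induction_on with
  | zero => simp
  | succ m ih =>
    have := P.per (i + m * P.n)
    rw [ih] at this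
    rw [show i + ((m : ℤ) + 1) * P.n = i + m * P.n + P.n by ring, this]
  | pred m ih =>
    have := P.per (i + (-(m : ℤ) - 1) * P.n)
    rw [show i + (-(m : ℤ) - 1) * P.n + P.n = i + -(m : ℤ) * P.n by ring, ih] at this
    exact this.symm

theorem red (P : Polygon) (i : ℤ) : ∃ (j : ℕ) (k : ℤ), j < P.n ∧ i = j + k * P.n := by
  have hn : (0 : ℤ) < P.n := by have := P.hn; omega
  refine ⟨(i % P.n).toNat, i / P.n, ?_, ?_⟩
  · have h1 := Int.emod_nonneg i hn.ne'
    have h2 := Int.emod_lt_of_pos i hn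
    omega
  · have h1 := Int.emod_nonneg i hn.ne'
    rw [Int.toNat_of_nonneg h1]
    have := Int.emod_add_mul_ediv i P.n
    linarith [mul_comm (P.n : ℤ) (i / P.n)]

theorem spec_finite {P : Polygon} (g1 : Geo1 P) (s0 : ℝ) : (Spec P s0).Finite := by
  refine Finite.union ?_ (by simp)
  have h1 : {w | ∃ j : ℤ, w = P.v j ∨ w = P.c (2 * s0 - P.T j)} ⊆
      (fun j : ℕ => P.v j) '' (Finset.range P.n : Set ℕ) ∪
      (fun j : ℕ => P.c (2 * s0 - P.T j)) '' (Finset.range P.n : Set ℕ) := by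
    rintro w ⟨i, hi⟩
    obtain ⟨j, k, hj, rfl⟩ := red P i
    rcases hi with hi | hi
    · left
      exact ⟨j, by simpa using hj, by rw [hi]; exact (v_int P j k).symm⟩
    · right
      refine ⟨j, by simpa using hj, ?_⟩
      rw [hi, T_int g1, show 2 * s0 - (P.T j + k * P.L) = 2 * s0 - P.T j - k * P.L by ring,
        c_per_int' g1]
  exact (Finite.union ((Finset.finite_toSet _).image _) ((Finset.finite_toSet _).image _)).subset h1

theorem spec_of_not (g1 : ∀ P, Geo1 P) (g2 : ∀ P, Geo2 P) (P : Polygon) (s : ℝ) (w : E2)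
    (hw : w ∈ P.body) (h : ¬ Between P s w) : w ∈ Spec P s := by
  by_contra hs
  refine h (phi g1 g2 P s w hw (fun t ht => ⟨fun j hj => hs ?_, fun j hj => hs ?_,
    fun k hk => hs ?_⟩))
  · left
    exact ⟨j, Or.inl (by rw [ht, hj, (g1 P).c_T])⟩
  · left
    refine ⟨j, Or.inr ?_⟩
    rw [ht, ← hj]
    congr 1; ring
  · right
    rcases Int.even_or_odd' k with ⟨m, hm | hm⟩
    · left
      rw [ht, ← c_per_int (g1 P) m t]
      congr 1
      rw [hm] at hk
      push_cast at hk
      linarith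
    · right
      show w = _
      rw [ht, ← c_per_int (g1 P) (m + 1) t]
      congr 1
      rw [hm] at hk
      push_cast at hk ⊢
      linarith

/-- generic positions -/
def Gen (P : Polygon) (s : ℝ) : Prop := ∀ i j, 2 * s - P.T i ≠ P.T j

theorem iso_between {P : Polygon} (met : ∀ P s, Met P s) (g2 : Geo2 P) {s s0 : ℝ} {h : E2 → E2}
    (hi : IsoMap P s s0 h) {w : E2} (hw : w ∈ P.body) (hb : Between P s0 (h w)) :
    Between P s w := by
  obtain ⟨y, hy, z, hz, h1, h2, h3⟩ := hb
  obtain ⟨y1, hy1, hy2⟩ := hi.surj y hy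
  obtain ⟨z1, hz1, hz2⟩ := hi.surj z hz
  have M := met P s0
  have mw := hi.maps hw
  have my := hi.maps hy1
  have mz := hi.maps hz1
  have e1 : P.gdist s y1 w = P.gdist s0 y (h w) := by
    rw [← hi.iso _ hy1 _ hw]
    have a1 := M.triangle _ my _ hy _ mw
    have a2 := M.triangle _ hy _ my _ mw
    rw [M.symm y (h y1)] at a2
    linarith
  have e2 : P.gdist s w z1 = P.gdist s0 (h w) z := by
    rw [← hi.iso _ hw _ hz1]
    have a1 := M.triangle _ mw _ hz _ mz
    have a2 := M.triangle _ mw _ mz _ hz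
    rw [M.symm z (h z1)] at a1
    linarith
  have e3 : P.gdist s y1 z1 = P.gdist s0 y z := by
    rw [← hi.iso _ hy1 _ hz1]
    have a1 := M.triangle _ my _ hy _ mz
    have a2 := M.triangle _ hy _ my _ mz
    have a3 := M.triangle _ hy _ mz _ hz
    have a4 := M.triangle _ hy _ hz _ mz
    rw [M.symm y (h y1)] at a2
    rw [M.symm z (h z1)] at a4
    linarith
  exact ⟨y1, hy1, z1, hz1, by rw [e1]; exact h1, by rw [e2]; exact h2, by rw [e1, e2, e3]; exact h3⟩

/-- in a generic gluing the corners and the fold points are pairwise at positive distance -/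
theorem pos_special (g1 : ∀ P, Geo1 P) (g2 : ∀ P, Geo2 P) (P : Polygon) (s : ℝ) (hs : Gen P s)
    (i : ℤ) (w : E2) (hw : w ∈ P.body) (h1 : w ≠ P.v i) (h2 : w ≠ P.c (2 * s - P.T i)) :
    0 < P.gdist s (P.v i) w := by
  obtain ⟨r1, hr1, d1⟩ := disc (g1 P) (P.T i)
  obtain ⟨r2, hr2, d2⟩ := disc (g1 P) (2 * s - P.T i)
  obtain ⟨r3, hr3, d3⟩ := sepL (g1 P) (2 * s - 2 * P.T i) (fun k hk => by
    refine hs i (i + k * P.n) ?_
    rw [T_int (g1 P)]; linarith)
  obtain ⟨r, hr, e1, e2, e3⟩ : ∃ r > 0, 2 * r ≤ r1 ∧ 2 * r ≤ r2 ∧ 2 * r ≤ r3 := by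
    refine ⟨min (min r1 r2) r3 / 2, by positivity, ?_, ?_, ?_⟩
    · have := min_le_left (min r1 r2) r3
      have := min_le_left r1 r2
      linarith
    · have := min_le_left (min r1 r2) r3
      have := min_le_right r1 r2
      linarith
    · have := min_le_right (min r1 r2) r3
      linarith
  obtain ⟨ρ0, hρ0, hch0⟩ := chord g1 g2 P r hr
  have hC := (cal g1 g2 P s (P.T i) r (min ρ0 r) hr (lt_min hρ0 hr) (min_le_right _ _) (fun j => by
    refine ⟨fun h => (d1 j).1 ⟨by linarith [h.1], by linarith [h.2]⟩,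
      fun h => (d1 j).2 ⟨by linarith [h.1], by linarith [h.2]⟩,
      fun h => (d2 j).1 ⟨by linarith [h.1], by linarith [h.2]⟩,
      fun h => (d2 j).2 ⟨by linarith [h.1], by linarith [h.2]⟩⟩) (Or.inl (fun k =>
      e3.trans (d3 k))) (fun a b hab => (min_le_left _ _).trans (hch0 a b hab))).2
    (P.v i) ((g2 P).v_mem i) w hw
  rw [(g1 P).c_T, dist_self, min_eq_left dist_nonneg, min_eq_right (lt_min hρ0 hr).le, zero_sub,
    abs_neg] at hC
  refine lt_of_lt_of_le ?_ ((le_abs_self _).trans hC)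
  exact lt_min (lt_min hρ0 hr) (lt_min (dist_pos.2 h1) (dist_pos.2 h2))

end R984.PH
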