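import Pool.Agent.R984.PH.Defs

/-! Statements of the pieces of MP_d67387_co. -/

namespace R984.PH

open Set

/-- GEO1: the arc-length parametrisation. -/
structure Geo1 (P : Polygon) : Prop where
  lenpos : ∀ i, 0 < P.len i
  Lpos : 0 < P.L
  T_succ : ∀ i, P.T (i + 1) = P.T i + P.len i
  T_per : ∀ i : ℤ, P.T (i + P.n) = P.T i + P.L
  T_mono : StrictMono P.T
  cover : ∀ τ, ∃ i, P.T i ≤ τ ∧ τ < P.T (i + 1)
  at_iff : ∀ p τ, P.At p τ ↔ p = P.c τ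
  c_T : ∀ i, P.c (P.T i) = P.v i
  c_per : ∀ τ, P.c (τ + P.L) = P.c τ
  c_edge : ∀ i u, 0 ≤ u → u ≤ P.len i →
    P.c (P.T i + u) = P.v i + (u / P.len i) • (P.v (i + 1) - P.v i)
  c_lip : ∀ a b, dist (P.c a) (P.c b) ≤ |a - b|
  straight : ∀ a b, a ≤ b → (∀ i, ¬ (a < P.T i ∧ P.T i < b)) →
    ∃ e : E2, ‖e‖ = 1 ∧ ∀ τ ∈ Icc a b, P.c τ = P.c a + (τ - a) • e

/-- GEO2: convexity facts. -/
structure Geo2 (P : Polygon) : Prop where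
  compact : IsCompact P.body
  convex : Convex ℝ P.body
  ball : ∃ (z : E2) (R : ℝ), 0 < R ∧ Metric.closedBall z R ⊆ P.body
  tri : ∀ p q : E2, (∀ i, dist p (P.v i) = dist q (P.v i)) → p = q
  v_mem : ∀ i, P.v i ∈ P.body
  c_mem : ∀ τ, P.c τ ∈ P.body
  c_nint : ∀ τ, P.c τ ∉ interior P.body
  bd : ∀ p ∈ P.body, p ∈ interior P.body ∨ ∃ τ, p = P.c τ
  inj : ∀ a b, P.c a = P.c b → ∃ k : ℤ, b = a + k * P.L
  corner : ∀ i, ∃ (e f : E2) (δ : ℝ), ‖e‖ = 1 ∧ ‖f‖ = 1 ∧ 0 < δ ∧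
    (∀ u, 0 ≤ u → u ≤ δ → P.c (P.T i + u) = P.v i + u • e ∧ P.c (P.T i - u) = P.v i + u • f) ∧
    ∀ p ∈ P.body, p ≠ P.v i → 0 < inner ℝ (p - P.v i) (e + f)
  edge : ∀ t, (∀ i, t ≠ P.T i) → ∃ (e : E2) (δ : ℝ), ‖e‖ = 1 ∧ 0 < δ ∧
    (∀ u, |u| ≤ δ → P.c (t + u) = P.c t + u • e) ∧
    ∀ p ∈ P.body, ∀ q ∈ P.body, p + q = (2 : ℝ) • P.c t → ∃ u : ℝ, p = P.c t + u • e

/-- MET: the chain metric. -/
structure Met (P : Polygon) (s : ℝ) : Prop where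
  nonneg : ∀ p q, 0 ≤ P.gdist s p q
  symm : ∀ p q, P.gdist s p q = P.gdist s q p
  triangle : ∀ p ∈ P.body, ∀ q ∈ P.body, ∀ r ∈ P.body,
    P.gdist s p r ≤ P.gdist s p q + P.gdist s q r
  le_dist : ∀ p ∈ P.body, ∀ q ∈ P.body, P.gdist s p q ≤ dist p q
  link : ∀ d : ℝ, P.gdist s (P.c (s + d)) (P.c (s - d)) = 0
  calib : ∀ F : E2 → ℝ, (∀ p ∈ P.body, ∀ q ∈ P.body, |F p - F q| ≤ dist p q) →
    (∀ d : ℝ, F (P.c (s + d)) = F (P.c (s - d))) →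
    ∀ p ∈ P.body, ∀ q ∈ P.body, |F p - F q| ≤ P.gdist s p q
  pass : ∀ F : E2 → ℝ, (∀ p ∈ P.body, ∀ q ∈ P.body, |F p - F q| ≤ dist p q) →
    (∀ d : ℝ, F (P.c (s + d)) = F (P.c (s - d))) →
    ∀ y ∈ P.body, ∀ w ∈ P.body, ∀ t, F w < t → t < F y →
    ∃ p ∈ P.body, F p = t ∧ P.gdist s y p + P.gdist s p w ≤ P.gdist s y w
  /-- short distances in the interior are Euclidean -/
  loc : ∀ p q η, p ∈ P.body → q ∈ P.body → Metric.ball p η ⊆ P.body →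
    min (dist p q) η ≤ P.gdist s p q

/-- `h` is an isometry of the glued surface for `s` onto the one for `s0`. -/
structure IsoMap (P : Polygon) (s s0 : ℝ) (h : E2 → E2) : Prop where
  maps : MapsTo h P.body P.body
  surj : ∀ y ∈ P.body, ∃ p ∈ P.body, P.gdist s0 (h p) y = 0
  iso : ∀ p ∈ P.body, ∀ q ∈ P.body, P.gdist s0 (h p) (h q) = P.gdist s p q

/-- CAL: the calibrating functions. -/
def St_CAL : Prop := ∀ (P : Polygon) (s t r ρ : ℝ), 0 < r → 0 < ρ → ρ ≤ r →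
  (∀ i, ¬ (t - r < P.T i ∧ P.T i < t) ∧ ¬ (t < P.T i ∧ P.T i < t + r) ∧
    ¬ (2 * s - t - r < P.T i ∧ P.T i < 2 * s - t) ∧
    ¬ (2 * s - t < P.T i ∧ P.T i < 2 * s - t + r)) →
  ((∀ k : ℤ, 2 * r ≤ |2 * s - 2 * t - k * P.L|) ∨ ∃ k : ℤ, 2 * s - 2 * t = k * P.L) →
  (∀ a b, (∀ k : ℤ, r ≤ |a - b - k * P.L|) → ρ ≤ dist (P.c a) (P.c b)) →
  (∀ d : ℝ, min ρ (min (dist (P.c (s + d)) (P.c t)) (dist (P.c (s + d)) (P.c (2 * s - t)))) =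
    min ρ (min (dist (P.c (s - d)) (P.c t)) (dist (P.c (s - d)) (P.c (2 * s - t))))) ∧
  ∀ p ∈ P.body, ∀ q ∈ P.body,
    |min ρ (min (dist p (P.c t)) (dist p (P.c (2 * s - t)))) -
      min ρ (min (dist q (P.c t)) (dist q (P.c (2 * s - t))))| ≤ P.gdist s p q

/-- `w` lies strictly between two points of the glued surface. -/
def Between (P : Polygon) (s : ℝ) (w : E2) : Prop :=
  ∃ y ∈ P.body, ∃ z ∈ P.body, 0 < P.gdist s y w ∧ 0 < P.gdist s w z ∧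
    P.gdist s y z = P.gdist s y w + P.gdist s w z

/-- NB1: a corner glued to a non-corner is not between. -/
def St_NB1 : Prop := ∀ (P : Polygon) (s : ℝ) (i : ℤ), (∀ j, 2 * s - P.T i ≠ P.T j) →
  ¬ Between P s (P.v i)

/-- NB2: a fold point that is not a corner is not between. -/
def St_NB2 : Prop := ∀ (P : Polygon) (s t : ℝ), (∀ j, t ≠ P.T j) →
  (∃ k : ℤ, 2 * s - 2 * t = k * P.L) → ¬ Between P s (P.c t)

/-- RIG: two isometries that agree at the corners and are uniformly close coincide. -/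
def St_RIG : Prop := ∀ (P : Polygon) (ρ : ℝ), 0 < ρ → ∃ ε > 0, ∀ (s s' s0 : ℝ) (h h' : E2 → E2),
  IsoMap P s s0 h → IsoMap P s' s0 h' →
  (∀ i, P.gdist s0 (h (P.v i)) (h' (P.v i)) = 0) →
  (∀ i, ∀ p ∈ P.body, dist p (P.v i) ≤ ρ → P.gdist s p (P.v i) = dist p (P.v i) ∧
    P.gdist s' p (P.v i) = dist p (P.v i)) →
  (∀ p ∈ P.body, P.gdist s0 (h p) (h' p) ≤ ε) →
  ∀ p ∈ P.body, P.gdist s0 (h p) (h' p) = 0

/-- NET: among infinitely many isometries two are uniformly close. -/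
def St_NET : Prop := ∀ (P : Polygon) (s0 : ℝ) (A : Set ℝ) (h : ℝ → E2 → E2) (ε : ℝ),
  A.Infinite → (∀ s ∈ A, IsoMap P s s0 (h s)) → 0 < ε →
  ∃ s ∈ A, ∃ s' ∈ A, s ≠ s' ∧ ∀ p ∈ P.body, P.gdist s0 (h s p) (h s' p) ≤ ε

/-- SUR: foldings to congruent polyhedra give isometric glued surfaces. -/
def St_SUR : Prop := ∀ (P : Polygon) (s s0 : ℝ) (Q Q0 : Set E3), Congruent Q Q0 →
  Folds P s Q → Folds P s0 Q0 → ∃ h, IsoMap P s s0 h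

end R984.PH
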