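import Pool.Agent.R984.PH.Stm

/-! SUR: foldings to congruent polyhedra give isometric glued surfaces. -/

set_option autoImplicit false

namespace R984.PH

open Set

namespace Sur

/-- The abstract transfer. -/
theorem transfer (met : ∀ P s, Met P s) (P : Polygon) (s s0 : ℝ) {α : Type*} (M M0 : Set α)
    (d d0 : α → α → ENNReal) (g : α → α) (hg : MapsTo g M M0) (hg' : ∀ y ∈ M0, ∃ x ∈ M, g x = y)
    (hd : ∀ x y, d0 (g x) (g y) = d x y)
    (hsub : ∀ x y, d0 x y = 0 → ∀ z, d0 x z = d0 y z ∧ d0 z x = d0 z y)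
    (hf : P.SurfaceIso s M d) (hf0 : P.SurfaceIso s0 M0 d0) : ∃ h, IsoMap P s s0 h := by
  classical
  obtain ⟨f, hf1, hf2, hf3⟩ := hf
  obtain ⟨f0, hf01, hf02, hf03⟩ := hf0
  have hex : ∀ p : E2, ∃ q : E2, p ∈ P.body → q ∈ P.body ∧ d0 (f0 q) (g (f p)) = 0 := by
    intro p
    by_cases hp : p ∈ P.body
    · obtain ⟨q, hq, hq'⟩ := hf02 (g (f p)) (hg (hf1 hp))
      exact ⟨q, fun _ => ⟨hq, hq'⟩⟩
    · exact ⟨p, fun h => absurd h hp⟩
  choose h hh using hex
  have hzero : ∀ a : ℝ, 0 ≤ a → ENNReal.ofReal a = 0 → a = 0 := fun a h1 h2 =>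
    le_antisymm (ENNReal.ofReal_eq_zero.1 h2) h1
  refine ⟨h, fun p hp => (hh p hp).1, fun y hy => ?_, fun p hp q hq => ?_⟩
  · obtain ⟨x, hx, hx'⟩ := hg' (f0 y) (hf01 hy)
    obtain ⟨p, hp, hp'⟩ := hf2 x hx
    refine ⟨p, hp, hzero _ ((met P s0).nonneg _ _) ?_⟩
    rw [← hf03 _ (hh p hp).1 _ hy, ((hsub _ _ (hh p hp).2) (f0 y)).1, ← hx', hd]
    exact hp'
  · have h1 := hf03 _ (hh p hp).1 _ (hh q hq).1
    rw [((hsub _ _ (hh p hp).2) _).1, ((hsub _ _ (hh q hq).2) _).2, hd, hf3 p hp q hq] at h1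
    have h2 := congrArg ENNReal.toReal h1
    rw [ENNReal.toReal_ofReal ((met P s).nonneg _ _),
      ENNReal.toReal_ofReal ((met P s0).nonneg _ _)] at h2
    exact h2.symm

theorem bd_zero (Q : Set E3) (p q : E3) (h : bdDist Q p q = 0) : p = q := by
  rw [← edist_eq_zero, ← nonpos_iff_eq_zero, ← h]
  refine le_iInf₂ fun γ hγ => ?_
  rw [← hγ.2.1, ← hγ.2.2.1]
  exact eVariationOn.edist_le γ (by simp) (by simp)

theorem var_comp (g : E3 ≃ᵢ E3) (γ : ℝ → E3) (s : Set ℝ) :
    eVariationOn (fun t => g (γ t)) s = eVariationOn γ s := by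
  unfold eVariationOn
  simp only [g.isometry.edist_eq]

theorem bd_le (g : E3 ≃ᵢ E3) (Q : Set E3) (p q : E3) :
    bdDist (g '' Q) (g p) (g q) ≤ bdDist Q p q := by
  refine le_iInf₂ fun γ hγ => ?_
  have hfr : frontier (g '' Q) = g '' frontier Q := (g.toHomeomorph.image_frontier Q).symm
  refine (iInf₂_le (fun t => g (γ t)) ⟨g.continuous.comp_continuousOn hγ.1, ?_, ?_, ?_⟩).trans
    (var_comp g γ _).le
  · exact congrArg g hγ.2.1
  · exact congrArg g hγ.2.2.1
  · intro t ht
    rw [hfr]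
    exact ⟨_, hγ.2.2.2 t ht, rfl⟩

theorem bd_eq (g : E3 ≃ᵢ E3) (Q : Set E3) (p q : E3) :
    bdDist (g '' Q) (g p) (g q) = bdDist Q p q := by
  refine le_antisymm (bd_le g Q p q) ?_
  have h := bd_le g.symm (g '' Q) (g p) (g q)
  have h1 : g.symm '' (g '' Q) = Q := by
    rw [← image_comp]
    simp
  rw [h1, g.symm_apply_apply, g.symm_apply_apply] at h
  exact h

theorem dd_symm (Q : Set E3) (x y : E3 × Bool) : doubleDist Q x y = doubleDist Q y x := by
  unfold doubleDist
  by_cases h : x.2 = y.2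
  · rw [if_pos h, if_pos h.symm, edist_comm]
  · rw [if_neg h, if_neg (Ne.symm h)]
    refine iInf_congr fun r => iInf_congr fun _ => ?_
    rw [add_comm, edist_comm r, edist_comm x.1]

theorem le_iInf_add {A : Set E3} {f : E3 → ENNReal} {a c : ENNReal}
    (h : ∀ z ∈ A, a ≤ f z + c) : a ≤ (⨅ z ∈ A, f z) + c := by
  rw [← tsub_le_iff_right]
  refine le_iInf₂ fun z hz => ?_
  rw [tsub_le_iff_right]
  exact h z hz

theorem dd_tri (Q : Set E3) (x y z : E3 × Bool) :
    doubleDist Q x z ≤ doubleDist Q x y + doubleDist Q y z := by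
  unfold doubleDist
  by_cases h1 : x.2 = y.2
  · by_cases h2 : y.2 = z.2
    · rw [if_pos h1, if_pos h2, if_pos (h1.trans h2)]
      exact edist_triangle _ _ _
    · rw [if_pos h1, if_neg h2, if_neg (h1 ▸ h2), add_comm]
      refine le_iInf_add fun r hr => (iInf₂_le r hr).trans ?_
      calc edist x.1 r + edist r z.1 ≤ (edist x.1 y.1 + edist y.1 r) + edist r z.1 := by
            gcongr; exact edist_triangle _ _ _
        _ = _ := by ring
  · by_cases h2 : y.2 = z.2
    · rw [if_neg h1, if_pos h2, if_neg (h2 ▸ h1)]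
      refine le_iInf_add fun r hr => (iInf₂_le r hr).trans ?_
      calc edist x.1 r + edist r z.1 ≤ edist x.1 r + (edist r y.1 + edist y.1 z.1) := by
            gcongr; exact edist_triangle _ _ _
        _ = _ := by ring
    · have h3 : x.2 = z.2 := by
        revert h1 h2
        cases x.2 <;> cases y.2 <;> cases z.2 <;> simp
      rw [if_neg h1, if_neg h2, if_pos h3]
      refine le_iInf_add fun r _ => ?_
      rw [add_comm]
      refine le_iInf_add fun r' _ => ?_
      calc edist x.1 z.1 ≤ edist x.1 r + edist r z.1 := edist_triangle _ _ _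
        _ ≤ edist x.1 r + (edist r y.1 + edist y.1 z.1) := by
            gcongr; exact edist_triangle _ _ _
        _ ≤ edist x.1 r + (edist r y.1 + (edist y.1 r' + edist r' z.1)) := by
            gcongr; exact edist_triangle _ _ _
        _ = _ := by ring

theorem dd_eq (g : E3 ≃ᵢ E3) (Q : Set E3) (x y : E3 × Bool) :
    doubleDist (g '' Q) (g x.1, x.2) (g y.1, y.2) = doubleDist Q x y := by
  unfold doubleDist
  have h : intrinsicFrontier ℝ (g '' Q) = g '' intrinsicFrontier ℝ Q := by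
    have := g.toRealAffineIsometryEquiv.toAffineIsometry.intrinsicFrontier_image (𝕜 := ℝ) Q
    exact this
  rw [h]
  simp only [g.isometry.edist_eq, iInf_image]

end Sur

theorem sur (met : ∀ P s, Met P s) : St_SUR := by
  intro P s s0 Q Q0 ⟨g, hg⟩ hQ hQ0
  have hint : interior Q0 = g '' interior Q := by
    rw [← hg]; exact (g.toHomeomorph.image_interior Q).symm
  rcases hQ with ⟨h1, h2⟩ | ⟨h1, h2⟩
  · rcases hQ0 with ⟨h3, h4⟩ | ⟨h3, h4⟩
    · refine Sur.transfer met P s s0 (frontier Q) (frontier Q0) (bdDist Q) (bdDist Q0) g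
        ?_ ?_ ?_ ?_ h2 h4
      · intro x hx
        rw [← hg]
        have := g.toHomeomorph.image_frontier Q
        exact this ▸ ⟨x, hx, rfl⟩
      · intro y hy
        rw [← hg] at hy
        have := g.toHomeomorph.image_frontier Q
        rw [show (g '' Q) = g.toHomeomorph '' Q from rfl, ← this] at hy
        exact hy
      · intro x y
        rw [← hg]
        exact Sur.bd_eq g Q x y
      · intro x y hxy z
        rw [Sur.bd_zero _ _ _ hxy]
        exact ⟨rfl, rfl⟩
    · rw [hint, image_eq_empty] at h3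
      rw [h3] at h1
      exact absurd h1 not_nonempty_empty
  · rcases hQ0 with ⟨h3, h4⟩ | ⟨h3, h4⟩
    · rw [hint, h1, image_empty] at h3
      exact absurd h3 not_nonempty_empty
    · refine Sur.transfer met P s s0 (Q ×ˢ univ) (Q0 ×ˢ univ) (doubleDist Q) (doubleDist Q0)
        (fun x => (g x.1, x.2)) ?_ ?_ ?_ ?_ h2 h4
      · rintro x ⟨hx, -⟩
        rw [← hg]
        exact ⟨⟨x.1, hx, rfl⟩, mem_univ _⟩
      · rintro ⟨y, b⟩ ⟨hy, -⟩
        rw [← hg] at hy
        obtain ⟨x, hx, hxy⟩ := hy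
        exact ⟨(x, b), ⟨hx, mem_univ _⟩, by simp [hxy]⟩
      · intro x y
        rw [← hg]
        exact Sur.dd_eq g Q x y
      · intro x y hxy z
        constructor
        · refine le_antisymm ?_ ?_
          · have := Sur.dd_tri Q0 x y z
            rwa [hxy, zero_add] at this
          · have := Sur.dd_tri Q0 y x z
            rwa [Sur.dd_symm Q0 y x, hxy, zero_add] at this
        · refine le_antisymm ?_ ?_
          · have := Sur.dd_tri Q0 z y x
            rwa [Sur.dd_symm Q0 y x, hxy, add_zero] at this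
          · have := Sur.dd_tri Q0 z x y
            rwa [hxy, add_zero] at this

end R984.PH
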